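import Pool.Agent.H744.VN.Dec

/-!
# Project VN, part 2: copies of families of irreducible minimal vectors

Setting: `Λ : Lat L V`, `Λ' : Lat L' V` two lattices with the same quotient `V = L/2L = L'/2L'`,
`M`, `N` choices of minimal vectors, `M.f = N.f` (same vonorms).
`IV M x` : `x` is an irreducible minimal vector of `Λ`.
-/

set_option autoImplicit false

open Pool.Agent.H744.Vo

namespace Pool.Agent.H744.VN

section defs

variable {L L' V : Type} [AddCommGroup L] [AddCommGroup L'] [AddCommGroup V]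
  {Λ : Lat L V} {Λ' : Lat L' V}

/-- the subfamily `x|S` of vectors of `Λ` has a copy in `Λ'`: irreducible minimal vectors of `Λ'`
with the same classes and the same Gram matrix -/
def HasCopy {ι : Type} (M : Λ.MinSys) (N : Λ'.MinSys) (x : ι → L) (S : Finset ι) : Prop :=
  ∃ y : ι → L', (∀ i ∈ S, IV N (y i) ∧ Λ'.pr (y i) = Λ.pr (x i)) ∧
    ∀ i ∈ S, ∀ j ∈ S, Λ'.b (y i) (y j) = Λ.b (x i) (x j)

/-- pair version -/
def PC (M : Λ.MinSys) (N : Λ'.MinSys) (x y : L) : Prop :=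
  ∃ x' y' : L', IV N x' ∧ IV N y' ∧ Λ'.pr x' = Λ.pr x ∧ Λ'.pr y' = Λ.pr y ∧
    Λ'.b x' y' = Λ.b x y

/-- triple version -/
def TC (M : Λ.MinSys) (N : Λ'.MinSys) (x y z : L) : Prop :=
  ∃ x' y' z' : L', IV N x' ∧ IV N y' ∧ IV N z' ∧ Λ'.pr x' = Λ.pr x ∧ Λ'.pr y' = Λ.pr y ∧
    Λ'.pr z' = Λ.pr z ∧ Λ'.b x' y' = Λ.b x y ∧ Λ'.b x' z' = Λ.b x z ∧ Λ'.b y' z' = Λ.b y z

/-- all zero-sum families of irreducible minimal vectors of `Λ` of weight `< w` have a copy -/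
def IsoLt (M : Λ.MinSys) (N : Λ'.MinSys) (w : ℝ) : Prop :=
  ∀ (ι : Type) [Fintype ι] (x : ι → L), (∀ i, IV M (x i)) → ∑ i, x i = 0 →
    ∑ i, Λ.q (x i) < w → HasCopy M N x Finset.univ

/-- a minimal counterexample -/
structure Bad {ι : Type} [Fintype ι] (M : Λ.MinSys) (N : Λ'.MinSys) (w : ℝ) (x : ι → L) :
    Prop where
  hf : ∀ v, M.f v = N.f v
  isoMN : IsoLt M N w
  isoNM : IsoLt N M w
  iv : ∀ i, IV M (x i)
  sum : ∑ i, x i = 0
  wt : ∑ i, Λ.q (x i) = w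
  nocopy : ¬ HasCopy M N x Finset.univ

end defs

section base

variable {L L' V : Type} [AddCommGroup L] [AddCommGroup L'] [AddCommGroup V] [Module (ZMod 2) V]
  {Λ : Lat L V} {Λ' : Lat L' V} {M : Λ.MinSys} {N : Λ'.MinSys}

theorem iv_ne {x : L} (h : IV M x) : x ≠ 0 := by
  rintro rfl
  exact h.1.1 (map_zero _)

theorem iv_neg {x : L} (h : IV M x) : IV M (-x) := by
  have hp : Λ.pr (-x) = Λ.pr x := by rw [map_neg, neg_eq]
  refine ⟨by rw [hp]; exact h.1, ?_⟩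
  have := h.2
  unfold Mn at this ⊢
  rw [hp, Λ.q_neg]; exact this

/-- the weight of an irreducible minimal vector is the vonorm of its class -/
theorem iv_q {x : L} (h : IV M x) : Λ.q x = M.f (Λ.pr x) := le_antisymm h.2 (M.f_le x)

theorem key {x z : L} (hx : IV M x) (hz : z ≠ 0) (hzx : z ≠ x) :
    Λ.q x < Λ.q z + Λ.q (x - z) := by
  have h0 : x - z ≠ 0 := fun h => hzx (sub_eq_zero.1 h).symm
  have q1 := Λ.q_pos hz
  have q2 := Λ.q_pos h0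
  have hs : Λ.pr z + Λ.pr (x - z) = Λ.pr x := by rw [← map_add]; congr 1; abel
  have hq := hx.2
  unfold Mn at hq
  have f1 := M.f_le z
  have f2 := M.f_le (x - z)
  by_cases h1 : Λ.pr z = 0
  · rw [h1, zero_add] at hs
    rw [hs] at f2
    linarith
  by_cases h2 : Λ.pr (x - z) = 0
  · rw [h2, add_zero] at hs
    rw [hs] at f1
    linarith
  have := hx.1.2 _ _ h1 h2 hs
  linarith

/-- **Fact 1**: an irreducible class has only one pair of minimal vectors. -/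
theorem fact1 {x y : L} (hx : IV M x) (hy : IV M y) (h : Λ.pr x = Λ.pr y) : x = y ∨ x = -y := by
  by_contra hcon
  push Not at hcon
  obtain ⟨h1, h2⟩ := hcon
  have p1 : Λ.pr (x + y) = 0 := by rw [map_add, h, self_add]
  have hu := Λ.half_add p1
  set u := Lat.half (x + y) with hudef
  -- x - u = u - y
  have hxu : x - u = u - y := by
    rw [sub_eq_sub_iff_add_eq_add, hu]
  have hu0 : u ≠ 0 := by
    intro h0
    rw [h0, add_zero] at hu
    exact h2 (eq_neg_of_add_eq_zero_left hu.symm)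
  have hux : u ≠ x := by
    intro h0
    apply h1
    rw [h0] at hu
    exact add_left_cancel hu
  have k := key hx hu0 hux
  -- q u + q (x - u) = (q x + q y)/2
  have e1 : Λ.q x = Λ.q u + Λ.q (x - u) + 2 * Λ.b u (x - u) := by
    rw [← Λ.q_add]; congr 1; abel
  have e2 : Λ.q y = Λ.q u + Λ.q (x - u) - 2 * Λ.b u (x - u) := by
    rw [← Λ.q_sub, hxu]; congr 1; abel
  have e3 := iv_q hx
  have e4 := iv_q hy
  rw [h] at e3
  linarith

/-- **Fact 2**: strict Voronoi property. -/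
theorem fact2 {x z : L} (hx : IV M x) (hz : z ≠ 0) (hzx : z ≠ x) : Λ.b z x < Λ.q z := by
  have h := key hx hz hzx
  rw [Λ.q_sub, Λ.symm x z] at h
  linarith

theorem irr_of (hf : ∀ v, M.f v = N.f v) {r : V} (h : Irr M.f r) : Irr N.f r := by
  refine ⟨h.1, fun a b ha hb hab => ?_⟩
  rw [← hf, ← hf, ← hf]
  exact h.2 a b ha hb hab

/-- transport of irreducibility -/
theorem iv_of (hf : ∀ v, M.f v = N.f v) {x : L} {y : L'} (hx : IV M x)
    (hp : Λ'.pr y = Λ.pr x) (hq : Λ'.q y ≤ Λ.q x) : IV N y := by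
  refine ⟨by rw [hp]; exact irr_of hf hx.1, ?_⟩
  unfold Mn
  rw [hp, ← hf]
  exact le_trans hq hx.2

/-- the chosen minimal vector of the class of an irreducible minimal vector -/
theorem iv_y (hf : ∀ v, M.f v = N.f v) {x : L} (hx : IV M x) : IV N (N.y (Λ.pr x)) := by
  apply iv_of hf hx (N.pr_y _)
  show N.f _ ≤ _
  rw [← hf]; exact (iv_q hx).ge

/-- norms are the same for irreducible minimal vectors with the same class -/
theorem iv_q_eq (hf : ∀ v, M.f v = N.f v) {x : L} {y : L'} (hx : IV M x) (hy : IV N y)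
    (hp : Λ'.pr y = Λ.pr x) : Λ'.q y = Λ.q x := by
  rw [iv_q hx, iv_q hy, hp, hf]

/-- **DEC** (from S_DEC) -/
theorem dec (M : Λ.MinSys) (H : L) : ∃ l : List L, l.sum = H ∧ (∀ x ∈ l, IV M x) ∧
    l.Pairwise (fun x y => 0 ≤ Λ.b x y) ∧ (l.map Λ.q).sum ≤ Λ.q H :=
  Dec.t_DEC L V Λ M H

theorem b_list_sum (Λ : Lat L V) (z : L) (l : List L) (h : ∀ y ∈ l, 0 ≤ Λ.b z y) :
    0 ≤ Λ.b z l.sum := by
  induction l with
  | nil => simp [Λ.zero_right]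
  | cons a l ih =>
    rw [List.sum_cons, Λ.add_right]
    have h1 := h a List.mem_cons_self
    have h2 := ih (fun y hy => h y (List.mem_cons_of_mem _ hy))
    linarith

/-- head of a decomposition -/
theorem dec_head (M : Λ.MinSys) {u : L} (hu : u ≠ 0) :
    ∃ z : L, IV M z ∧ 0 ≤ Λ.b z (u - z) := by
  obtain ⟨l, h1, h2, h3, -⟩ := dec M u
  cases l with
  | nil => exact absurd h1.symm (by simpa using hu)
  | cons z l =>
    refine ⟨z, h2 z List.mem_cons_self, ?_⟩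
    have : u - z = l.sum := by rw [← h1, List.sum_cons]; abel
    rw [this]
    exact b_list_sum Λ z l (List.pairwise_cons.1 h3).1

theorem hasCopy_mono {ι : Type} {x : ι → L} {S T : Finset ι} (h : HasCopy M N x T) (hST : S ⊆ T) :
    HasCopy M N x S := by
  obtain ⟨y, h1, h2⟩ := h
  exact ⟨y, fun i hi => h1 i (hST hi), fun i hi j hj => h2 i (hST hi) j (hST hj)⟩

end base

end Pool.Agent.H744.VN

open Pool.Agent.H744.VN

namespace Pool.Agent.H744.VN.K0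

variable {L L' V : Type} [AddCommGroup L] [AddCommGroup L'] [AddCommGroup V] [Module (ZMod 2) V]
  {Λ : Lat L V} {Λ' : Lat L' V} {M : Λ.MinSys} {N : Λ'.MinSys}

lemma iv_smul {x : L} (h : IV M x) {s : ℤ} (hs : s = 1 ∨ s = -1) : IV M (s • x) := by
  rcases hs with rfl | rfl
  · simpa using h
  · simpa using iv_neg h

omit [Module (ZMod 2) V] in
lemma b_smul_left {s : ℤ} (hs : s = 1 ∨ s = -1) (x y : L) : Λ.b (s • x) y = s * Λ.b x y := by
  rcases hs with rfl | rfl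
  · simp
  · simp [Λ.neg_left]

omit [Module (ZMod 2) V] in
lemma b_smul_right {s : ℤ} (hs : s = 1 ∨ s = -1) (x y : L) : Λ.b x (s • y) = s * Λ.b x y := by
  rw [Λ.symm, b_smul_left hs, Λ.symm]

omit [Module (ZMod 2) V] in
lemma q_smul {s : ℤ} (hs : s = 1 ∨ s = -1) (x : L) : Λ.q (s • x) = Λ.q x := by
  rcases hs with rfl | rfl
  · simp
  · simp [Λ.q_neg]

lemma pr_smul (Λ : Lat L V) {s : ℤ} (hs : s = 1 ∨ s = -1) (x : L) : Λ.pr (s • x) = Λ.pr x := by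
  rcases hs with rfl | rfl
  · simp
  · have h : -(Λ.pr x) = Λ.pr x := by
      have h2 : (2 : ZMod 2) • Λ.pr x = 0 := by
        rw [show (2 : ZMod 2) = 0 from rfl, zero_smul]
      rw [two_smul] at h2
      exact neg_eq_of_add_eq_zero_left h2
    simp [h]

/-- **K0** with signs. -/
theorem t_k0 {w : ℝ} (hI : IsoLt M N w) {ι : Type} (x : ι → L) (S : Finset ι)
    (hx : ∀ i ∈ S, IV M (x i)) (s : ι → ℤ) (hs : ∀ i, s i = 1 ∨ s i = -1)
    (hw : ∑ i ∈ S, Λ.q (x i) + Λ.q (∑ i ∈ S, s i • x i) < w) : HasCopy M N x S := by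
  classical
  obtain ⟨l, hl, hiv, -, hq⟩ := dec M (-(∑ i ∈ S, s i • x i))
  have hsum : ∀ (g : L → ℝ), ∑ k : Fin l.length, g (l.get k) = (l.map g).sum := by
    intro g
    rw [← List.sum_ofFn]
    congr 1
    rw [← List.ofFn_get (l.map g)]
    apply List.ext_get
    · simp
    · intro n h1 h2
      simp
  have hsum' : ∑ k : Fin l.length, l.get k = l.sum := by
    rw [← List.sum_ofFn, List.ofFn_get]
  have h1 : ∀ i : {i // i ∈ S} ⊕ Fin l.length,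
      IV M (Sum.elim (fun i : {i // i ∈ S} => s i • x i) (fun k => l.get k) i) := by
    rintro (i | k)
    · exact iv_smul (hx i.1 i.2) (hs i.1)
    · exact hiv _ (List.get_mem _ _)
  have h2 : ∑ i : {i // i ∈ S} ⊕ Fin l.length,
      Sum.elim (fun i : {i // i ∈ S} => s i • x i) (fun k => l.get k) i = 0 := by
    rw [Fintype.sum_sum_type]
    simp only [Sum.elim_inl, Sum.elim_inr]
    rw [hsum', hl, Finset.sum_coe_sort S (fun i => s i • x i), add_neg_cancel]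
  have h3 : ∑ i : {i // i ∈ S} ⊕ Fin l.length,
      Λ.q (Sum.elim (fun i : {i // i ∈ S} => s i • x i) (fun k => l.get k) i) < w := by
    rw [Fintype.sum_sum_type]
    simp only [Sum.elim_inl, Sum.elim_inr]
    rw [hsum Λ.q]
    have e : ∑ i : {i // i ∈ S}, Λ.q (s i.1 • x i.1) = ∑ i ∈ S, Λ.q (x i) := by
      rw [← Finset.sum_coe_sort S (fun i => Λ.q (x i))]
      exact Finset.sum_congr rfl fun i _ => q_smul (hs i.1) _
    rw [e]
    rw [Λ.q_neg] at hq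
    linarith
  obtain ⟨y', hy1, hy2⟩ := hI ({i // i ∈ S} ⊕ Fin l.length) _ h1 h2 h3
  refine ⟨fun i => if h : i ∈ S then s i • y' (Sum.inl ⟨i, h⟩) else 0, ?_, ?_⟩
  · intro i hi
    simp only [hi, dif_pos]
    obtain ⟨a, b⟩ := hy1 (Sum.inl ⟨i, hi⟩) (Finset.mem_univ _)
    refine ⟨iv_smul a (hs i), ?_⟩
    rw [pr_smul Λ' (hs i), b]
    simp only [Sum.elim_inl]
    exact pr_smul Λ (hs i) _
  · intro i hi j hj
    simp only [hi, hj, dif_pos]
    have h4 := hy2 (Sum.inl ⟨i, hi⟩) (Finset.mem_univ _) (Sum.inl ⟨j, hj⟩) (Finset.mem_univ _)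
    simp only [Sum.elim_inl] at h4
    rw [b_smul_left (hs i), b_smul_right (hs j)] at h4 ⊢
    rw [h4]
    rcases hs i with h | h <;> rcases hs j with h' | h' <;> rw [h, h'] <;> push_cast <;> ring

/-- **K0 for pairs** -/
theorem t_k0_pair {w : ℝ} (hI : IsoLt M N w) {x y : L} (hx : IV M x) (hy : IV M y)
    (hw : 2 * Λ.q x + 2 * Λ.q y - 2 * |Λ.b x y| < w) : PC M N x y := by
  have key : ∀ σ : ℤ, (σ = 1 ∨ σ = -1) → Λ.q (x + σ • y) = Λ.q x + Λ.q y + 2 * (σ * Λ.b x y) := by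
    intro σ hσ
    rw [Λ.q_add, q_smul hσ, b_smul_right hσ]
  obtain ⟨σ, hσ, hσ'⟩ : ∃ σ : ℤ, (σ = 1 ∨ σ = -1) ∧ σ * Λ.b x y = -|Λ.b x y| := by
    rcases le_total 0 (Λ.b x y) with h | h
    · exact ⟨-1, Or.inr rfl, by rw [abs_of_nonneg h]; push_cast; ring⟩
    · exact ⟨1, Or.inl rfl, by rw [abs_of_nonpos h]; push_cast; ring⟩
  have h := t_k0 (N := N) hI (![x, y]) (Finset.univ : Finset (Fin 2))
    (by intro i _; fin_cases i
        · exact hx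
        · exact hy) (![1, σ])
    (by intro i; fin_cases i
        · exact Or.inl rfl
        · exact hσ)
    (by
      simp only [Fin.sum_univ_two, Matrix.cons_val_zero, Matrix.cons_val_one, one_smul]
      rw [key σ hσ, hσ']
      linarith)
  obtain ⟨y', h1, h2⟩ := h
  refine ⟨y' 0, y' 1, (h1 0 (Finset.mem_univ _)).1, (h1 1 (Finset.mem_univ _)).1,
    (h1 0 (Finset.mem_univ _)).2, (h1 1 (Finset.mem_univ _)).2, ?_⟩
  exact h2 0 (Finset.mem_univ _) 1 (Finset.mem_univ _)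

end Pool.Agent.H744.VN.K0

namespace Pool.Agent.H744.VN

section base

variable {L L' V : Type} [AddCommGroup L] [AddCommGroup L'] [AddCommGroup V] [Module (ZMod 2) V]
  {Λ : Lat L V} {Λ' : Lat L' V} {M : Λ.MinSys} {N : Λ'.MinSys}

/-- **K0** with signs: if `W(S) + q(Σ ± x_i) < w` then `x|S` has a copy. -/
theorem k0 {w : ℝ} (hI : IsoLt M N w) {ι : Type} (x : ι → L) (S : Finset ι)
    (hx : ∀ i ∈ S, IV M (x i)) (s : ι → ℤ) (hs : ∀ i, s i = 1 ∨ s i = -1)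
    (hw : ∑ i ∈ S, Λ.q (x i) + Λ.q (∑ i ∈ S, s i • x i) < w) : HasCopy M N x S :=
  K0.t_k0 hI x S hx s hs hw

/-- **K0 for pairs** -/
theorem k0_pair {w : ℝ} (hI : IsoLt M N w) {x y : L} (hx : IV M x) (hy : IV M y)
    (hw : 2 * Λ.q x + 2 * Λ.q y - 2 * |Λ.b x y| < w) : PC M N x y :=
  K0.t_k0_pair hI hx hy hw


theorem pc_symm {x y : L} (h : PC M N x y) : PC M N y x := by
  obtain ⟨a, b, h1, h2, h3, h4, h5⟩ := h
  exact ⟨b, a, h2, h1, h4, h3, by rw [Λ'.symm, h5, Λ.symm]⟩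

theorem pc_neg_right {x y : L} (h : PC M N x y) : PC M N x (-y) := by
  obtain ⟨a, b, h1, h2, h3, h4, h5⟩ := h
  refine ⟨a, -b, h1, iv_neg h2, h3, ?_, ?_⟩
  · rw [map_neg, neg_eq, map_neg, neg_eq, h4]
  · rw [Λ'.neg_right, Λ.neg_right, h5]

theorem pc_neg_left {x y : L} (h : PC M N x y) : PC M N (-x) y :=
  pc_symm (pc_neg_right (pc_symm h))

theorem pc_of_hasCopy {ι : Type} {x : ι → L} {S : Finset ι} (h : HasCopy M N x S) {i j : ι}
    (hi : i ∈ S) (hj : j ∈ S) : PC M N (x i) (x j) := by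
  obtain ⟨y, h1, h2⟩ := h
  exact ⟨y i, y j, (h1 i hi).1, (h1 j hj).1, (h1 i hi).2, (h1 j hj).2, h2 i hi j hj⟩




end base

end Pool.Agent.H744.VN

namespace Pool.Agent.H744.VN.Split

section bil

variable {L V : Type} [AddCommGroup L] [AddCommGroup V] (Λ : Lat L V)

theorem b_sum_left {ι : Type} (s : Finset ι) (f : ι → L) (z : L) :
    Λ.b (∑ i ∈ s, f i) z = ∑ i ∈ s, Λ.b (f i) z := by
  classical
  induction s using Finset.induction_on with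
  | empty => rw [Finset.sum_empty, Finset.sum_empty, Λ.zero_left]
  | insert a s ha ih => rw [Finset.sum_insert ha, Finset.sum_insert ha, Λ.add_left, ih]

theorem b_sum_right {ι : Type} (s : Finset ι) (f : ι → L) (z : L) :
    Λ.b z (∑ i ∈ s, f i) = ∑ i ∈ s, Λ.b z (f i) := by
  rw [Λ.symm, b_sum_left]
  exact Finset.sum_congr rfl fun i _ => Λ.symm _ _

theorem q_sum {ι : Type} (s : Finset ι) (f : ι → L) :
    Λ.q (∑ i ∈ s, f i) = ∑ i ∈ s, ∑ j ∈ s, Λ.b (f i) (f j) := by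
  unfold Lat.q
  rw [b_sum_left]
  exact Finset.sum_congr rfl fun i _ => b_sum_right Λ s f _

end bil

section main

variable {L L' V : Type} [AddCommGroup L] [AddCommGroup L'] [AddCommGroup V] [Module (ZMod 2) V]
  {Λ : Lat L V} {Λ' : Lat L' V} {M : Λ.MinSys} {N : Λ'.MinSys}

theorem neg_self (v : V) : -v = v :=
  neg_eq_of_add_eq_zero_left (ZModModule.add_self v)

/-- **SPLIT** -/
theorem t_split {w : ℝ} (hf : ∀ v, M.f v = N.f v) (hJ : IsoLt N M w) {y H H' : L'} (hy : IV N y)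
    (hs : H + H' = y) (hw : Λ'.q y + Λ'.q H + Λ'.q H' < w) {x : L} (hx : IV M x)
    (hxy : Λ.pr x = Λ'.pr y) :
    ∃ G G' : L, G + G' = x ∧ Λ.pr G = Λ'.pr H ∧ Λ.pr G' = Λ'.pr H' ∧ Λ.q G = Λ'.q H ∧
      Λ.q G' = Λ'.q H' := by
  obtain ⟨l₁, s1, i1, -, w1⟩ := dec N H
  obtain ⟨l₂, s2, i2, -, w2⟩ := dec N H'
  have t1 : ∑ k : Fin l₁.length, l₁[k.1] = H := by
    rw [← s1]
    exact Fin.sum_univ_getElem l₁
  have t2 : ∑ k : Fin l₂.length, l₂[k.1] = H' := by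
    rw [← s2]
    exact Fin.sum_univ_getElem l₂
  have u1 : ∑ k : Fin l₁.length, Λ'.q l₁[k.1] = (l₁.map Λ'.q).sum :=
    Fin.sum_univ_fun_getElem l₁ Λ'.q
  have u2 : ∑ k : Fin l₂.length, Λ'.q l₂[k.1] = (l₂.map Λ'.q).sum :=
    Fin.sum_univ_fun_getElem l₂ Λ'.q
  obtain ⟨z, hz⟩ : ∃ z : Unit ⊕ (Fin l₁.length ⊕ Fin l₂.length) → L',
      z = Sum.elim (fun _ => -y) (Sum.elim (fun k => l₁[k.1]) (fun k => l₂[k.1])) := ⟨_, rfl⟩
  have z0 : z (Sum.inl ()) = -y := by rw [hz]; rfl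
  have z1 : ∀ k, z (Sum.inr (Sum.inl k)) = l₁[k.1] := fun k => by rw [hz]; rfl
  have z2 : ∀ k, z (Sum.inr (Sum.inr k)) = l₂[k.1] := fun k => by rw [hz]; rfl
  have hziv : ∀ i, IV N (z i) := by
    rintro (i | i | i)
    · rw [z0]; exact iv_neg hy
    · rw [z1]; exact i1 _ (List.getElem_mem _)
    · rw [z2]; exact i2 _ (List.getElem_mem _)
  have hzsum : ∑ i, z i = 0 := by
    rw [Fintype.sum_sum_type, Fintype.sum_sum_type, Fintype.sum_unique]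
    show z (Sum.inl ()) + (_ + _) = 0
    rw [z0, Finset.sum_congr rfl (fun k _ => z1 k), Finset.sum_congr rfl (fun k _ => z2 k), t1, t2,
      hs, neg_add_cancel]
  have hzw : ∑ i, Λ'.q (z i) < w := by
    rw [Fintype.sum_sum_type, Fintype.sum_sum_type, Fintype.sum_unique]
    show Λ'.q (z (Sum.inl ())) + (_ + _) < w
    rw [z0, Finset.sum_congr rfl (fun k _ => by rw [z1 k] :
        ∀ k ∈ Finset.univ, Λ'.q (z (Sum.inr (Sum.inl k))) = Λ'.q l₁[k.1]),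
      Finset.sum_congr rfl (fun k _ => by rw [z2 k] :
        ∀ k ∈ Finset.univ, Λ'.q (z (Sum.inr (Sum.inr k))) = Λ'.q l₂[k.1]), u1, u2, Λ'.q_neg]
    linarith
  obtain ⟨c, hc1, hc2⟩ := hJ _ z hziv hzsum hzw
  have hcsum : ∑ i, c i = 0 := by
    apply Λ.eq_zero_of_q
    rw [q_sum]
    have h1 : ∑ i, ∑ j, Λ.b (c i) (c j) = ∑ i, ∑ j, Λ'.b (z i) (z j) :=
      Finset.sum_congr rfl fun i hi => Finset.sum_congr rfl fun j hj => hc2 i hi j hj
    rw [h1, ← q_sum, hzsum, Λ'.q_zero]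
  rw [Fintype.sum_sum_type, Fintype.sum_sum_type, Fintype.sum_unique] at hcsum
  have hcsum' : c (Sum.inl ()) + (∑ k, c (Sum.inr (Sum.inl k)) + ∑ k, c (Sum.inr (Sum.inr k))) =
      0 := hcsum
  obtain ⟨G1, hG1⟩ : ∃ G1, G1 = ∑ k, c (Sum.inr (Sum.inl k)) := ⟨_, rfl⟩
  obtain ⟨G2, hG2⟩ : ∃ G2, G2 = ∑ k, c (Sum.inr (Sum.inr k)) := ⟨_, rfl⟩
  rw [← hG1, ← hG2] at hcsum'
  have p1 : Λ.pr G1 = Λ'.pr H := by
    rw [hG1, ← t1, map_sum, map_sum]
    refine Finset.sum_congr rfl fun k _ => ?_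
    rw [(hc1 _ (Finset.mem_univ _)).2, z1]
  have p2 : Λ.pr G2 = Λ'.pr H' := by
    rw [hG2, ← t2, map_sum, map_sum]
    refine Finset.sum_congr rfl fun k _ => ?_
    rw [(hc1 _ (Finset.mem_univ _)).2, z2]
  have q1 : Λ.q G1 = Λ'.q H := by
    rw [hG1, ← t1, q_sum, q_sum]
    refine Finset.sum_congr rfl fun k _ => Finset.sum_congr rfl fun k' _ => ?_
    rw [hc2 _ (Finset.mem_univ _) _ (Finset.mem_univ _), z1, z1]
  have q2 : Λ.q G2 = Λ'.q H' := by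
    rw [hG2, ← t2, q_sum, q_sum]
    refine Finset.sum_congr rfl fun k _ => Finset.sum_congr rfl fun k' _ => ?_
    rw [hc2 _ (Finset.mem_univ _) _ (Finset.mem_univ _), z2, z2]
  obtain ⟨c0iv, c0pr⟩ := hc1 (Sum.inl ()) (Finset.mem_univ _)
  have c0pr' : Λ.pr x = Λ.pr (c (Sum.inl ())) := by
    rw [c0pr, z0, map_neg, neg_self, hxy]
  rcases fact1 hx c0iv c0pr' with h | h
  · refine ⟨-G1, -G2, ?_, ?_, ?_, ?_, ?_⟩
    · rw [h, ← neg_add]
      exact (eq_neg_of_add_eq_zero_left hcsum').symm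
    · rw [map_neg, p1, neg_self]
    · rw [map_neg, p2, neg_self]
    · rw [Λ.q_neg, q1]
    · rw [Λ.q_neg, q2]
  · refine ⟨G1, G2, ?_, p1, p2, q1, q2⟩
    rw [h]
    exact eq_neg_of_add_eq_zero_right hcsum'

end main

end Pool.Agent.H744.VN.Split

namespace Pool.Agent.H744.VN.Signs

open Pool.Agent.H744.VN

variable {L L' V : Type} [AddCommGroup L] [AddCommGroup L'] [AddCommGroup V] [Module (ZMod 2) V]
  {Λ : Lat L V} {Λ' : Lat L' V} {M : Λ.MinSys} {N : Λ'.MinSys}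

lemma sg_fwd (hf : ∀ v, M.f v = N.f v) {x : L} (hx : IV M x) {y : L'} (hy : IV N y)
    (hp : Λ'.pr y = Λ.pr x) : ∃ ε : ℝ, (ε = 1 ∨ ε = -1) ∧
      ∀ z, Λ'.b y z = ε * Λ'.b (N.y (Λ.pr x)) z := by
  have h1 : Λ'.pr y = Λ'.pr (N.y (Λ.pr x)) := by rw [N.pr_y, hp]
  rcases fact1 hy (iv_y hf hx) h1 with h | h
  · exact ⟨1, Or.inl rfl, fun z => by rw [h, one_mul]⟩
  · exact ⟨-1, Or.inr rfl, fun z => by rw [h, Λ'.neg_left]; ring⟩

lemma sg_bwd (hf : ∀ v, M.f v = N.f v) {x : L} (hx : IV M x) {ε : ℝ} (hε : ε = 1 ∨ ε = -1) :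
    ∃ y : L', IV N y ∧ Λ'.pr y = Λ.pr x ∧ ∀ z, Λ'.b y z = ε * Λ'.b (N.y (Λ.pr x)) z := by
  rcases hε with rfl | rfl
  · exact ⟨N.y (Λ.pr x), iv_y hf hx, N.pr_y _, fun z => by rw [one_mul]⟩
  · refine ⟨-N.y (Λ.pr x), iv_neg (iv_y hf hx), ?_, fun z => by rw [Λ'.neg_left]; ring⟩
    rw [map_neg, N.pr_y]
    exact ZModModule.neg_eq_self _

/-- sign description of pairs with a copy -/
theorem t_pc_iff (hf : ∀ v, M.f v = N.f v) {x y : L} (hx : IV M x) (hy : IV M y) :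
    PC M N x y ↔ |Λ'.b (N.y (Λ.pr x)) (N.y (Λ.pr y))| = |Λ.b x y| := by
  constructor
  · rintro ⟨x', y', h1, h2, h3, h4, h5⟩
    obtain ⟨a, ha, ha'⟩ := sg_fwd hf hx h1 h3
    obtain ⟨b, hb, hb'⟩ := sg_fwd hf hy h2 h4
    rw [← h5, ha', Λ'.symm _ y', hb', Λ'.symm (N.y (Λ.pr y)), abs_mul, abs_mul]
    rcases ha with rfl | rfl <;> rcases hb with rfl | rfl <;> simp
  · intro h
    rcases abs_eq_abs.1 h with h1 | h1
    · exact ⟨N.y (Λ.pr x), N.y (Λ.pr y), iv_y hf hx, iv_y hf hy, N.pr_y _, N.pr_y _, h1⟩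
    · obtain ⟨y', h2, h3, h4⟩ := sg_bwd (N := N) hf hy (ε := -1) (Or.inr rfl)
      refine ⟨N.y (Λ.pr x), y', iv_y hf hx, h2, N.pr_y _, h3, ?_⟩
      rw [Λ'.symm, h4, Λ'.symm, h1]
      ring

/-- sign description of triples with a copy -/
theorem t_tc_iff (hf : ∀ v, M.f v = N.f v) {x y z : L} (hx : IV M x) (hy : IV M y)
    (hz : IV M z) :
    TC M N x y z ↔ ∃ a b c : ℝ, (a = 1 ∨ a = -1) ∧ (b = 1 ∨ b = -1) ∧ (c = 1 ∨ c = -1) ∧
      a * b * Λ'.b (N.y (Λ.pr x)) (N.y (Λ.pr y)) = Λ.b x y ∧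
      a * c * Λ'.b (N.y (Λ.pr x)) (N.y (Λ.pr z)) = Λ.b x z ∧
      b * c * Λ'.b (N.y (Λ.pr y)) (N.y (Λ.pr z)) = Λ.b y z := by
  constructor
  · rintro ⟨x', y', z', h1, h2, h3, h4, h5, h6, h7, h8, h9⟩
    obtain ⟨a, ha, ha'⟩ := sg_fwd hf hx h1 h4
    obtain ⟨b, hb, hb'⟩ := sg_fwd hf hy h2 h5
    obtain ⟨c, hc, hc'⟩ := sg_fwd hf hz h3 h6
    refine ⟨a, b, c, ha, hb, hc, ?_, ?_, ?_⟩
    · rw [← h7, ha', Λ'.symm _ y', hb', Λ'.symm (N.y (Λ.pr y))]; ring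
    · rw [← h8, ha', Λ'.symm _ z', hc', Λ'.symm (N.y (Λ.pr z))]; ring
    · rw [← h9, hb', Λ'.symm _ z', hc', Λ'.symm (N.y (Λ.pr z))]; ring
  · rintro ⟨a, b, c, ha, hb, hc, h7, h8, h9⟩
    obtain ⟨x', h1, h4, ha'⟩ := sg_bwd (N := N) hf hx ha
    obtain ⟨y', h2, h5, hb'⟩ := sg_bwd (N := N) hf hy hb
    obtain ⟨z', h3, h6, hc'⟩ := sg_bwd (N := N) hf hz hc
    refine ⟨x', y', z', h1, h2, h3, h4, h5, h6, ?_, ?_, ?_⟩
    · rw [← h7, ha', Λ'.symm _ y', hb', Λ'.symm (N.y (Λ.pr y))]; ring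
    · rw [← h8, ha', Λ'.symm _ z', hc', Λ'.symm (N.y (Λ.pr z))]; ring
    · rw [← h9, hb', Λ'.symm _ z', hc', Λ'.symm (N.y (Λ.pr z))]; ring

/-- sign description of families with a copy -/
theorem t_hasCopy_iff (hf : ∀ v, M.f v = N.f v) {ι : Type} {x : ι → L} (hx : ∀ i, IV M (x i))
    (S : Finset ι) : HasCopy M N x S ↔ ∃ ε : ι → ℝ, (∀ i, ε i = 1 ∨ ε i = -1) ∧
      ∀ i ∈ S, ∀ j ∈ S, ε i * ε j * Λ'.b (N.y (Λ.pr (x i))) (N.y (Λ.pr (x j))) =
        Λ.b (x i) (x j) := by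
  constructor
  · rintro ⟨y, h1, h2⟩
    have key : ∀ i, ∃ ε : ℝ, (ε = 1 ∨ ε = -1) ∧
        (i ∈ S → ∀ z, Λ'.b (y i) z = ε * Λ'.b (N.y (Λ.pr (x i))) z) := by
      intro i
      by_cases hi : i ∈ S
      · obtain ⟨ε, e1, e2⟩ := sg_fwd hf (hx i) (h1 i hi).1 (h1 i hi).2
        exact ⟨ε, e1, fun _ => e2⟩
      · exact ⟨1, Or.inl rfl, fun h => absurd h hi⟩
    choose ε e1 e2 using key
    refine ⟨ε, e1, fun i hi j hj => ?_⟩
    rw [← h2 i hi j hj, e2 i hi, Λ'.symm _ (y j), e2 j hj, Λ'.symm (N.y (Λ.pr (x j)))]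
    ring
  · rintro ⟨ε, e1, e2⟩
    have key : ∀ i, ∃ y : L', IV N y ∧ Λ'.pr y = Λ.pr (x i) ∧
        ∀ z, Λ'.b y z = ε i * Λ'.b (N.y (Λ.pr (x i))) z := fun i =>
      sg_bwd (N := N) hf (hx i) (e1 i)
    choose y h1 h2 h3 using key
    refine ⟨y, fun i _ => ⟨h1 i, h2 i⟩, fun i hi j hj => ?_⟩
    rw [← e2 i hi j hj, h3 i, Λ'.symm _ (y j), h3 j, Λ'.symm (N.y (Λ.pr (x j)))]
    ring

lemma tc_of_hasCopy {x y z : L} (h : HasCopy M N ![x, y, z] Finset.univ) : TC M N x y z := by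
  obtain ⟨u, h1, h2⟩ := h
  have g := fun i => h1 i (Finset.mem_univ i)
  have k := fun i j => h2 i (Finset.mem_univ i) j (Finset.mem_univ j)
  exact ⟨u 0, u 1, u 2, (g 0).1, (g 1).1, (g 2).1, (g 0).2, (g 1).2, (g 2).2, k 0 1, k 0 2, k 1 2⟩

lemma neg_case {w : ℝ} (hI : IsoLt M N w) {x y z : L} (hx : IV M x) (hy : IV M y) (hz : IV M z)
    (hneg : Λ.b x y * Λ.b x z * Λ.b y z < 0)
    (hw : 2 * (Λ.q x + Λ.q y + Λ.q z) - 2 * (|Λ.b x y| + |Λ.b x z| + |Λ.b y z|) < w) :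
    TC M N x y z := by
  apply tc_of_hasCopy
  have hiv : ∀ i ∈ (Finset.univ : Finset (Fin 3)), IV M (![x, y, z] i) := by
    intro i _
    fin_cases i
    · exact hx
    · exact hy
    · exact hz
  have main : ∀ s t : ℤ, (s = 1 ∨ s = -1) → (t = 1 ∨ t = -1) →
      Λ.q (x + s • y + t • z) = Λ.q x + Λ.q y + Λ.q z -
        2 * (|Λ.b x y| + |Λ.b x z| + |Λ.b y z|) → HasCopy M N ![x, y, z] Finset.univ := by
    intro s t hs ht hq
    refine k0 hI ![x, y, z] Finset.univ hiv ![1, s, t] ?_ ?_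
    · intro i
      fin_cases i
      · exact Or.inl rfl
      · exact hs
      · exact ht
    · rw [Fin.sum_univ_three, Fin.sum_univ_three]
      show Λ.q x + Λ.q y + Λ.q z + Λ.q ((1 : ℤ) • x + s • y + t • z) < w
      rw [one_smul, hq]
      linarith
  have n1 : Λ.b x y ≠ 0 := by
    intro h
    rw [h] at hneg
    simp at hneg
  have n2 : Λ.b x z ≠ 0 := by
    intro h
    rw [h] at hneg
    simp at hneg
  have q1 : ∀ u v : L, Λ.q (x + u + v) = Λ.q x + Λ.q u + Λ.q v + 2 * Λ.b x u + 2 * Λ.b x v +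
      2 * Λ.b u v := by
    intro u v
    rw [Λ.q_add, Λ.q_add, Λ.add_left]
    ring
  rcases lt_or_gt_of_ne n1 with a1 | a1 <;> rcases lt_or_gt_of_ne n2 with a2 | a2
  · have a3 : Λ.b y z < 0 := by
      by_contra hc
      push Not at hc
      have := mul_nonneg (mul_pos_of_neg_of_neg a1 a2).le hc
      linarith
    refine main 1 1 (Or.inl rfl) (Or.inl rfl) ?_
    rw [one_smul, one_smul, q1, abs_of_neg a1, abs_of_neg a2, abs_of_neg a3]
    ring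
  · have a3 : 0 < Λ.b y z := by
      by_contra hc
      push Not at hc
      have := mul_nonneg_of_nonpos_of_nonpos (mul_neg_of_neg_of_pos a1 a2).le hc
      linarith
    refine main 1 (-1) (Or.inl rfl) (Or.inr rfl) ?_
    rw [one_smul, neg_one_smul, q1, abs_of_neg a1, abs_of_pos a2, abs_of_pos a3, Λ.q_neg,
      Λ.neg_right, Λ.neg_right]
    ring
  · have a3 : 0 < Λ.b y z := by
      by_contra hc
      push Not at hc
      have := mul_nonneg_of_nonpos_of_nonpos (mul_neg_of_pos_of_neg a1 a2).le hc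
      linarith
    refine main (-1) 1 (Or.inr rfl) (Or.inl rfl) ?_
    rw [one_smul, neg_one_smul, q1, abs_of_pos a1, abs_of_neg a2, abs_of_pos a3, Λ.q_neg,
      Λ.neg_right, Λ.neg_left]
    ring
  · have a3 : Λ.b y z < 0 := by
      by_contra hc
      push Not at hc
      have := mul_nonneg (mul_pos a1 a2).le hc
      linarith
    refine main (-1) (-1) (Or.inr rfl) (Or.inr rfl) ?_
    rw [neg_one_smul, neg_one_smul, q1, abs_of_pos a1, abs_of_pos a2, abs_of_neg a3, Λ.q_neg,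
      Λ.q_neg, Λ.neg_right, Λ.neg_right, Λ.neg_left, Λ.neg_right]
    ring

/-- **T-lemma** -/
theorem t_t_lemma {w : ℝ} (hf : ∀ v, M.f v = N.f v) (hI : IsoLt M N w) (hJ : IsoLt N M w)
    {x y z : L} (hx : IV M x) (hy : IV M y) (hz : IV M z)
    (h1 : PC M N x y) (h2 : PC M N x z) (h3 : PC M N y z)
    (n1 : Λ.b x y ≠ 0) (n2 : Λ.b x z ≠ 0) (n3 : Λ.b y z ≠ 0)
    (hw : 2 * (Λ.q x + Λ.q y + Λ.q z) - 2 * (|Λ.b x y| + |Λ.b x z| + |Λ.b y z|) < w) :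
    TC M N x y z := by
  by_cases hneg : Λ.b x y * Λ.b x z * Λ.b y z < 0
  · exact neg_case hI hx hy hz hneg hw
  have b1 := (t_pc_iff hf hx hy).1 h1
  have b2 := (t_pc_iff hf hx hz).1 h2
  have b3 := (t_pc_iff hf hy hz).1 h3
  have hpos : 0 < Λ.b x y * Λ.b x z * Λ.b y z :=
    lt_of_le_of_ne (not_lt.1 hneg) (mul_ne_zero (mul_ne_zero n1 n2) n3).symm
  have hpx : Λ'.pr (N.y (Λ.pr x)) = Λ.pr x := N.pr_y _
  have hpy : Λ'.pr (N.y (Λ.pr y)) = Λ.pr y := N.pr_y _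
  have hpz : Λ'.pr (N.y (Λ.pr z)) = Λ.pr z := N.pr_y _
  have ivx : IV N (N.y (Λ.pr x)) := iv_y hf hx
  have ivy : IV N (N.y (Λ.pr y)) := iv_y hf hy
  have ivz : IV N (N.y (Λ.pr z)) := iv_y hf hz
  have qx : Λ'.q (N.y (Λ.pr x)) = Λ.q x := iv_q_eq hf hx ivx hpx
  have qy : Λ'.q (N.y (Λ.pr y)) = Λ.q y := iv_q_eq hf hy ivy hpy
  have qz : Λ'.q (N.y (Λ.pr z)) = Λ.q z := iv_q_eq hf hz ivz hpz
  set β1 := Λ'.b (N.y (Λ.pr x)) (N.y (Λ.pr y)) with hβ1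
  set β2 := Λ'.b (N.y (Λ.pr x)) (N.y (Λ.pr z)) with hβ2
  set β3 := Λ'.b (N.y (Λ.pr y)) (N.y (Λ.pr z)) with hβ3
  have m1 : β1 ≠ 0 := by
    intro h
    rw [h, abs_zero] at b1
    exact n1 (abs_eq_zero.1 b1.symm)
  have m2 : β2 ≠ 0 := by
    intro h
    rw [h, abs_zero] at b2
    exact n2 (abs_eq_zero.1 b2.symm)
  have m3 : β3 ≠ 0 := by
    intro h
    rw [h, abs_zero] at b3
    exact n3 (abs_eq_zero.1 b3.symm)
  have hβ : 0 < β1 * β2 * β3 := by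
    by_contra hc
    have hlt : β1 * β2 * β3 < 0 :=
      lt_of_le_of_ne (not_lt.1 hc) (mul_ne_zero (mul_ne_zero m1 m2) m3)
    obtain ⟨x', y', z', g1, g2, g3, g4, g5, g6, g7, g8, g9⟩ :=
      neg_case hJ ivx ivy ivz hlt (by
        rw [← hβ1, ← hβ2, ← hβ3, b1, b2, b3, qx, qy, qz]
        exact hw)
    rw [hpx] at g4
    rw [hpy] at g5
    rw [hpz] at g6
    have key : Λ.b x' y' * Λ.b x' z' * Λ.b y' z' = Λ.b x y * Λ.b x z * Λ.b y z := by
      rcases fact1 g1 hx g4 with e1 | e1 <;> rcases fact1 g2 hy g5 with e2 | e2 <;>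
        rcases fact1 g3 hz g6 with e3 | e3 <;> rw [e1, e2, e3] <;>
        simp only [Λ.neg_left, Λ.neg_right] <;> ring
    rw [g7, g8, g9, ← hβ1, ← hβ2, ← hβ3] at key
    linarith
  rw [t_tc_iff hf hx hy hz, ← hβ1, ← hβ2, ← hβ3]
  rcases abs_eq_abs.1 b1 with c1 | c1 <;> rcases abs_eq_abs.1 b2 with c2 | c2 <;>
    rcases abs_eq_abs.1 b3 with c3 | c3
  · exact ⟨1, 1, 1, Or.inl rfl, Or.inl rfl, Or.inl rfl, by rw [c1]; ring, by rw [c2]; ring,
      by rw [c3]; ring⟩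
  · exfalso
    rw [c1, c2, c3] at hβ
    nlinarith
  · exfalso
    rw [c1, c2, c3] at hβ
    nlinarith
  · exact ⟨1, 1, -1, Or.inl rfl, Or.inl rfl, Or.inr rfl, by rw [c1]; ring, by rw [c2]; ring,
      by rw [c3]; ring⟩
  · exfalso
    rw [c1, c2, c3] at hβ
    nlinarith
  · exact ⟨1, -1, 1, Or.inl rfl, Or.inr rfl, Or.inl rfl, by rw [c1]; ring, by rw [c2]; ring,
      by rw [c3]; ring⟩
  · exact ⟨1, -1, -1, Or.inl rfl, Or.inr rfl, Or.inr rfl, by rw [c1]; ring, by rw [c2]; ring,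
      by rw [c3]; ring⟩
  · exfalso
    rw [c1, c2, c3] at hβ
    nlinarith

end Pool.Agent.H744.VN.Signs

namespace Pool.Agent.H744.VN

section base

variable {L L' V : Type} [AddCommGroup L] [AddCommGroup L'] [AddCommGroup V] [Module (ZMod 2) V]
  {Λ : Lat L V} {Λ' : Lat L' V} {M : Λ.MinSys} {N : Λ'.MinSys}

/-- sign description of pairs with a copy -/
theorem pc_iff (hf : ∀ v, M.f v = N.f v) {x y : L} (hx : IV M x) (hy : IV M y) :
    PC M N x y ↔ |Λ'.b (N.y (Λ.pr x)) (N.y (Λ.pr y))| = |Λ.b x y| :=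
  Signs.t_pc_iff hf hx hy

/-- sign description of triples with a copy -/
theorem tc_iff (hf : ∀ v, M.f v = N.f v) {x y z : L} (hx : IV M x) (hy : IV M y) (hz : IV M z) :
    TC M N x y z ↔ ∃ a b c : ℝ, (a = 1 ∨ a = -1) ∧ (b = 1 ∨ b = -1) ∧ (c = 1 ∨ c = -1) ∧
      a * b * Λ'.b (N.y (Λ.pr x)) (N.y (Λ.pr y)) = Λ.b x y ∧
      a * c * Λ'.b (N.y (Λ.pr x)) (N.y (Λ.pr z)) = Λ.b x z ∧
      b * c * Λ'.b (N.y (Λ.pr y)) (N.y (Λ.pr z)) = Λ.b y z :=
  Signs.t_tc_iff hf hx hy hz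

/-- sign description of families with a copy -/
theorem hasCopy_iff (hf : ∀ v, M.f v = N.f v) {ι : Type} {x : ι → L} (hx : ∀ i, IV M (x i))
    (S : Finset ι) : HasCopy M N x S ↔ ∃ ε : ι → ℝ, (∀ i, ε i = 1 ∨ ε i = -1) ∧
      ∀ i ∈ S, ∀ j ∈ S, ε i * ε j * Λ'.b (N.y (Λ.pr (x i))) (N.y (Λ.pr (x j))) =
        Λ.b (x i) (x j) :=
  Signs.t_hasCopy_iff hf hx S

/-- **T-lemma** -/
theorem t_lemma {w : ℝ} (hf : ∀ v, M.f v = N.f v) (hI : IsoLt M N w) (hJ : IsoLt N M w)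
    {x y z : L} (hx : IV M x) (hy : IV M y) (hz : IV M z)
    (h1 : PC M N x y) (h2 : PC M N x z) (h3 : PC M N y z)
    (n1 : Λ.b x y ≠ 0) (n2 : Λ.b x z ≠ 0) (n3 : Λ.b y z ≠ 0)
    (hw : 2 * (Λ.q x + Λ.q y + Λ.q z) - 2 * (|Λ.b x y| + |Λ.b x z| + |Λ.b y z|) < w) :
    TC M N x y z :=
  Signs.t_t_lemma hf hI hJ hx hy hz h1 h2 h3 n1 n2 n3 hw

/-- **SPLIT**: transfer of a splitting `y = H + H'` of an irreducible minimal vector of `Λ'`. -/
theorem split {w : ℝ} (hf : ∀ v, M.f v = N.f v) (hJ : IsoLt N M w) {y H H' : L'} (hy : IV N y)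
    (hs : H + H' = y) (hw : Λ'.q y + Λ'.q H + Λ'.q H' < w) {x : L} (hx : IV M x)
    (hxy : Λ.pr x = Λ'.pr y) :
    ∃ G G' : L, G + G' = x ∧ Λ.pr G = Λ'.pr H ∧ Λ.pr G' = Λ'.pr H' ∧ Λ.q G = Λ'.q H ∧
      Λ.q G' = Λ'.q H' :=
  Split.t_split hf hJ hy hs hw hx hxy

theorem b_sum_left (Λ : Lat L V) {ι : Type} (s : Finset ι) (f : ι → L) (z : L) :
    Λ.b (∑ i ∈ s, f i) z = ∑ i ∈ s, Λ.b (f i) z := by
  classical
  induction s using Finset.induction_on with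
  | empty => simp [Λ.zero_left]
  | insert a s ha ih => rw [Finset.sum_insert ha, Finset.sum_insert ha, Λ.add_left, ih]

theorem b_sum_right (Λ : Lat L V) {ι : Type} (s : Finset ι) (f : ι → L) (z : L) :
    Λ.b z (∑ i ∈ s, f i) = ∑ i ∈ s, Λ.b z (f i) := by
  rw [Λ.symm, b_sum_left]
  exact Finset.sum_congr rfl fun i _ => Λ.symm _ _

theorem q_sum (Λ : Lat L V) {ι : Type} (s : Finset ι) (f : ι → L) :
    Λ.q (∑ i ∈ s, f i) = ∑ i ∈ s, ∑ j ∈ s, Λ.b (f i) (f j) := by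
  unfold Lat.q
  rw [b_sum_left]
  exact Finset.sum_congr rfl fun i _ => b_sum_right Λ s f _

variable {ι : Type} [Fintype ι] [DecidableEq ι] {w : ℝ} {x : ι → L}

/-- (a) deleting one vector from a minimal counterexample: still no copy -/
theorem bad_erase (hB : Bad M N w x) (v : ι) : ¬ HasCopy M N x (Finset.univ.erase v) := by
  intro h
  apply hB.nocopy
  obtain ⟨y, h1, h2⟩ := h
  set yv : L' := - ∑ i ∈ Finset.univ.erase v, y i with hyv
  have hsum : x v = - ∑ i ∈ Finset.univ.erase v, x i := by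
    have := hB.sum
    rw [← Finset.add_sum_erase _ _ (Finset.mem_univ v)] at this
    exact eq_neg_of_add_eq_zero_left this
  have hb : ∀ j ∈ Finset.univ.erase v, Λ'.b yv (y j) = Λ.b (x v) (x j) := by
    intro j hj
    rw [hyv, hsum, Λ'.neg_left, Λ.neg_left, b_sum_left, b_sum_left]
    congr 1
    exact Finset.sum_congr rfl fun i hi => h2 i hi j hj
  have hq : Λ'.q yv = Λ.q (x v) := by
    rw [hyv, hsum, Λ'.q_neg, Λ.q_neg, q_sum, q_sum]
    exact Finset.sum_congr rfl fun i hi => Finset.sum_congr rfl fun j hj => h2 i hi j hj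
  have hp : Λ'.pr yv = Λ.pr (x v) := by
    rw [hyv, hsum, map_neg, map_neg, map_sum, map_sum]
    congr 1
    exact Finset.sum_congr rfl fun i hi => (h1 i hi).2
  refine ⟨fun i => if i = v then yv else y i, ?_, ?_⟩
  · intro i _
    by_cases hi : i = v
    · subst hi
      simp only [if_true]
      exact ⟨iv_of hB.hf (hB.iv i) hp hq.le, hp⟩
    · simp only [hi, if_false]
      exact h1 i (Finset.mem_erase.2 ⟨hi, Finset.mem_univ _⟩)
  · intro i _ j _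
    by_cases hi : i = v <;> by_cases hj : j = v
    · subst hi; subst hj
      simp only [if_true]
      exact hq
    · subst hi
      simp only [if_true, hj, if_false]
      exact hb j (Finset.mem_erase.2 ⟨hj, Finset.mem_univ _⟩)
    · subst hj
      simp only [if_true, hi, if_false]
      rw [Λ'.symm, Λ.symm]
      exact hb i (Finset.mem_erase.2 ⟨hi, Finset.mem_univ _⟩)
    · simp only [hi, hj, if_false]
      exact h2 i (Finset.mem_erase.2 ⟨hi, Finset.mem_univ _⟩) j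
        (Finset.mem_erase.2 ⟨hj, Finset.mem_univ _⟩)

/-- (V) deleting a pair with negative inner product: there is a copy -/
theorem bad_V (hB : Bad M N w x) {p q : ι} (hpq : p ≠ q) (hn : Λ.b (x p) (x q) < 0) :
    HasCopy M N x ((Finset.univ.erase p).erase q) := by
  apply k0 hB.isoMN x _ (fun i _ => hB.iv i) (fun _ => 1) (fun _ => Or.inl rfl)
  have hq : q ∈ Finset.univ.erase p := Finset.mem_erase.2 ⟨hpq.symm, Finset.mem_univ _⟩
  have e1 : x p + (x q + ∑ i ∈ (Finset.univ.erase p).erase q, x i) = 0 := by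
    rw [Finset.add_sum_erase _ _ hq, Finset.add_sum_erase _ _ (Finset.mem_univ p), hB.sum]
  have e2 : Λ.q (x p) + (Λ.q (x q) + ∑ i ∈ (Finset.univ.erase p).erase q, Λ.q (x i)) = w := by
    rw [Finset.add_sum_erase _ (fun i => Λ.q (x i)) hq,
      Finset.add_sum_erase _ (fun i => Λ.q (x i)) (Finset.mem_univ p), hB.wt]
  have e3 : ∑ i ∈ (Finset.univ.erase p).erase q, x i = -(x p + x q) := by
    rw [← add_assoc] at e1
    exact (neg_eq_of_add_eq_zero_right e1).symm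
  simp only [one_smul]
  rw [e3, Λ.q_neg, Λ.q_add]
  linarith

/-- row sums -/
theorem bad_row (hB : Bad M N w x) (i : ι) : ∑ j, Λ.b (x i) (x j) = 0 := by
  rw [← b_sum_right, hB.sum, Λ.zero_right]

end base

/-! ## The main statements -/

/-- **S_NEG2 (ii').** -/
def S_NEG2 : Prop := ∀ (L L' V : Type) [AddCommGroup L] [AddCommGroup L'] [AddCommGroup V]
  [Module (ZMod 2) V] (Λ : Lat L V) (Λ' : Lat L' V) (M : Λ.MinSys) (N : Λ'.MinSys)
  (ι : Type) [Fintype ι] [DecidableEq ι] (w : ℝ) (x : ι → L), Bad M N w x →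
  ∀ i j : ι, i ≠ j → Λ.b (x i) (x j) < 0 → (∀ l, l ≠ j → PC M N (x j) (x l)) →
  ∃ l l' : ι, l ≠ l' ∧ l ≠ i ∧ l ≠ j ∧ l' ≠ i ∧ l' ≠ j ∧ Λ.b (x j) (x l) < 0 ∧
    Λ.b (x j) (x l') < 0

/-- **S_PAIR (b).** -/
def S_PAIR : Prop := ∀ (L L' V : Type) [AddCommGroup L] [AddCommGroup L'] [AddCommGroup V]
  [Module (ZMod 2) V] (Λ : Lat L V) (Λ' : Lat L' V) (M : Λ.MinSys) (N : Λ'.MinSys)
  (ι : Type) [Fintype ι] [DecidableEq ι] (w : ℝ) (x : ι → L), Bad M N w x →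
  4 ≤ Fintype.card ι → ∀ i j : ι, i ≠ j → PC M N (x i) (x j)

/-- **S_THREE (k = 3).** -/
def S_THREE : Prop := ∀ (L L' V : Type) [AddCommGroup L] [AddCommGroup L'] [AddCommGroup V]
  [Module (ZMod 2) V] (Λ : Lat L V) (Λ' : Lat L' V) (M : Λ.MinSys) (N : Λ'.MinSys)
  (w : ℝ), (∀ v, M.f v = N.f v) → IsoLt N M w → ∀ x₁ x₂ x₃ : L, IV M x₁ → IV M x₂ →
  IV M x₃ → x₁ + x₂ + x₃ = 0 → Λ.q x₁ + Λ.q x₂ + Λ.q x₃ = w → TC M N x₁ x₂ x₃

/-- **S_FOUR (k = 4).** -/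
def S_FOUR : Prop := ∀ (L L' V : Type) [AddCommGroup L] [AddCommGroup L'] [AddCommGroup V]
  [Module (ZMod 2) V] (Λ : Lat L V) (Λ' : Lat L' V) (M : Λ.MinSys) (N : Λ'.MinSys)
  (w : ℝ), (∀ v, M.f v = N.f v) → IsoLt M N w → IsoLt N M w → ∀ x₁ x₂ x₃ x₄ : L, IV M x₁ →
  IV M x₂ → IV M x₃ → IV M x₄ → x₁ + x₂ + x₃ + x₄ = 0 →
  Λ.q x₁ + Λ.q x₂ + Λ.q x₃ + Λ.q x₄ = w →
  Λ.b x₁ x₂ < 0 → Λ.b x₁ x₃ < 0 → Λ.b x₁ x₄ < 0 → Λ.b x₂ x₃ < 0 → Λ.b x₂ x₄ < 0 →
  Λ.b x₃ x₄ < 0 →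
  PC M N x₁ x₂ → PC M N x₁ x₃ → PC M N x₁ x₄ → PC M N x₂ x₃ → PC M N x₂ x₄ → PC M N x₃ x₄ →
  TC M N x₁ x₂ x₃ ∨ TC M N x₁ x₂ x₄ ∨ TC M N x₁ x₃ x₄ ∨ TC M N x₂ x₃ x₄

/-- balance of a subset (combinatorial) -/
def Bal {ι : Type} (α β : ι → ι → ℝ) (S : Finset ι) : Prop :=
  ∃ ε : ι → ℝ, (∀ i, ε i = 1 ∨ ε i = -1) ∧ ∀ i ∈ S, ∀ j ∈ S, ε i * ε j * β i j = α i j

/-- **S_COMB.** purely combinatorial lemma on signed graphs. -/
def S_COMB : Prop := ∀ (ι : Type) [Fintype ι] [DecidableEq ι] (α β : ι → ι → ℝ),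
  (∀ i j, α i j = α j i) → (∀ i j, β i j = β j i) → (∀ i, β i i = α i i) →
  (∀ i j, |β i j| = |α i j|) →
  (∀ p q, p ≠ q → α p q < 0 → Bal α β ((Finset.univ.erase p).erase q)) →
  (∀ v, ∃ a b c : ι, a ≠ v ∧ b ≠ v ∧ c ≠ v ∧ a ≠ b ∧ a ≠ c ∧ b ≠ c ∧
    α v a < 0 ∧ α v b < 0 ∧ α v c < 0) →
  5 ≤ Fintype.card ι → ∃ v, Bal α β (Finset.univ.erase v)

/-- **S_NOBAD**: there is no minimal counterexample. -/
def S_NOBAD : Prop := ∀ (L L' V : Type) [AddCommGroup L] [AddCommGroup L'] [AddCommGroup V]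
  [Module (ZMod 2) V] (Λ : Lat L V) (Λ' : Lat L' V) (M : Λ.MinSys) (N : Λ'.MinSys)
  (ι : Type) [Fintype ι] [DecidableEq ι] (w : ℝ) (x : ι → L), ¬ Bad M N w x

/-- **S_ISO**: all zero-sum families have copies. -/
def S_ISO : Prop := ∀ (L L' V : Type) [AddCommGroup L] [AddCommGroup L'] [AddCommGroup V]
  [Module (ZMod 2) V] [Finite V] (Λ : Lat L V) (Λ' : Lat L' V) (M : Λ.MinSys) (N : Λ'.MinSys),
  (∀ v, M.f v = N.f v) → ∀ w : ℝ, IsoLt M N w

/-- **S_FINAL**: isometry. -/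
def S_FINAL : Prop := ∀ (L L' V : Type) [AddCommGroup L] [AddCommGroup L'] [AddCommGroup V]
  [Module (ZMod 2) V] [Finite V] (Λ : Lat L V) (Λ' : Lat L' V) (M : Λ.MinSys) (N : Λ'.MinSys),
  (∀ v, M.f v = N.f v) → (∀ w : ℝ, IsoLt M N w) → ∃ e : L ≃+ L', ∀ z, Λ'.q (e z) = Λ.q z

/-- **S_REDUCE**: reduction of a counterexample to ISO to a minimal one (well-founded induction on
the weight). -/
def S_REDUCE : Prop := S_NOBAD → S_ISO

end Pool.Agent.H744.VN
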