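import Mathlib

/-!
# A combinatorial lemma on signed graphs
-/

set_option autoImplicit false

namespace Pool.Agent.H744.VN.Comb

/-- a signed graph -/
structure SG (ι : Type) where
  adj : ι → ι → Prop
  g : ι → ι → ℤˣ
  symm : ∀ {i j}, adj i j → adj j i
  gsymm : ∀ i j, g i j = g j i
  irr : ∀ i, ¬ adj i i

namespace SG

variable {ι : Type} (G : SG ι)

/-- signed walks -/
inductive SW : ι → ι → ℕ → ℤˣ → Prop
  | nil (u : ι) : SW u u 0 1
  | cons {u v w : ι} {n : ℕ} {s : ℤˣ} (h : G.adj u v) (t : SW v w n s) :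
      SW u w (n + 1) (G.g u v * s)

variable {G}

lemma sw_trans {u v w : ι} {n m : ℕ} {s t : ℤˣ} (h1 : G.SW u v n s) (h2 : G.SW v w m t) :
    G.SW u w (n + m) (s * t) := by
  induction h1 with
  | nil u => simpa using h2
  | cons h t ih =>
    have := SW.cons h (ih h2)
    rw [mul_assoc]
    convert this using 1
    omega

lemma sw_single {u v : ι} (h : G.adj u v) : G.SW u v 1 (G.g u v) := by
  have := SW.cons h (SW.nil v)
  rw [mul_one] at this
  exact this

lemma sw_symm {u v : ι} {n : ℕ} {s : ℤˣ} (h : G.SW u v n s) : G.SW v u n s := by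
  induction h with
  | nil u => exact SW.nil u
  | cons h t ih =>
    have := sw_trans ih (sw_single (G.symm h))
    rw [G.gsymm, mul_comm] at this
    exact this

/-- balance on a set -/
def Ba (G : SG ι) (S : Set ι) : Prop :=
  ∃ ε : ι → ℤˣ, ∀ i ∈ S, ∀ j ∈ S, G.adj i j → ε i * ε j * G.g i j = 1

lemma ba_univ_of (h : ∀ u n, ¬ G.SW u u n (-1)) : G.Ba Set.univ := by
  classical
  let r : Setoid ι :=
    { r := fun u v => ∃ n s, G.SW u v n s
      iseqv := ⟨fun u => ⟨0, 1, SW.nil u⟩, fun ⟨n, s, t⟩ => ⟨n, s, sw_symm t⟩,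
        fun ⟨n, s, t⟩ ⟨n', s', t'⟩ => ⟨_, _, sw_trans t t'⟩⟩ }
  let rep : ι → ι := fun u => (Quotient.mk r u).out
  have hrep : ∀ u, ∃ s : ℤˣ, ∃ n, G.SW (rep u) u n s := by
    intro u
    obtain ⟨n, s, t⟩ := Quotient.mk_out (s := r) u
    exact ⟨s, n, t⟩
  choose ε hε using hrep
  refine ⟨ε, ?_⟩
  intro i _ j _ hij
  have hr : rep i = rep j := by
    show (Quotient.mk r i).out = (Quotient.mk r j).out
    have : Quotient.mk r i = Quotient.mk r j := Quotient.sound ⟨1, _, sw_single hij⟩
    rw [this]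
  obtain ⟨n, t1⟩ := hε i
  obtain ⟨m, t2⟩ := hε j
  rw [← hr] at t2
  have t3 := sw_trans (sw_trans t1 (sw_single hij)) (sw_symm t2)
  rcases Int.units_eq_one_or (ε i * G.g i j * ε j) with h1 | h1
  · rw [← h1, mul_right_comm]
  · rw [h1] at t3
    exact absurd t3 (h _ _)

lemma sw_fun {u v : ι} {n : ℕ} {s : ℤˣ} (h : G.SW u v n s) :
    ∃ c : ℕ → ι, c 0 = u ∧ c n = v ∧ (∀ i < n, G.adj (c i) (c (i + 1))) ∧
      ∏ i ∈ Finset.range n, G.g (c i) (c (i + 1)) = s := by
  induction h with
  | nil u => exact ⟨fun _ => u, rfl, rfl, fun i hi => absurd hi (Nat.not_lt_zero _), by simp⟩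
  | @cons u v w n s h t ih =>
    obtain ⟨c, h0, h1, h2, h3⟩ := ih
    refine ⟨fun i => if i = 0 then u else c (i - 1), by simp, by simp [h1], ?_, ?_⟩
    · intro i hi
      by_cases h0' : i = 0
      · subst h0'
        simp [h0, h]
      · obtain ⟨k, rfl⟩ := Nat.exists_eq_succ_of_ne_zero h0'
        simpa using h2 k (by omega)
    · rw [Finset.prod_range_succ']
      simp [h0, h3, mul_comm]

/-- A minimal unbalanced cycle (periodic indexing) -/
structure MC (G : SG ι) (m : ℕ) where
  c : ℕ → ι
  Γ : ℕ → ℤˣ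
  per : ∀ i, c (i + m) = c i
  nper : ∀ i, Γ (i + m) = - Γ i
  adj : ∀ i, G.adj (c i) (c (i + 1))
  step : ∀ i, Γ (i + 1) = Γ i * G.g (c i) (c (i + 1))
  min : ∀ u n, n < m → ¬ G.SW u u n (-1)

lemma exists_MC (h : ¬ G.Ba Set.univ) : ∃ m, Nonempty (MC G m) := by
  classical
  have h1 : ∃ n, ∃ u, G.SW u u n (-1) := by
    by_contra hcon
    push Not at hcon
    exact h (ba_univ_of fun u n => hcon n u)
  obtain ⟨u, hu⟩ := Nat.find_spec h1
  set m := Nat.find h1 with hm
  have hmin : ∀ u n, n < m → ¬ G.SW u u n (-1) := by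
    intro u n hn hw
    exact Nat.find_min h1 hn ⟨u, hw⟩
  obtain ⟨c, c0, cm, cadj, cprod⟩ := sw_fun hu
  have hm0 : 0 < m := by
    rcases Nat.eq_zero_or_pos m with h0 | h0
    · rw [h0] at cprod
      simp at cprod
    · exact h0
  let C : ℕ → ι := fun i => c (i % m)
  have hC : ∀ i, C (i + m) = C i := fun i => by simp [C]
  have hCs : ∀ i, G.adj (C i) (C (i + 1)) ∧ C (i + 1) = c (i % m + 1) := by
    intro i
    have hlt := Nat.mod_lt i hm0
    have e : C (i + 1) = c (i % m + 1) := by
      show c ((i + 1) % m) = _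
      rcases Nat.lt_or_ge (i % m + 1) m with h2 | h2
      · congr 1
        rw [Nat.add_mod, Nat.mod_eq_of_lt (show 1 < m by omega), Nat.mod_eq_of_lt h2]
      · have h3 : i % m + 1 = m := by omega
        rw [h3, cm, ← c0]
        congr 1
        rcases Nat.eq_or_lt_of_le (show 1 ≤ m from hm0) with h4 | h4
        · rw [← h4, Nat.mod_one]
        · rw [Nat.add_mod, Nat.mod_eq_of_lt h4, h3, Nat.mod_self]
    refine ⟨?_, e⟩
    rw [e]
    exact cadj _ hlt
  let Γ : ℕ → ℤˣ := fun i => ∏ t ∈ Finset.range i, G.g (C t) (C (t + 1))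
  have hstep : ∀ i, Γ (i + 1) = Γ i * G.g (C i) (C (i + 1)) := fun i => by
    simp only [Γ]
    rw [Finset.prod_range_succ]
  have hΓm : Γ m = -1 := by
    rw [← cprod]
    apply Finset.prod_congr rfl
    intro i hi
    rw [Finset.mem_range] at hi
    rw [(hCs i).2]
    simp only [C]
    rw [Nat.mod_eq_of_lt hi]
  refine ⟨m, ⟨⟨C, Γ, hC, ?_, fun i => (hCs i).1, hstep, hmin⟩⟩⟩
  intro i
  induction i with
  | zero => rw [zero_add, hΓm]; simp [Γ]
  | succ i ih =>
    have e1 : i + 1 + m = (i + m) + 1 := by omega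
    have e2 : i + m + 1 = (i + 1) + m := by omega
    rw [e1, hstep, hstep, ih, e2, hC, hC, neg_mul]

section mc

variable {m : ℕ} (K : MC G m)
include K

lemma seg (i k : ℕ) : G.SW (K.c i) (K.c (i + k)) k (K.Γ i * K.Γ (i + k)) := by
  induction k with
  | zero => simpa using SW.nil (K.c i)
  | succ k ih =>
    have := sw_trans ih (sw_single (K.adj (i + k)))
    rw [← add_assoc, K.step]
    convert this using 1
    rw [mul_assoc]

lemma seg' {i j : ℕ} (h : i ≤ j) : G.SW (K.c i) (K.c j) (j - i) (K.Γ i * K.Γ j) := by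
  have := seg K i (j - i)
  rwa [Nat.add_sub_cancel' h] at this

lemma closed_one {u : ι} {n : ℕ} {s : ℤˣ} (h : G.SW u u n s) (hn : n < m) : s = 1 := by
  rcases Int.units_eq_one_or s with h1 | h1
  · exact h1
  · rw [h1] at h
    exact absurd h (K.min _ _ hn)

lemma m_ge : 3 ≤ m := by
  by_contra hcon
  have h0 := K.nper 0
  have hs0 := K.step 0
  have hs1 := K.step 1
  have hp := K.per 0
  have ha := K.adj 0
  interval_cases m
  · simp at h0
  · simp only [zero_add] at hp ha
    rw [hp] at ha
    exact G.irr _ ha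
  · simp only [zero_add] at hp h0 hs0
    rw [show (1 : ℕ) + 1 = 2 from rfl, hp, hs0, G.gsymm (K.c 1), mul_assoc, Int.units_mul_self,
      mul_one] at hs1
    rw [hs1] at h0
    rcases Int.units_eq_one_or (K.Γ 0) with h | h
    · rw [h] at h0; exact absurd h0 (by decide)
    · rw [h] at h0; exact absurd h0 (by decide)

lemma ne_neg (s : ℤˣ) : s ≠ -s := by
  rcases Int.units_eq_one_or s with h | h <;> rw [h] <;> decide

lemma inj {i j : ℕ} (hij : i < j) (hj : j < i + m) : K.c i ≠ K.c j := by
  intro h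
  have h1 := seg' K hij.le
  rw [← h] at h1
  have e1 := closed_one K h1 (by omega)
  have h2 := seg' K hj.le
  rw [K.per, ← h, K.nper] at h2
  have e2 := closed_one K h2 (by omega)
  have h3 : K.Γ j = K.Γ i := by
    have := congrArg (fun t => K.Γ i * t) e1
    simp only [← mul_assoc, Int.units_mul_self, one_mul, mul_one] at this
    exact this
  rw [h3, mul_neg, Int.units_mul_self] at e2
  exact absurd e2 (by decide)

/-- chordless -/
lemma chord {i j : ℕ} (hij : i < j) (hj : j < i + m) (ha : G.adj (K.c i) (K.c j)) :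
    j = i + 1 ∨ j + 1 = i + m := by
  by_contra hcon
  push Not at hcon
  have h1 := sw_trans (seg' K hij.le) (sw_single (G.symm ha))
  have e1 := closed_one K h1 (by omega)
  have h2 := seg' K hj.le
  rw [K.per, K.nper] at h2
  have h3 := sw_trans h2 (sw_single ha)
  have e2 := closed_one K h3 (by omega)
  rw [G.gsymm] at e1
  have : K.Γ j * -K.Γ i * G.g (K.c i) (K.c j) = -(K.Γ i * K.Γ j * G.g (K.c i) (K.c j)) := by
    rw [mul_neg, neg_mul, mul_comm (K.Γ j)]
  rw [this, e1] at e2
  exact absurd e2 (by decide)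

/-- the gauge of `p` seen from position `i` -/
def hh (p : ι) (i : ℕ) : ℤˣ := G.g p (K.c i) * K.Γ i

lemma hh_per (p : ι) (i : ℕ) : hh K p (i + m) = - hh K p i := by
  unfold hh
  rw [K.per, K.nper, mul_neg]

lemma units_eq {s t : ℤˣ} (h : s * t = 1) : s = t := by
  have := congrArg (fun u => u * t) h
  simp only [mul_assoc, Int.units_mul_self, mul_one, one_mul] at this
  exact this

lemma loop {p : ι} {i j : ℕ} (hij : i ≤ j) (hi : G.adj p (K.c i)) (hj : G.adj p (K.c j))
    (hl : j - i + 2 < m) : hh K p i = hh K p j := by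
  have h1 := sw_trans (sw_trans (sw_single hi) (seg' K hij)) (sw_single (G.symm hj))
  have e1 := closed_one K h1 (by omega)
  apply units_eq K
  unfold hh
  rw [← e1, G.gsymm (K.c j)]
  ac_rfl

lemma three {p : ι} {i j k : ℕ} (hij : i < j) (hjk : j < k) (hk : k < i + m)
    (hi : G.adj p (K.c i)) (hj : G.adj p (K.c j)) (hk' : G.adj p (K.c k)) :
    (j + 2 = i + m ∧ k + 1 = i + m) ∨ (j = i + 1 ∧ k + 1 = i + m) ∨ (j = i + 1 ∧ k = i + 2) := by
  by_contra hcon
  have hm := m_ge K
  have h1 := loop K hij.le hi hj (by omega)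
  have h2 := loop K hjk.le hj hk' (by omega)
  have h3 := loop K hk.le hk' (by rw [K.per]; exact hi) (by omega)
  rw [hh_per, ← h2, ← h1] at h3
  exact ne_neg K _ h3

/-- any three neighbours of `p` on the cycle are consecutive -/
lemma three' {p : ι} {i j k : ℕ} (hij : i < j) (hjk : j < k) (hk : k < i + m)
    (hi : G.adj p (K.c i)) (hj : G.adj p (K.c j)) (hk' : G.adj p (K.c k)) :
    ∃ a, ({K.c i, K.c j, K.c k} : Set ι) = {K.c a, K.c (a + 1), K.c (a + 2)} := by
  have hp : K.c (i + m) = K.c i := K.per i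
  rcases three K hij hjk hk hi hj hk' with ⟨h1, h2⟩ | ⟨h1, h2⟩ | ⟨h1, h2⟩
  · refine ⟨j, ?_⟩
    have e1 : j + 1 = k := by omega
    have e2 : j + 2 = i + m := by omega
    rw [e1, e2, hp]
    ext t; simp only [Set.mem_insert_iff, Set.mem_singleton_iff]; tauto
  · refine ⟨k, ?_⟩
    have e1 : k + 1 = i + m := by omega
    have e2 : k + 2 = j + m := by omega
    rw [e1, e2, hp, K.per]
    ext t; simp only [Set.mem_insert_iff, Set.mem_singleton_iff]; tauto
  · refine ⟨i, ?_⟩
    rw [h1, h2]

end mc


section main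

variable {m : ℕ} (K : MC G m)
include K

lemma per_mul (k u : ℕ) : K.c (u + k * m) = K.c u := by
  induction k with
  | zero => simp
  | succ k ih => rw [Nat.succ_mul, ← add_assoc, K.per, ih]

/-- shifting an index into a window -/
lemma shift (u s : ℕ) : ∃ t, s ≤ t ∧ t < s + m ∧ ∀ k, K.c (t + k) = K.c (u + k) := by
  have hm := m_ge K
  set T := u + s * m with hT
  have hTs : s ≤ T := by nlinarith
  refine ⟨s + (T - s) % m, by omega, ?_, ?_⟩
  · have := Nat.mod_lt (T - s) (show 0 < m by omega)
    omega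
  · intro k
    have e : s + (T - s) % m + (T - s) / m * m = T := by
      have := Nat.mod_add_div (T - s) m
      rw [mul_comm] at this
      omega
    have e' : s + (T - s) % m + k + (T - s) / m * m = u + k + s * m := by
      omega
    rw [← per_mul K ((T - s) / m), e', per_mul]

/-- membership on the cycle, normalised to a window -/
lemma window {v : ι} (hv : ∃ t, K.c t = v) (s : ℕ) : ∃ t, s ≤ t ∧ t < s + m ∧ K.c t = v := by
  obtain ⟨u, rfl⟩ := hv
  obtain ⟨t, h1, h2, h3⟩ := shift K u s
  exact ⟨t, h1, h2, by simpa using h3 0⟩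

lemma gauge_const {ε : ι → ℤˣ} {i k : ℕ}
    (h : ∀ t, i ≤ t → t < i + k → ε (K.c t) * ε (K.c (t + 1)) * G.g (K.c t) (K.c (t + 1)) = 1) :
    ε (K.c (i + k)) * K.Γ (i + k) = ε (K.c i) * K.Γ i := by
  induction k with
  | zero => simp
  | succ k ih =>
    have ih' := ih (fun t h1 h2 => h t h1 (by omega))
    rw [← ih']
    have := h (i + k) (by omega) (by omega)
    rw [← add_assoc, K.step]
    have e1 : ε (K.c (i + k)) = ε (K.c (i + k + 1)) * G.g (K.c (i + k)) (K.c (i + k + 1)) := by
      apply units_eq K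
      rw [← mul_assoc]; exact this
    rw [e1]
    ac_rfl

/-- the cycle is not contained in a balanced set -/
lemma not_ba {S : Set ι} (hS : G.Ba S) (hQ : ∀ t, K.c t ∈ S) : False := by
  obtain ⟨ε, hε⟩ := hS
  have := gauge_const K (ε := ε) (i := 0) (k := m)
    (fun t _ _ => hε _ (hQ _) _ (hQ _) (K.adj t))
  rw [K.per, K.nper] at this
  rw [mul_neg] at this
  exact ne_neg K _ this.symm

end main

/-- the main combinatorial lemma -/
theorem main [Fintype ι] (neg : ι → ι → Prop) (hneg : ∀ i j, neg i j → G.adj i j)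
    (nsymm : ∀ i j, neg i j → neg j i)
    (hV : ∀ p q, neg p q → G.Ba {i | i ≠ p ∧ i ≠ q})
    (hN : ∀ v, ∃ a b c : ι, a ≠ b ∧ a ≠ c ∧ b ≠ c ∧ neg v a ∧ neg v b ∧ neg v c)
    (hc : 5 ≤ Fintype.card ι) : ∃ v, G.Ba {i | i ≠ v} := by
  classical
  by_contra hcon
  push Not at hcon
  have hunb : ¬ G.Ba Set.univ := by
    intro ⟨ε, hε⟩
    obtain ⟨v⟩ : Nonempty ι := Fintype.card_pos_iff.1 (by omega)
    exact hcon v ⟨ε, fun i _ j _ => hε i (Set.mem_univ _) j (Set.mem_univ _)⟩
  obtain ⟨m, ⟨K⟩⟩ := exists_MC hunb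
  have hm := m_ge K
  set Q : Set ι := Set.range K.c with hQ
  -- no negative pair outside Q
  have hP : ∀ p p', p ∉ Q → p' ∉ Q → ¬ neg p p' := by
    intro p p' hp hp' hn
    apply not_ba K (hV p p' hn)
    intro t
    exact ⟨fun h => hp ⟨t, h⟩, fun h => hp' ⟨t, h⟩⟩
  -- the three negative neighbours of `p` outside Q
  have hthree : ∀ p, p ∉ Q → ∃ a, neg p (K.c a) ∧ neg p (K.c (a + 1)) ∧ neg p (K.c (a + 2)) := by
    intro p hp
    obtain ⟨x, y, z, hxy, hxz, hyz, nx, ny, nz⟩ := hN p
    have hin : ∀ v, neg p v → v ∈ Q := by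
      intro v hv
      by_contra hv'
      exact hP p v hp hv' hv
    obtain ⟨i, hi1, hi2, rfl⟩ := window K (hin x nx) 0
    obtain ⟨j, hj1, hj2, rfl⟩ := window K (hin y ny) 0
    obtain ⟨k, hk1, hk2, rfl⟩ := window K (hin z nz) 0
    have hij : i ≠ j := fun h => hxy (by rw [h])
    have hik : i ≠ k := fun h => hxz (by rw [h])
    have hjk : j ≠ k := fun h => hyz (by rw [h])
    have fin : ∀ i j k : ℕ, i < j → j < k → k < i + m → neg p (K.c i) → neg p (K.c j) →
        neg p (K.c k) → ∃ a, neg p (K.c a) ∧ neg p (K.c (a + 1)) ∧ neg p (K.c (a + 2)) := by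
      intro i j k h1 h2 h3 n1 n2 n3
      obtain ⟨a, ha⟩ := three' K h1 h2 h3 (hneg _ _ n1) (hneg _ _ n2) (hneg _ _ n3)
      have hall : ∀ v ∈ ({K.c i, K.c j, K.c k} : Set ι), neg p v := by
        intro v hv
        simp only [Set.mem_insert_iff, Set.mem_singleton_iff] at hv
        rcases hv with rfl | rfl | rfl
        · exact n1
        · exact n2
        · exact n3
      refine ⟨a, hall _ ?_, hall _ ?_, hall _ ?_⟩
      · rw [ha]; simp
      · rw [ha]; simp
      · rw [ha]; simp
    rcases lt_or_gt_of_ne hij with h1 | h1 <;> rcases lt_or_gt_of_ne hik with h2 | h2 <;>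
      rcases lt_or_gt_of_ne hjk with h3 | h3
    · exact fin i j k h1 h3 (by omega) nx ny nz
    · exact fin i k j h2 h3 (by omega) nx nz ny
    · omega
    · exact fin k i j h2 h1 (by omega) nz nx ny
    · exact fin j i k h1 h2 (by omega) ny nx nz
    · omega
    · exact fin j k i h3 h2 (by omega) ny nz nx
    · exact fin k j i h3 h1 (by omega) nz ny nx
  -- P nonempty
  have hPne : ∃ p, p ∉ Q := by
    by_contra hall
    push Not at hall
    obtain ⟨x, y, z, hxy, hxz, hyz, nx, ny, nz⟩ := hN (K.c 1)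
    have key : ∀ v, neg (K.c 1) v → v = K.c 0 ∨ v = K.c 2 := by
      intro v hv
      have ha := hneg _ _ hv
      obtain ⟨t, ht1, ht2, rfl⟩ := window K (hall v) 1
      rcases Nat.eq_or_lt_of_le ht1 with h | h
      · rw [← h] at ha; exact absurd ha (G.irr _)
      · rcases chord K h ht2 ha with h' | h'
        · right; rw [h']
        · left
          have : t = 0 + m := by omega
          rw [this, K.per]
    rcases key x nx with hx | hx <;> rcases key y ny with hy | hy <;>
      rcases key z nz with hz | hz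
    · exact hxy (hx.trans hy.symm)
    · exact hxy (hx.trans hy.symm)
    · exact hxz (hx.trans hz.symm)
    · exact hyz (hy.trans hz.symm)
    · exact hyz (hy.trans hz.symm)
    · exact hxz (hx.trans hz.symm)
    · exact hxy (hx.trans hy.symm)
    · exact hxy (hx.trans hy.symm)
  rcases Nat.eq_or_lt_of_le hm with hm3 | hm4
  · -- m = 3
    subst hm3
    obtain ⟨p, hp⟩ := hPne
    -- a second vertex outside Q
    obtain ⟨p', hp', hpp⟩ : ∃ p', p' ∉ Q ∧ p' ≠ p := by
      by_contra hall
      push Not at hall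
      have : Fintype.card ι ≤ 4 := by
        have h4 : (Finset.univ : Finset ι) ⊆ {K.c 0, K.c 1, K.c 2, p} := by
          intro v _
          by_cases hv : v ∈ Q
          · obtain ⟨t, ht1, ht2, rfl⟩ := window K hv 0
            have : t = 0 ∨ t = 1 ∨ t = 2 := by omega
            rcases this with rfl | rfl | rfl <;> simp
          · rw [hall v hv]; simp
        calc Fintype.card ι = (Finset.univ : Finset ι).card := rfl
          _ ≤ _ := Finset.card_le_card h4
          _ ≤ 4 := Finset.card_le_four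
      omega
    have full : ∀ r, r ∉ Q → ∀ t, neg r (K.c t) := by
      intro r hr t
      obtain ⟨a, n0, n1, n2⟩ := hthree r hr
      obtain ⟨s, hs1, hs2, hs3⟩ := window K ⟨t, rfl⟩ a
      rw [← hs3]
      have : s = a ∨ s = a + 1 ∨ s = a + 2 := by omega
      rcases this with rfl | rfl | rfl
      · exact n0
      · exact n1
      · exact n2
    -- some triangle at p unbalanced
    have hex : ∃ i, hh K p i ≠ hh K p (i + 1) := by
      by_contra hall
      push Not at hall
      have h1 := hh_per K p 0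
      rw [hall 0, hall 1, hall 2] at h1
      exact ne_neg K _ h1
    obtain ⟨i, hi⟩ := hex
    have hn := full p' hp' (i + 2)
    obtain ⟨ε, hε⟩ := hV _ _ hn
    have mem1 : ∀ t, K.c t ≠ K.c (i + 2) → K.c t ∈ {v | v ≠ p' ∧ v ≠ K.c (i + 2)} := by
      intro t ht
      exact ⟨fun h => hp' ⟨t, h⟩, ht⟩
    have memp : p ∈ {v | v ≠ p' ∧ v ≠ K.c (i + 2)} :=
      ⟨fun h => hpp h.symm, fun h => hp ⟨_, h.symm⟩⟩
    have mi := mem1 i (inj K (by omega) (by omega))
    have mi1 := mem1 (i + 1) (inj K (by omega) (by omega))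
    have a0 := hε _ memp _ mi (hneg _ _ (full p hp i))
    have a1 := hε _ memp _ mi1 (hneg _ _ (full p hp (i + 1)))
    have a2 := hε _ mi _ mi1 (K.adj i)
    apply hi
    unfold hh
    rw [K.step]
    have e0 : G.g p (K.c i) = ε p * ε (K.c i) := (units_eq K a0).symm
    have e1 : G.g p (K.c (i + 1)) = ε p * ε (K.c (i + 1)) := (units_eq K a1).symm
    have e2 : G.g (K.c i) (K.c (i + 1)) = ε (K.c i) * ε (K.c (i + 1)) := (units_eq K a2).symm
    rw [e0, e1, e2]
    calc ε p * ε (K.c i) * K.Γ i = (ε (K.c (i + 1)) * ε (K.c (i + 1))) * (ε p * ε (K.c i) * K.Γ i) := by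
          rw [Int.units_mul_self, one_mul]
      _ = _ := by ac_rfl
  · -- m ≥ 4
    have hnb : ∀ p, p ∉ Q → ∃ a, neg p (K.c a) ∧ neg p (K.c (a + 1)) ∧ neg p (K.c (a + 2)) ∧
        (hh K p a = hh K p (a + 1)) ∧ (hh K p (a + 1) = hh K p (a + 2)) ∧
        ∀ k, k < m → G.adj p (K.c (a + k)) → k ≤ 2 := by
      intro p hp
      obtain ⟨a, n0, n1, n2⟩ := hthree p hp
      have b0 := hneg _ _ n0
      have b1 := hneg _ _ n1
      have b2 := hneg _ _ n2
      have h01 := loop K (show a ≤ a + 1 by omega) b0 b1 (by omega)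
      have h12 := loop K (show a + 1 ≤ a + 2 by omega) b1 b2 (by omega)
      refine ⟨a, n0, n1, n2, h01, h12, ?_⟩
      intro k hk hadj
      obtain ⟨t, ht⟩ : ∃ t, t = a + k := ⟨_, rfl⟩
      rw [← ht] at hadj
      have ht1 : a ≤ t := by omega
      have ht2 : t < a + m := by omega
      suffices t ≤ a + 2 by omega
      by_contra hgt
      push Not at hgt
      have hA := three K (show a < a + 1 by omega) (show a + 1 < t by omega) ht2 b0 b1 hadj
      have hB := three K (show a + 1 < a + 2 by omega) hgt (by omega) b1 b2 hadj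
      have hm' : m = 4 ∧ t = a + 3 := by omega
      obtain ⟨hm'', hta⟩ := hm'
      subst hm''
      rw [hta] at hadj
      have h23 := loop K (show a + 2 ≤ a + 3 by omega) b2 hadj (by omega)
      have h34 := loop K (show a + 3 ≤ a + 4 by omega) hadj (by rw [K.per]; exact b0) (by omega)
      rw [hh_per, ← h23, ← h12, ← h01] at h34
      exact ne_neg K _ h34
    choose! A n0 n1 n2 h01 h12 hnbr using hnb
    -- p' is not adjacent to q(p)
    have hq : ∀ p p', p ∉ Q → p' ∉ Q → p ≠ p' → ¬ G.adj p' (K.c (A p + 1)) := by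
      intro p p' hp hp' hpp hadj
      -- K.c (A p + 1) is then a negative neighbour of p'
      have hneg' : neg p' (K.c (A p + 1)) := by
        obtain ⟨t, ht1, ht2, ht3⟩ := window K ⟨A p + 1, rfl⟩ (A p')
        rw [← ht3] at hadj ⊢
        obtain ⟨k, rfl⟩ := Nat.exists_eq_add_of_le ht1
        have := hnbr p' hp' k (by omega) hadj
        have ht : k = 0 ∨ k = 1 ∨ k = 2 := by omega
        rcases ht with rfl | rfl | rfl
        · exact n0 p' hp'
        · exact n1 p' hp'
        · exact n2 p' hp'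
      obtain ⟨ε, hε⟩ := hV _ _ hneg'
      set a := A p with ha
      have memt : ∀ t, a + 1 < t → t < a + 1 + m → K.c t ∈ {v | v ≠ p' ∧ v ≠ K.c (a + 1)} := by
        intro t h1 h2
        exact ⟨fun h => hp' ⟨t, h⟩, fun h => inj K h1 h2 h.symm⟩
      have memp : p ∈ {v | v ≠ p' ∧ v ≠ K.c (a + 1)} := ⟨hpp, fun h => hp ⟨_, h.symm⟩⟩
      have hconst := gauge_const K (ε := ε) (i := a + 2) (k := m - 2) (by
        intro t h1 h2
        exact hε _ (memt t (by omega) (by omega)) _ (memt (t + 1) (by omega) (by omega)) (K.adj t))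
      have e1 : a + 2 + (m - 2) = a + m := by omega
      rw [e1, K.per, K.nper] at hconst
      have m2 := memt (a + 2) (by omega) (by omega)
      have m0 : K.c a ∈ {v | v ≠ p' ∧ v ≠ K.c (a + 1)} := by
        have := memt (a + m) (by omega) (by omega)
        rwa [K.per] at this
      have u2 := hε _ memp _ m2 (hneg _ _ (n2 p hp))
      have u0 := hε _ memp _ m0 (hneg _ _ (n0 p hp))
      have g2 : G.g p (K.c (a + 2)) = ε p * ε (K.c (a + 2)) := (units_eq K u2).symm
      have g0 : G.g p (K.c a) = ε p * ε (K.c a) := (units_eq K u0).symm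
      have h02 : hh K p a = hh K p (a + 2) := (h01 p hp).trans (h12 p hp)
      unfold hh at h02
      rw [g2, g0, mul_assoc, mul_assoc] at h02
      have h03 := mul_left_cancel h02
      rw [← hconst, mul_neg] at h03
      exact ne_neg K _ h03
    -- P is independent
    have hind : ∀ p p', p ∉ Q → p' ∉ Q → p ≠ p' → ¬ G.adj p p' := by
      intro p p' hp hp' hpp hadj
      set a := A p with ha
      obtain ⟨b, hb1, hb2, hb3⟩ := shift K (A p') (a + 1)
      have c0 : G.adj p' (K.c b) := by
        have := hb3 0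
        simp only [add_zero] at this
        rw [this]; exact hneg _ _ (n0 p' hp')
      have c1 : G.adj p' (K.c (b + 1)) := by rw [hb3 1]; exact hneg _ _ (n1 p' hp')
      have c2 : G.adj p' (K.c (b + 2)) := by rw [hb3 2]; exact hneg _ _ (n2 p' hp')
      have hnq := hq p p' hp hp' hpp
      rw [← ha] at hnq
      have b1 : b ≠ a + 1 := by rintro rfl; exact hnq c0
      have b2 : b + 1 ≠ a + 1 + m := by
        intro h; rw [h, K.per] at c1; exact hnq c1
      have b3 : b + 2 ≠ a + 1 + m := by
        intro h; rw [h, K.per] at c2; exact hnq c2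
      have l01 := loop K (show b ≤ b + 1 by omega) c0 c1 (by omega)
      have l12 := loop K (show b + 1 ≤ b + 2 by omega) c1 c2 (by omega)
      have pa2 := hneg _ _ (n2 p hp)
      have pa0 := hneg _ _ (n0 p hp)
      have w1 := sw_trans (sw_trans (sw_trans (sw_single (G.symm hadj)) (sw_single pa2))
        (seg' K (show A p + 2 ≤ b by omega))) (sw_single (G.symm c0))
      have e1 := closed_one K w1 (by omega)
      have pa0' : G.adj (K.c (A p + m)) p := by rw [K.per]; exact G.symm pa0
      have w2 := sw_trans (sw_trans (sw_trans (sw_single c2)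
        (seg' K (show b + 2 ≤ A p + m by omega))) (sw_single pa0')) (sw_single hadj)
      have e2 := closed_one K w2 (by omega)
      have f1 : G.g p p' * hh K p (A p + 2) * hh K p' b = 1 := by
        rw [← e1]
        unfold hh
        rw [G.gsymm p p', G.gsymm (K.c b) p']
        ac_rfl
      have f2 : G.g p p' * -hh K p (A p) * hh K p' (b + 2) = 1 := by
        rw [← e2]
        unfold hh
        rw [K.per, K.nper, G.gsymm (K.c (A p)) p]
        simp only [mul_neg, neg_mul]
        congr 1
        ac_rfl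
      rw [← l12, ← l01, h01 p hp, h12 p hp] at f2
      rw [mul_neg, neg_mul, f1] at f2
      exact absurd f2 (by decide)
    -- the final gauge
    obtain ⟨p0, hp0⟩ := hPne
    set s := A p0 + 2 with hs
    set w := K.c s with hw
    have hqw : ∀ p, p ∉ Q → K.c (A p + 1) ≠ w := by
      intro p hp h
      by_cases hpp : p = p0
      · subst hpp
        exact inj K (show A p + 1 < s by omega) (by omega) h
      · apply hq p p0 hp hp0 hpp
        rw [h]
        exact hneg _ _ (n2 p0 hp0)
    apply hcon w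
    have hwin : ∀ v, v ∈ Q → ∃ t, s ≤ t ∧ t < s + m ∧ K.c t = v := fun v hv => window K hv s
    choose! ρ r1 r2 r3 using hwin
    have hsh : ∀ p, ∃ t, s - 1 ≤ t ∧ t < s - 1 + m ∧ ∀ k, K.c (t + k) = K.c (A p + k) :=
      fun p => shift K (A p) (s - 1)
    choose α a1 a2 a3 using hsh
    have hα : ∀ p, p ∉ Q → s ≤ α p := by
      intro p hp
      by_contra hlt
      have : α p + 1 = s := by
        have := a1 p
        omega
      apply hqw p hp
      rw [← a3 p 1, this]
    refine ⟨fun v => if v ∈ Q then K.Γ (ρ v) else hh K v (α v + 1), ?_⟩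
    -- edges inside Q
    have hQQ : ∀ i j : ℕ, s < i → i < j → j < s + m → G.adj (K.c i) (K.c j) →
        K.Γ i * K.Γ j * G.g (K.c i) (K.c j) = 1 := by
      intro i j h1 h2 h3 hadj
      rcases chord K h2 (by omega) hadj with h | h
      · subst h
        rw [K.step]
        rw [← mul_assoc, Int.units_mul_self, one_mul, Int.units_mul_self]
      · omega
    -- edges between P and Q
    have hPQ : ∀ p, p ∉ Q → ∀ t, s < t → t < s + m → G.adj p (K.c t) →
        hh K p (α p + 1) * K.Γ t * G.g p (K.c t) = 1 := by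
      intro p hp t h1 h2 hadj
      have ha := hα p hp
      have ha2 := a2 p
      have c0 : G.adj p (K.c (α p)) := by
        have := a3 p 0
        simp only [add_zero] at this
        rw [this]; exact hneg _ _ (n0 p hp)
      have c1 : G.adj p (K.c (α p + 1)) := by rw [a3 p 1]; exact hneg _ _ (n1 p hp)
      have c2 : G.adj p (K.c (α p + 2)) := by rw [a3 p 2]; exact hneg _ _ (n2 p hp)
      have l01 := loop K (show α p ≤ α p + 1 by omega) c0 c1 (by omega)
      have l12 := loop K (show α p + 1 ≤ α p + 2 by omega) c1 c2 (by omega)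
      have hk : ∀ k, k < m → G.adj p (K.c (α p + k)) → k ≤ 2 := by
        intro k hk hka
        rw [a3 p k] at hka
        exact hnbr p hp k hk hka
      have ht : t = α p ∨ t = α p + 1 ∨ t = α p + 2 := by
        rcases Nat.lt_or_ge t (α p) with h | h
        · exfalso
          have := hk (t + m - α p) (by omega) (by
            have e : α p + (t + m - α p) = t + m := by omega
            rw [e, K.per]; exact hadj)
          omega
        · have := hk (t - α p) (by omega) (by
            have e : α p + (t - α p) = t := by omega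
            rw [e]; exact hadj)
          omega
      have e : K.Γ t * G.g p (K.c t) = hh K p t := by unfold hh; rw [mul_comm]
      rw [mul_assoc, e]
      rcases ht with rfl | rfl | rfl
      · rw [← l01, Int.units_mul_self]
      · rw [Int.units_mul_self]
      · rw [← l12, Int.units_mul_self]
    intro i hi j hj hadj
    have hi' : i ≠ w := hi
    have hj' : j ≠ w := hj
    have hρ : ∀ v, v ∈ Q → v ≠ w → s < ρ v := by
      intro v hv hvw
      rcases Nat.eq_or_lt_of_le (r1 v hv) with h | h
      · exfalso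
        apply hvw
        rw [← r3 v hv, ← h]
      · exact h
    by_cases hiQ : i ∈ Q <;> by_cases hjQ : j ∈ Q
    · simp only [hiQ, hjQ, if_true]
      have e1 := r3 i hiQ
      have e2 := r3 j hjQ
      have hne : ρ i ≠ ρ j := by
        intro h
        apply G.irr i
        rw [← e2, ← h, e1] at hadj
        exact hadj
      rcases lt_or_gt_of_ne hne with h | h
      · have := hQQ (ρ i) (ρ j) (hρ i hiQ hi') h (r2 j hjQ) (by rw [e1, e2]; exact hadj)
        rwa [e1, e2] at this
      · have := hQQ (ρ j) (ρ i) (hρ j hjQ hj') h (r2 i hiQ) (by rw [e1, e2]; exact G.symm hadj)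
        rw [e1, e2] at this
        rw [mul_comm (K.Γ (ρ i)), G.gsymm]
        exact this
    · simp only [hiQ, hjQ, if_true, if_false]
      have e1 := r3 i hiQ
      have := hPQ j hjQ (ρ i) (hρ i hiQ hi') (r2 i hiQ) (by rw [e1]; exact G.symm hadj)
      rw [e1] at this
      rw [mul_comm (K.Γ (ρ i)), G.gsymm]
      exact this
    · simp only [hiQ, hjQ, if_true, if_false]
      have e2 := r3 j hjQ
      have := hPQ i hiQ (ρ j) (hρ j hjQ hj') (r2 j hjQ) (by rw [e2]; exact hadj)
      rwa [e2] at this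
    · exfalso
      by_cases hij : i = j
      · subst hij; exact G.irr _ hadj
      · exact hind i j hiQ hjQ hij hadj

end SG

end Pool.Agent.H744.VN.Comb
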