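import Pool.Agent.H744.VN.Base
import Pool.Agent.H744.VN.Comb

set_option autoImplicit false

namespace Pool.Agent.H744.VN

open Comb

theorem t_COMB : S_COMB := by
  intro ι _ _ α β hα hβ hd hab hV hN hc
  classical
  let G : SG ι :=
    { adj := fun i j => i ≠ j ∧ α i j ≠ 0
      g := fun i j => if β i j = α i j then 1 else -1
      symm := fun {i j} h => ⟨h.1.symm, by rw [hα]; exact h.2⟩
      gsymm := fun i j => by simp only [hα i j, hβ i j]
      irr := fun i h => h.1 rfl }
  -- from Bal to Ba
  have to1 : ∀ S : Finset ι, Bal α β S → G.Ba (S : Set ι) := by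
    intro S ⟨ε, h1, h2⟩
    refine ⟨fun i => if ε i = 1 then 1 else -1, ?_⟩
    intro i hi j hj hadj
    have hne : α i j ≠ 0 := hadj.2
    have h3 := h2 i hi j hj
    have hne1 : ((-1 : ℝ) = 1) ↔ False := by norm_num
    show (if ε i = 1 then (1 : ℤˣ) else -1) * (if ε j = 1 then (1 : ℤˣ) else -1) *
      (if β i j = α i j then (1 : ℤˣ) else -1) = 1
    rcases h1 i with e1 | e1 <;> rcases h1 j with e2 | e2 <;> rw [e1, e2] at h3 <;>
      simp only [e1, e2, hne1, if_true, if_false]
    · have : β i j = α i j := by linarith
      simp [this]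
    · have : ¬ β i j = α i j := by
        intro h; apply hne; linarith
      simp [this]
    · have : ¬ β i j = α i j := by
        intro h; apply hne; linarith
      simp [this]
    · have : β i j = α i j := by linarith
      simp [this]
  have to2 : ∀ S : Finset ι, G.Ba (S : Set ι) → Bal α β S := by
    intro S ⟨ε, h⟩
    refine ⟨fun i => ((ε i : ℤ) : ℝ), ?_, ?_⟩
    · intro i
      rcases Int.units_eq_one_or (ε i) with e | e <;> simp [e]
    · intro i hi j hj
      by_cases hij : i = j
      · subst hij
        rcases Int.units_eq_one_or (ε i) with e | e <;> simp [e, hd]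
      by_cases h0 : α i j = 0
      · have : β i j = 0 := by
          have := hab i j
          rw [h0, abs_zero] at this
          exact abs_eq_zero.1 this
        rw [h0, this, mul_zero]
      · have h3 : ε i * ε j * (if β i j = α i j then (1 : ℤˣ) else -1) = 1 :=
          h i hi j hj ⟨hij, h0⟩
        rcases abs_eq_abs.1 (hab i j) with hb | hb
        · rw [if_pos hb] at h3
          rcases Int.units_eq_one_or (ε i) with e1 | e1 <;>
            rcases Int.units_eq_one_or (ε j) with e2 | e2 <;> rw [e1, e2] at h3
          · simp [e1, e2, hb]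
          · exact absurd h3 (by decide)
          · exact absurd h3 (by decide)
          · simp [e1, e2, hb]
        · have hb' : ¬ β i j = α i j := by
            intro h'; apply h0; linarith
          rw [if_neg hb'] at h3
          rcases Int.units_eq_one_or (ε i) with e1 | e1 <;>
            rcases Int.units_eq_one_or (ε j) with e2 | e2 <;> rw [e1, e2] at h3
          · exact absurd h3 (by decide)
          · simp [e1, e2, hb]
          · simp [e1, e2, hb]
          · exact absurd h3 (by decide)
  obtain ⟨v, hv⟩ := SG.main (G := G) (fun i j => i ≠ j ∧ α i j < 0)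
    (fun i j h => ⟨h.1, h.2.ne⟩) (fun i j h => ⟨h.1.symm, by rw [hα]; exact h.2⟩)
    (by
      intro p q h
      have := to1 _ (hV p q h.1 h.2)
      have e : (((Finset.univ.erase p).erase q : Finset ι) : Set ι) = {i | i ≠ p ∧ i ≠ q} := by
        ext t; simp [and_comm]
      rwa [e] at this)
    (by
      intro v
      obtain ⟨a, b, c, h1, h2, h3, h4, h5, h6, h7, h8, h9⟩ := hN v
      exact ⟨a, b, c, h4, h5, h6, ⟨h1.symm, h7⟩, ⟨h2.symm, h8⟩, ⟨h3.symm, h9⟩⟩)
    hc
  refine ⟨v, to2 _ ?_⟩
  have e : ((Finset.univ.erase v : Finset ι) : Set ι) = {i | i ≠ v} := by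
    ext t; simp
  rw [e]; exact hv

end Pool.Agent.H744.VN
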