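import Pool.Agent.H744.VN.Defs

/-!
# Decomposition into irreducible minimal vectors
-/

set_option autoImplicit false

open Pool.Agent.H744.Vo Pool.Agent.H744.VN

namespace Pool.Agent.H744.VN.Dec

section dec

variable {L V : Type} [AddCommGroup L] [AddCommGroup V] [Module (ZMod 2) V] {Λ : Lat L V}
  (M : Λ.MinSys)

/-- splitting of a minimal vector with a reducible class -/
lemma split_min {H : L} (hM : Mn M H) (h0 : H ≠ 0) (hirr : ¬ Irr M.f (Λ.pr H)) :
    ∃ v w : L, v + w = H ∧ Λ.q v < Λ.q H ∧ Λ.q w < Λ.q H ∧ Λ.q v + Λ.q w ≤ Λ.q H := by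
  have hc0 : Λ.pr H ≠ 0 := by
    intro h
    apply h0
    apply Λ.eq_zero_of_q
    have := hM
    unfold Mn at this
    rwa [h, M.f_zero] at this
  have hqH : Λ.q H = M.f (Λ.pr H) := le_antisymm hM (M.f_le H)
  unfold Irr at hirr
  push Not at hirr
  obtain ⟨a, b, ha, hb, hab, hle⟩ := hirr hc0
  have px : Λ.pr (M.y a + M.y b) = Λ.pr H := by rw [map_add, M.pr_y, M.pr_y, hab]
  have pz : Λ.pr (M.y a - M.y b) = Λ.pr H := by
    rw [map_sub, M.pr_y, M.pr_y, sub_eq_add', hab]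
  have hq : Λ.q (M.y a + M.y b) + Λ.q (M.y a - M.y b) = 2 * M.f a + 2 * M.f b := by
    rw [Λ.q_add, Λ.q_sub]; unfold Lat.MinSys.f; ring
  have h1 := M.f_le' px
  have h2 := M.f_le' pz
  have ex : Λ.q (M.y a + M.y b) = Λ.q H := by linarith
  have ez : Λ.q (M.y a - M.y b) = Λ.q H := by linarith
  have key : ∃ u : L, Λ.pr u = Λ.pr H ∧ Λ.q u = Λ.q H ∧ u ≠ H ∧ u ≠ -H := by
    by_contra hcon
    push Not at hcon
    have hx := hcon _ px ex
    have hz := hcon _ pz ez
    have d1 : ∀ x y : L, x + y = x - y → y = 0 := by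
      intro x y h
      apply Λ.double_eq_zero
      have : y + y = (x + y) - (x - y) := by abel
      rw [this, h, sub_self]
    have d2 : ∀ x y : L, x + y = -(x - y) → x = 0 := by
      intro x y h
      apply Λ.double_eq_zero
      have : x + x = (x + y) + (x - y) := by abel
      rw [this, h, neg_add_cancel]
    by_cases c1 : M.y a + M.y b = H
    · by_cases c2 : M.y a - M.y b = H
      · exact M.y_ne hb (d1 _ _ (c1.trans c2.symm))
      · exact M.y_ne ha (d2 _ _ (by rw [hz c2, neg_neg, c1]))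
    · by_cases c2 : M.y a - M.y b = H
      · exact M.y_ne ha (d2 _ _ (by rw [hx c1, c2]))
      · exact M.y_ne hb (d1 _ _ (by rw [hx c1, hz c2]))
  obtain ⟨u, pu, qu, hu1, hu2⟩ := key
  have p1 : Λ.pr (H + u) = 0 := by rw [map_add, pu, self_add]
  have hv2 := Λ.half_add p1
  set v := Lat.half (H + u) with hv
  have hvw : v + (v - u) = H := by
    have : v + (v - u) = (v + v) - u := by abel
    rw [this, hv2]; abel
  have hdiff : v - (v - u) = u := by abel
  have hqq : Λ.q v + Λ.q (v - u) = Λ.q H := by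
    have e1 : Λ.q H = Λ.q v + Λ.q (v - u) + 2 * Λ.b v (v - u) := by rw [← Λ.q_add, hvw]
    have e2 : Λ.q u = Λ.q v + Λ.q (v - u) - 2 * Λ.b v (v - u) := by rw [← Λ.q_sub, hdiff]
    linarith
  have hv0 : v ≠ 0 := by
    intro h
    apply hu2
    rw [h, add_zero] at hv2
    exact (neg_eq_of_add_eq_zero_right hv2.symm).symm
  have hw0 : v - u ≠ 0 := by
    intro h
    apply hu1
    rw [h, add_zero] at hvw
    rw [← hvw]
    exact (sub_eq_zero.1 h).symm
  have q1 := Λ.q_pos hv0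
  have q2 := Λ.q_pos hw0
  exact ⟨v, v - u, hvw, by linarith, by linarith, hqq.le⟩

/-- every vector is a sum of irreducible minimal vectors -/
lemma decA : ∀ H : L, ∃ l : List L, l.sum = H ∧ (∀ x ∈ l, IV M x) ∧ (l.map Λ.q).sum ≤ Λ.q H := by
  apply Λ.induction_q (P := fun H => ∃ l : List L, l.sum = H ∧ (∀ x ∈ l, IV M x) ∧
    (l.map Λ.q).sum ≤ Λ.q H)
  intro H ih
  have comb : ∀ v w : L, v + w = H → Λ.q v < Λ.q H → Λ.q w < Λ.q H → Λ.q v + Λ.q w ≤ Λ.q H →
      ∃ l : List L, l.sum = H ∧ (∀ x ∈ l, IV M x) ∧ (l.map Λ.q).sum ≤ Λ.q H := by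
    intro v w hvw h1 h2 h3
    obtain ⟨l1, a1, a2, a3⟩ := ih v h1
    obtain ⟨l2, b1, b2, b3⟩ := ih w h2
    refine ⟨l1 ++ l2, by rw [List.sum_append, a1, b1, hvw], ?_, ?_⟩
    · intro x hx
      rcases List.mem_append.1 hx with h | h
      · exact a2 x h
      · exact b2 x h
    · rw [List.map_append, List.sum_append]
      linarith
  by_cases h0 : H = 0
  · refine ⟨[], by simp [h0], by simp, ?_⟩
    simp only [List.map_nil, List.sum_nil]
    exact Λ.q_nonneg H
  by_cases hm : M.f (Λ.pr H) < Λ.q H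
  · have := w_q M H
    exact comb _ _ (w_sum M H) (w1_lt M hm) (w2_lt M hm) (by linarith)
  by_cases hirr : Irr M.f (Λ.pr H)
  · refine ⟨[H], by simp, ?_, by simp⟩
    intro x hx
    rw [List.mem_singleton] at hx
    rw [hx]
    exact ⟨hirr, not_lt.1 hm⟩
  · obtain ⟨v, w, h1, h2, h3, h4⟩ := split_min M (not_lt.1 hm) h0 hirr
    exact comb v w h1 h2 h3 h4

lemma not_pairwise {α : Type} {R : α → α → Prop} (l : List α) (h : ¬ l.Pairwise R) :
    ∃ (x y : α) (l' : List α), l.Perm (x :: y :: l') ∧ ¬ R x y := by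
  induction l with
  | nil => exact (h List.Pairwise.nil).elim
  | cons a l ih =>
    rw [List.pairwise_cons, not_and_or] at h
    by_cases h2 : l.Pairwise R
    · have h1 : ¬ ∀ b ∈ l, R a b := by
        rcases h with h | h
        · exact h
        · exact (h h2).elim
      push Not at h1
      obtain ⟨b, hb, hab⟩ := h1
      obtain ⟨s, t, rfl⟩ := List.append_of_mem hb
      exact ⟨a, b, s ++ t, List.Perm.cons a List.perm_middle, hab⟩
    · obtain ⟨x, y, l', hp, hxy⟩ := ih h2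
      refine ⟨x, y, a :: l', ?_, hxy⟩
      refine (List.Perm.cons a hp).trans ?_
      refine (List.Perm.swap x a _).trans ?_
      exact List.Perm.cons x (List.Perm.swap y a _)

omit [Module (ZMod 2) V] in
lemma exists_delta (Λ : Lat L V) : ∃ δ : ℝ, 0 < δ ∧ ∀ x : L, x ≠ 0 → δ ≤ Λ.q x := by
  have hfin : ({x : L | Λ.q x < 1} \ {0}).Finite := (Λ.fin 1).subset Set.sdiff_subset
  rcases Set.eq_empty_or_nonempty ({x : L | Λ.q x < 1} \ {0}) with he | hne
  · refine ⟨1, one_pos, fun x hx => ?_⟩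
    by_contra hlt
    have : x ∈ ({x : L | Λ.q x < 1} \ {0}) := ⟨not_le.1 hlt, hx⟩
    rw [he] at this
    exact this
  · obtain ⟨m, hm, hmin⟩ := Set.exists_min_image _ Λ.q hfin hne
    have hm1 : Λ.q m < 1 := hm.1
    refine ⟨Λ.q m, Λ.q_pos hm.2, fun x hx => ?_⟩
    by_cases h1 : Λ.q x < 1
    · exact hmin x ⟨h1, hx⟩
    · linarith

omit [Module (ZMod 2) V] in
lemma iv_ne {x : L} (h : IV M x) : x ≠ 0 := by
  rintro rfl
  exact h.1.1 (map_zero _)

omit [Module (ZMod 2) V] in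
lemma finite_lists (H : L) : {l : List L | l.sum = H ∧ (∀ x ∈ l, IV M x) ∧
    (l.map Λ.q).sum ≤ Λ.q H}.Finite := by
  obtain ⟨δ, hδ, hmin⟩ := exists_delta Λ
  obtain ⟨n, hn⟩ := exists_nat_gt (Λ.q H / δ)
  have hF : Finite {x : L // Λ.q x < Λ.q H + 1} := (Λ.fin (Λ.q H + 1)).to_subtype
  refine ((List.finite_length_le {x : L // Λ.q x < Λ.q H + 1} n).image
    (List.map Subtype.val)).subset ?_
  rintro l ⟨-, h2, h3⟩
  have hx : ∀ x ∈ l, Λ.q x < Λ.q H + 1 := by
    intro x hx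
    have : Λ.q x ≤ (l.map Λ.q).sum := by
      apply List.single_le_sum _ _ (List.mem_map_of_mem hx)
      intro y hy
      obtain ⟨z, -, rfl⟩ := List.mem_map.1 hy
      exact Λ.q_nonneg z
    linarith
  refine ⟨l.attachWith _ hx, ?_, ?_⟩
  · rw [Set.mem_ofPred_eq, List.length_attachWith]
    have h4 : (l.map Λ.q).length • δ ≤ (l.map Λ.q).sum := by
      apply List.card_nsmul_le_sum
      intro y hy
      obtain ⟨z, hz, rfl⟩ := List.mem_map.1 hy
      exact hmin z (iv_ne M (h2 z hz))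
    rw [List.length_map, nsmul_eq_mul] at h4
    have h5 : (l.length : ℝ) < n := by
      refine lt_of_le_of_lt ?_ hn
      rw [le_div_iff₀ hδ]
      linarith
    exact_mod_cast h5.le
  · simp

end dec

theorem t_DEC : S_DEC := by
  intro L V _ _ _ Λ M H
  have hne : {l : List L | l.sum = H ∧ (∀ x ∈ l, IV M x) ∧ (l.map Λ.q).sum ≤ Λ.q H}.Nonempty :=
    decA M H
  obtain ⟨l, ⟨h1, h2, h3⟩, hmin⟩ := Set.exists_min_image _ (fun l : List L => (l.map Λ.q).sum)
    (finite_lists M H) hne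
  refine ⟨l, h1, h2, ?_, h3⟩
  by_contra hp
  obtain ⟨x, y, l', hperm, hxy⟩ := not_pairwise l hp
  obtain ⟨l₂, a1, a2, a3⟩ := decA M (x + y)
  have e1 : (l.map Λ.q).sum = Λ.q x + (Λ.q y + (l'.map Λ.q).sum) := by
    rw [(hperm.map Λ.q).sum_eq]
    simp
  have e2 : x + (y + l'.sum) = H := by
    rw [← h1, hperm.sum_eq]
    simp
  rw [Λ.q_add] at a3
  have e3 : ((l₂ ++ l').map Λ.q).sum = (l₂.map Λ.q).sum + (l'.map Λ.q).sum := by
    rw [List.map_append, List.sum_append]
  have hlt : ((l₂ ++ l').map Λ.q).sum < (l.map Λ.q).sum := by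
    rw [e3, e1]
    push Not at hxy
    linarith
  have := hmin (l₂ ++ l') ⟨by rw [List.sum_append, a1, ← e2, add_assoc], ?_, by linarith⟩
  · exact absurd hlt (not_lt.2 this)
  · intro z hz
    rcases List.mem_append.1 hz with h | h
    · exact a2 z h
    · exact h2 z (hperm.mem_iff.2 (List.mem_cons_of_mem _ (List.mem_cons_of_mem _ h)))

end Pool.Agent.H744.VN.Dec
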