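import Pool.Agent.H744.Vo.VoG

/-!
# Project VN: basic definitions and first statements
(Conway-Sloane vonorm conjecture, MP_16b7e9_gt / S12811).

`Lat L V`, `Lat.MinSys`, `Lat.MinSys.f`, `Lat.half`, `w1`, `w2`, ... are from the library modules
`Pool.Agent.H744.Vo.VoA` - `VoG`
(namespace `Pool.Agent.H744.Vo`).
-/

set_option autoImplicit false

open Pool.Agent.H744.Vo

namespace Pool.Agent.H744.VN

/-- `c` is an irreducible class with respect to the vonorm function `f`. -/
def Irr {V : Type} [AddCommGroup V] (f : V → ℝ) (c : V) : Prop :=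
  c ≠ 0 ∧ ∀ a b : V, a ≠ 0 → b ≠ 0 → a + b = c → f c < f a + f b

/-- `x` is a minimal vector of its class. -/
def Mn {L V : Type} [AddCommGroup L] [AddCommGroup V] {Λ : Lat L V} (M : Λ.MinSys) (x : L) : Prop :=
  Λ.q x ≤ M.f (Λ.pr x)

/-- `x` is an irreducible minimal vector (the class is irreducible and `x` is minimal in it). -/
def IV {L V : Type} [AddCommGroup L] [AddCommGroup V] {Λ : Lat L V} (M : Λ.MinSys) (x : L) : Prop :=
  Irr M.f (Λ.pr x) ∧ Mn M x

/-- the comparison vector `t_r = pr (½ (y_r - y'_r))` of two lattice structures on the same group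
with the same projection. -/
noncomputable def tt {L V : Type} [AddCommGroup L] [AddCommGroup V] {Λ Λ' : Lat L V}
    (M : Λ.MinSys) (N : Λ'.MinSys) (r : V) : V := Λ.pr (Lat.half (M.y r - N.y r))

/-- total weight of a finite set of classes -/
noncomputable def W {V : Type} (f : V → ℝ) (Z : Finset V) : ℝ := ∑ z ∈ Z, f z

/-- a relation: a finite set of vectors with sum zero -/
def Rel {V : Type} [AddCommGroup V] (Z : Finset V) : Prop := ∑ z ∈ Z, z = 0

/-- good relation -/
def GoodR {V : Type} [AddCommGroup V] [Module (ZMod 2) V] (t : V → V) (Z : Finset V) : Prop :=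
  ∑ z ∈ Z, t z ∈ Submodule.span (ZMod 2) (Z : Set V)

/-- a flat set of classes: a linear map `μ` with `μ z + t z ∈ {0, z}` on it -/
def Flat {V : Type} [AddCommGroup V] [Module (ZMod 2) V] (t : V → V) (U : Finset V) : Prop :=
  ∃ μ : V →ₗ[ZMod 2] V, ∀ z ∈ U, μ z = t z ∨ μ z = t z + z

/-- **S_LA (Lemma A).**  If all relations contained in `U` are good then `U` is flat. -/
def S_LA : Prop := ∀ (V : Type) [AddCommGroup V] [Module (ZMod 2) V] (t : V → V) (U : Finset V),
  (∀ Z ⊆ U, Rel Z → GoodR t Z) → Flat t U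

/-- **S_FIN (final step).**  Two lattice structures on the same group with the same projection, the
same vonorms, and a linear map `μ` with `μ r + t_r ∈ {0, r}` for all irreducible classes are
isometric. -/
def S_FIN : Prop := ∀ (L V : Type) [AddCommGroup L] [AddCommGroup V] [Module (ZMod 2) V]
  (Λ Λ' : Lat L V) (M : Λ.MinSys) (N : Λ'.MinSys), Λ.pr = Λ'.pr → (∀ v, M.f v = N.f v) →
  (∃ μ : V →ₗ[ZMod 2] V, ∀ r, Irr M.f r → (μ r = tt M N r ∨ μ r = tt M N r + r)) →
  ∃ e : L ≃+ L, ∀ z, Λ'.q (e z) = Λ.q z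

/-- **S_DEC (decomposition, I5).**  Every lattice vector `H` is the sum of a finite multiset of irreducible
minimal vectors with pairwise nonnegative inner products.  (Stated for lists.) -/
def S_DEC : Prop := ∀ (L V : Type) [AddCommGroup L] [AddCommGroup V] [Module (ZMod 2) V]
  (Λ : Lat L V) (M : Λ.MinSys) (H : L), ∃ l : List L, l.sum = H ∧ (∀ x ∈ l, IV M x) ∧
    l.Pairwise (fun x y => 0 ≤ Λ.b x y) ∧ (l.map Λ.q).sum ≤ Λ.q H

end Pool.Agent.H744.VN
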