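import Pool.Agent.H744.VN.Base

/-!
# Project VN, piece FINAL: if all zero-sum families of irreducible minimal vectors have copies,
then the two lattices are isometric.
-/

set_option autoImplicit false

open Pool.Agent.H744.Vo Pool.Agent.H744.VN

namespace Pool.Agent.H744.VN.FinalP

section one

variable {L V : Type} [AddCommGroup L] [AddCommGroup V] {Λ : Lat L V}

/-- left multiplication as an additive homomorphism -/
noncomputable def bl (Λ : Lat L V) (z : L) : L →+ ℝ :=
  AddMonoidHom.mk' (fun x => Λ.b x z) (fun x y => Λ.add_left x y z)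

/-- right multiplication as an additive homomorphism -/
noncomputable def br (Λ : Lat L V) (z : L) : L →+ ℝ :=
  AddMonoidHom.mk' (fun x => Λ.b z x) (fun x y => Λ.add_right z x y)

/-- the combination map -/
noncomputable def comb {I : Type} [Fintype I] (y : I → L) : (I → ℤ) →+ L :=
  AddMonoidHom.mk' (fun n => ∑ r, n r • y r) (fun a c => by
    rw [← Finset.sum_add_distrib]
    exact Finset.sum_congr rfl fun r _ => by rw [Pi.add_apply, add_smul])

theorem comb_apply {I : Type} [Fintype I] (y : I → L) (n : I → ℤ) :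
    comb y n = ∑ r, n r • y r := rfl

theorem b_zsmul_left (n : ℤ) (x z : L) : Λ.b (n • x) z = n * Λ.b x z := by
  have h := map_zsmul (bl Λ z) n x
  have h2 : (bl Λ z) (n • x) = Λ.b (n • x) z := rfl
  have h3 : (bl Λ z) x = Λ.b x z := rfl
  rw [h2, h3, zsmul_eq_mul] at h
  exact h

theorem b_zsmul_right (n : ℤ) (x z : L) : Λ.b z (n • x) = n * Λ.b z x := by
  rw [Λ.symm, b_zsmul_left, Λ.symm]

theorem b_sum_left {I : Type} (s : Finset I) (y : I → L) (z : L) :
    Λ.b (∑ r ∈ s, y r) z = ∑ r ∈ s, Λ.b (y r) z :=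
  map_sum (bl Λ z) y s

theorem b_sum_right {I : Type} (s : Finset I) (y : I → L) (z : L) :
    Λ.b z (∑ r ∈ s, y r) = ∑ r ∈ s, Λ.b z (y r) :=
  map_sum (br Λ z) y s

/-- the norm of a combination -/
theorem q_comb {I : Type} [Fintype I] (y : I → L) (n : I → ℤ) :
    Λ.q (comb y n) = ∑ r, ∑ s, (n r : ℝ) * ((n s : ℝ) * Λ.b (y r) (y s)) := by
  rw [comb_apply]
  unfold Lat.q
  rw [b_sum_left]
  refine Finset.sum_congr rfl fun r _ => ?_
  rw [b_sum_right]
  refine Finset.sum_congr rfl fun s _ => ?_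
  rw [b_zsmul_left, b_zsmul_right]

theorem y_mem_range {I : Type} [Fintype I] [DecidableEq I] (y : I → L) (r : I) :
    y r ∈ (comb y).range := by
  refine ⟨Pi.single r 1, ?_⟩
  rw [comb_apply, Finset.sum_eq_single r]
  · rw [Pi.single_eq_same, one_smul]
  · intro s _ hs
    rw [Pi.single_eq_of_ne hs, zero_smul]
  · intro h
    exact absurd (Finset.mem_univ r) h

end one

section two

variable {L V : Type} [AddCommGroup L] [AddCommGroup V] [Module (ZMod 2) V] {Λ : Lat L V}

/-- the chosen minimal vector of an irreducible class -/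
theorem iv_My (M : Λ.MinSys) {r : V} (hr : Irr M.f r) : IV M (M.y r) := by
  refine ⟨?_, ?_⟩
  · rw [M.pr_y]; exact hr
  · unfold Mn
    rw [M.pr_y]
    exact le_rfl

/-- a subgroup containing a minimal vector of each irreducible class is everything -/
theorem range_top (M : Λ.MinSys) (G : AddSubgroup L)
    (h : ∀ r, Irr M.f r → ∃ x, IV M x ∧ Λ.pr x = r ∧ x ∈ G) (z : L) : z ∈ G := by
  obtain ⟨l, hl, hiv, -, -⟩ := dec M z
  rw [← hl]
  apply AddSubgroup.list_sum_mem
  intro x hx
  have hxiv := hiv x hx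
  obtain ⟨x', hx', hp, hG⟩ := h (Λ.pr x) hxiv.1
  rcases fact1 hxiv hx' hp.symm with h1 | h1
  · rw [h1]; exact hG
  · rw [h1]; exact G.neg_mem hG

end two

section three

variable {L L' V : Type} [AddCommGroup L] [AddCommGroup L'] [AddCommGroup V]
  {Λ : Lat L V} {Λ' : Lat L' V}

/-- two generating families with the same Gram matrix give an isometry -/
theorem isom_of_gram {I : Type} [Fintype I] (y : I → L) (y' : I → L')
    (hy : ∀ z, z ∈ (comb y).range) (hy' : ∀ z, z ∈ (comb y').range)
    (hb : ∀ i j, Λ'.b (y' i) (y' j) = Λ.b (y i) (y j)) :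
    ∃ e : L ≃+ L', ∀ z, Λ'.q (e z) = Λ.q z := by
  have hq : ∀ n, Λ'.q (comb y' n) = Λ.q (comb y n) := by
    intro n
    rw [q_comb, q_comb]
    exact Finset.sum_congr rfl fun r _ => Finset.sum_congr rfl fun s _ => by rw [hb]
  have hk : ∀ n m, comb y n = comb y m → comb y' n = comb y' m := by
    intro n m h
    have h1 : comb y (n - m) = 0 := by rw [map_sub, h, sub_self]
    have h2 : comb y' (n - m) = 0 := by
      apply Λ'.eq_zero_of_q
      rw [hq, h1, Λ.q_zero]
    rw [map_sub] at h2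
    exact sub_eq_zero.mp h2
  choose c hc using hy
  have hadd : ∀ z w, comb y' (c (z + w)) = comb y' (c z) + comb y' (c w) := by
    intro z w
    rw [← map_add]
    apply hk
    rw [map_add, hc, hc, hc]
  let g : L →+ L' := AddMonoidHom.mk' (fun z => comb y' (c z)) hadd
  have hg : ∀ z, g z = comb y' (c z) := fun z => rfl
  have hgq : ∀ z, Λ'.q (g z) = Λ.q z := by
    intro z
    rw [hg, hq, hc]
  have hbij : Function.Bijective g := by
    constructor
    · rw [injective_iff_map_eq_zero]
      intro z hz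
      apply Λ.eq_zero_of_q
      rw [← hgq, hz, Λ'.q_zero]
    · intro z'
      obtain ⟨n, hn⟩ := hy' z'
      refine ⟨comb y n, ?_⟩
      rw [hg, ← hn]
      apply hk
      rw [hc]
  exact ⟨AddEquiv.ofBijective g hbij, fun z => hgq z⟩

end three

/-- **FINAL.** -/
theorem t_FINAL : S_FINAL := by
  classical
  intro L L' V _ _ _ _ _ Λ Λ' M N hf hiso
  have hirr : ∀ r, Irr N.f r → Irr M.f r := by
    intro r hr
    refine ⟨hr.1, ?_⟩
    intro a b ha hb hab
    rw [hf, hf, hf]
    exact hr.2 a b ha hb hab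
  haveI : Fintype {r : V // Irr M.f r} := Fintype.ofFinite _
  obtain ⟨l, hl, hiv, -, -⟩ := dec M (-(∑ r : {r : V // Irr M.f r}, M.y r.1))
  let x : ({r : V // Irr M.f r} ⊕ Fin l.length) → L :=
    Sum.elim (fun r => M.y r.1) (fun k => l.get k)
  have hx : ∀ i, IV M (x i) := by
    rintro (r | k)
    · exact iv_My M r.2
    · exact hiv _ (List.get_mem l k)
  have hsum : ∑ i, x i = 0 := by
    rw [Fintype.sum_sum_type]
    have h1 : ∑ r : {r : V // Irr M.f r}, x (Sum.inl r) = ∑ r : {r : V // Irr M.f r}, M.y r.1 := rfl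
    have h2 : ∑ k : Fin l.length, x (Sum.inr k) = ∑ k : Fin l.length, l.get k := rfl
    have h3 : ∑ k : Fin l.length, l.get k = l.sum := by
      rw [← List.sum_ofFn, List.ofFn_get]
    rw [h1, h2, h3, hl, add_neg_cancel]
  obtain ⟨y', hy1, hy2⟩ := hiso (∑ i, Λ.q (x i) + 1) _ x hx hsum (by linarith)
  apply isom_of_gram (Λ := Λ) (Λ' := Λ') (fun r : {r : V // Irr M.f r} => M.y r.1)
    (fun r => y' (Sum.inl r))
  · apply range_top M
    intro r hr
    exact ⟨M.y r, iv_My M hr, M.pr_y r,
      y_mem_range (fun r : {r : V // Irr M.f r} => M.y r.1) ⟨r, hr⟩⟩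
  · apply range_top N
    intro r hr
    have h := hy1 (Sum.inl ⟨r, hirr r hr⟩) (Finset.mem_univ _)
    refine ⟨y' (Sum.inl ⟨r, hirr r hr⟩), h.1, ?_, ?_⟩
    · rw [h.2]
      exact M.pr_y r
    · exact y_mem_range (fun r : {r : V // Irr M.f r} => y' (Sum.inl r)) ⟨r, hirr r hr⟩
  · intro i j
    exact hy2 (Sum.inl i) (Finset.mem_univ _) (Sum.inl j) (Finset.mem_univ _)

end Pool.Agent.H744.VN.FinalP
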