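import Pool.Agent.H744.VN.Base

/-!
# Project VN2: the case of four vectors
-/

set_option autoImplicit false

open Pool.Agent.H744.Vo

namespace Pool.Agent.H744.VN.FourP

open Pool.Agent.H744.VN

section

variable {L L' V : Type} [AddCommGroup L] [AddCommGroup L'] [AddCommGroup V] [Module (ZMod 2) V]
  {Λ : Lat L V} {Λ' : Lat L' V} {M : Λ.MinSys} {N : Λ'.MinSys}

/-- the two vectors on one side -/
theorem side {w : ℝ} (hI : IsoLt M N w) {a c z : L} (hz : IV M z) (ha : IV M a) (hc : IV M c)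
    (hac : Λ.b a c < 0) (h0 : 0 ≤ Λ.b z (a + c - z))
    (hw : Λ.q (a + c) + Λ.q a + Λ.q c < w) :
    0 < Λ.b z a ∧ 0 < Λ.b z c ∧ Λ.q z ≤ Λ.b z a + Λ.b z c ∧ PC M N z a ∧ PC M N z c ∧
      2 * (Λ.q z + Λ.q a + Λ.q c) - 2 * (Λ.b z a + Λ.b z c - Λ.b a c) < w := by
  have hz0 : z ≠ 0 := iv_ne hz
  have hza : z ≠ a := by
    intro h
    rw [h, add_sub_cancel_left] at h0
    linarith
  have hzc : z ≠ c := by
    intro h
    rw [h, add_sub_cancel_right, Λ.symm] at h0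
    linarith
  have e1 : Λ.b z (a + c - z) = Λ.b z a + Λ.b z c - Λ.q z := by
    rw [Λ.sub_right, Λ.add_right]
    rfl
  have h1 := fact2 ha hz0 hza
  have h2 := fact2 hc hz0 hzc
  rw [e1] at h0
  have hqu : Λ.q (a + c) = Λ.q a + Λ.q c + 2 * Λ.b a c := Λ.q_add a c
  -- the complement
  obtain ⟨z', hz'⟩ : ∃ z', z' = a + c - z := ⟨_, rfl⟩
  have hsym : Λ.b a c = Λ.b c a := Λ.symm a c
  have e2 : Λ.b z' a = Λ.q a + Λ.b a c - Λ.b z a := by
    rw [hz', Λ.sub_left, Λ.add_left, Λ.symm c a]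
    rfl
  have e3 : Λ.b z' c = Λ.b a c + Λ.q c - Λ.b z c := by
    rw [hz', Λ.sub_left, Λ.add_left]
    rfl
  have e4 : Λ.q z' = Λ.q a + Λ.q c + 2 * Λ.b a c + Λ.q z - 2 * (Λ.b z a + Λ.b z c) := by
    rw [hz', Λ.q_sub, Λ.q_add, Λ.add_left, Λ.symm a z, Λ.symm c z]
  have hnn : 0 ≤ Λ.b z' a ∧ 0 ≤ Λ.b z' c := by
    by_cases h : z' = 0
    · rw [h, Λ.zero_left, Λ.zero_left]
      exact ⟨le_refl _, le_refl _⟩
    · have n1 : z' ≠ a := by
        intro h3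
        apply hzc
        rw [hz'] at h3
        have h4 : a + c - z = a + 0 := by rw [h3, add_zero]
        rw [add_sub_assoc] at h4
        exact (sub_eq_zero.1 (add_left_cancel h4)).symm
      have n2 : z' ≠ c := by
        intro h3
        apply hza
        rw [hz', add_comm a c] at h3
        have h4 : c + a - z = c + 0 := by rw [h3, add_zero]
        rw [add_sub_assoc] at h4
        exact (sub_eq_zero.1 (add_left_cancel h4)).symm
      have h3 := fact2 ha h n1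
      have h4 := fact2 hc h n2
      constructor <;> linarith
  have p1 : 0 < Λ.b z a := by linarith
  have p2 : 0 < Λ.b z c := by linarith
  refine ⟨p1, p2, by linarith, ?_, ?_, by linarith⟩
  · apply k0_pair hI hz ha
    rw [abs_of_pos p1]
    linarith [hnn.1, hnn.2]
  · apply k0_pair hI hz hc
    rw [abs_of_pos p2]
    linarith [hnn.1, hnn.2]

/-- gluing of three triples with a common vector -/
theorem glue (hf : ∀ v, M.f v = N.f v) {z x y t : L} (hz : IV M z) (hx : IV M x) (hy : IV M y)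
    (ht : IV M t) (n1 : Λ.b z x ≠ 0) (n2 : Λ.b z y ≠ 0) (n3 : Λ.b z t ≠ 0)
    (h1 : TC M N z x y) (h2 : TC M N z x t) (h3 : TC M N z y t) : TC M N x y t := by
  rw [tc_iff hf hz hx hy] at h1
  rw [tc_iff hf hz hx ht] at h2
  rw [tc_iff hf hz hy ht] at h3
  rw [tc_iff hf hx hy ht]
  obtain ⟨a1, b1, c1, ha1, hb1, hc1, p1, q1, r1⟩ := h1
  obtain ⟨a2, b2, c2, ha2, hb2, hc2, p2, q2, r2⟩ := h2
  obtain ⟨a3, b3, c3, ha3, hb3, hc3, p3, q3, r3⟩ := h3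
  generalize Λ'.b (N.y (Λ.pr z)) (N.y (Λ.pr x)) = Bzx at *
  generalize Λ'.b (N.y (Λ.pr z)) (N.y (Λ.pr y)) = Bzy at *
  generalize Λ'.b (N.y (Λ.pr z)) (N.y (Λ.pr t)) = Bzt at *
  have m1 : Bzx ≠ 0 := by
    intro h
    rw [h, mul_zero] at p1
    exact n1 p1.symm
  have m2 : Bzy ≠ 0 := by
    intro h
    rw [h, mul_zero] at p3
    exact n2 p3.symm
  have m3 : Bzt ≠ 0 := by
    intro h
    rw [h, mul_zero] at q3
    exact n3 q3.symm
  have e1 : a1 * b1 = a2 * b2 := mul_right_cancel₀ m1 (p1.trans p2.symm)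
  have e2 : a1 * c1 = a3 * b3 := mul_right_cancel₀ m2 (q1.trans p3.symm)
  have e3 : a2 * c2 = a3 * c3 := mul_right_cancel₀ m3 (q2.trans q3.symm)
  have s1 : a1 * a1 = 1 := by rcases ha1 with h | h <;> rw [h] <;> norm_num
  have s2 : a2 * a2 = 1 := by rcases ha2 with h | h <;> rw [h] <;> norm_num
  have s3 : a3 * a3 = 1 := by rcases ha3 with h | h <;> rw [h] <;> norm_num
  have pm : ∀ a b : ℝ, (a = 1 ∨ a = -1) → (b = 1 ∨ b = -1) → (a * b = 1 ∨ a * b = -1) := by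
    rintro a b (rfl | rfl) (rfl | rfl) <;> norm_num
  refine ⟨a1 * b1, a1 * c1, a2 * c2, pm _ _ ha1 hb1, pm _ _ ha1 hc1, pm _ _ ha2 hc2, ?_, ?_, ?_⟩
  · rw [← r1]
    have : a1 * b1 * (a1 * c1) = b1 * c1 := by linear_combination (b1 * c1) * s1
    rw [this]
  · rw [← r2, e1]
    have : a2 * b2 * (a2 * c2) = b2 * c2 := by linear_combination (b2 * c2) * s2
    rw [this]
  · rw [← r3, e2, e3]
    have : a3 * b3 * (a3 * c3) = b3 * c3 := by linear_combination (b3 * c3) * s3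
    rw [this]

end

theorem t_FOUR : Pool.Agent.H744.VN.S_FOUR := by
  intro L L' V _ _ _ _ Λ Λ' M N w hf hI hJ x₁ x₂ x₃ x₄ h1 h2 h3 h4 hs hw b12 b13 b14 b23 b24 b34
    p12 p13 p14 p23 p24 p34
  have hu : x₁ + x₂ = -x₃ + -x₄ := by
    have : x₁ + x₂ = -(x₃ + x₄) := by
      rw [eq_neg_iff_add_eq_zero, ← add_assoc]
      exact hs
    rw [this, neg_add]
  have hu0 : x₁ + x₂ ≠ 0 := by
    intro h
    have h5 : x₂ = -x₁ := (neg_eq_of_add_eq_zero_right h).symm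
    rw [h5, Λ.neg_left] at b23
    linarith
  obtain ⟨z, hz, hz0⟩ := dec_head M hu0
  have h3' : IV M (-x₃) := iv_neg h3
  have h4' : IV M (-x₄) := iv_neg h4
  have hq1 : Λ.q (x₁ + x₂) = Λ.q x₁ + Λ.q x₂ + 2 * Λ.b x₁ x₂ := Λ.q_add _ _
  have hb34 : Λ.b (-x₃) (-x₄) = Λ.b x₃ x₄ := by rw [Λ.neg_left, Λ.neg_right, neg_neg]
  have hq2 : Λ.q (x₁ + x₂) = Λ.q x₃ + Λ.q x₄ + 2 * Λ.b x₃ x₄ := by
    rw [hu, Λ.q_add, Λ.q_neg, Λ.q_neg, hb34]
  obtain ⟨A1, A2, A12, P1, P2, T12⟩ := side (N := N) hI hz h1 h2 b12 hz0 (by linarith)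
  obtain ⟨A3, A4, A34, P3, P4, T34⟩ := side (N := N) hI hz h3' h4' (by rw [hb34]; exact b34)
    (by rw [← hu]; exact hz0) (by rw [← hu, Λ.q_neg, Λ.q_neg]; linarith)
  rw [Λ.neg_right] at A3 A4
  rw [Λ.neg_right, Λ.neg_right, hb34, Λ.q_neg, Λ.q_neg] at T34
  have hsum : Λ.b z x₁ + Λ.b z x₂ = -Λ.b z x₃ + -Λ.b z x₄ := by
    rw [← Λ.add_right, hu, Λ.add_right, Λ.neg_right, Λ.neg_right]
  have P3' : PC M N z x₃ := by
    have := pc_neg_right P3
    rwa [neg_neg] at this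
  have P4' : PC M N z x₄ := by
    have := pc_neg_right P4
    rwa [neg_neg] at this
  have B3 : Λ.b z x₃ < 0 := by linarith
  have B4 : Λ.b z x₄ < 0 := by linarith
  have t12 : TC M N z x₁ x₂ := by
    refine t_lemma hf hI hJ hz h1 h2 P1 P2 p12 A1.ne' A2.ne' b12.ne ?_
    rw [abs_of_pos A1, abs_of_pos A2, abs_of_neg b12]
    linarith
  have t34 : TC M N z x₃ x₄ := by
    refine t_lemma hf hI hJ hz h3 h4 P3' P4' p34 B3.ne B4.ne b34.ne ?_
    rw [abs_of_neg B3, abs_of_neg B4, abs_of_neg b34]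
    linarith
  have t13 : TC M N z x₁ x₃ ∨ TC M N z x₂ x₄ := by
    by_cases hc : 2 * (Λ.q z + Λ.q x₁ + Λ.q x₃) -
        2 * (|Λ.b z x₁| + |Λ.b z x₃| + |Λ.b x₁ x₃|) < w
    · exact Or.inl (t_lemma hf hI hJ hz h1 h3 P1 P3' p13 A1.ne' B3.ne b13.ne hc)
    · refine Or.inr (t_lemma hf hI hJ hz h2 h4 P2 P4' p24 A2.ne' B4.ne b24.ne ?_)
      rw [abs_of_pos A1, abs_of_neg B3, abs_of_neg b13] at hc
      rw [abs_of_pos A2, abs_of_neg B4, abs_of_neg b24]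
      linarith
  have t14 : TC M N z x₁ x₄ ∨ TC M N z x₂ x₃ := by
    by_cases hc : 2 * (Λ.q z + Λ.q x₁ + Λ.q x₄) -
        2 * (|Λ.b z x₁| + |Λ.b z x₄| + |Λ.b x₁ x₄|) < w
    · exact Or.inl (t_lemma hf hI hJ hz h1 h4 P1 P4' p14 A1.ne' B4.ne b14.ne hc)
    · refine Or.inr (t_lemma hf hI hJ hz h2 h3 P2 P3' p23 A2.ne' B3.ne b23.ne ?_)
      rw [abs_of_pos A1, abs_of_neg B4, abs_of_neg b14] at hc
      rw [abs_of_pos A2, abs_of_neg B3, abs_of_neg b23]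
      linarith
  rcases t13 with t13 | t24 <;> rcases t14 with t14 | t23
  · exact Or.inr (Or.inr (Or.inl (glue hf hz h1 h3 h4 A1.ne' B3.ne B4.ne t13 t14 t34)))
  · exact Or.inl (glue hf hz h1 h2 h3 A1.ne' A2.ne' B3.ne t12 t13 t23)
  · exact Or.inr (Or.inl (glue hf hz h1 h2 h4 A1.ne' A2.ne' B4.ne t12 t14 t24))
  · exact Or.inr (Or.inr (Or.inr (glue hf hz h2 h3 h4 A2.ne' B3.ne B4.ne t23 t24 t34)))

end Pool.Agent.H744.VN.FourP
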