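import Pool.Agent.H744.VN.Base

/-!
# Project VN2: the frozen statement from S_ISO and S_FINAL
-/

set_option autoImplicit false
open Matrix
open Pool.Agent.H744.Vo

namespace Pool.Agent.H744.VN.FrozenP

theorem t_FROZEN : Pool.Agent.H744.VN.S_ISO → Pool.Agent.H744.VN.S_FINAL → ∀ n : ℕ,
    ∀ A B : Matrix (Fin n) (Fin n) ℝ, A.PosDef → B.PosDef →
      (∀ S : Finset (Fin n),
        (⨅ x : Fin n → ℤ,
          dotProduct (fun i => (x i : ℝ) - (if i ∈ S then (1/2 : ℝ) else 0))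
            (A.mulVec (fun i => (x i : ℝ) - (if i ∈ S then (1/2 : ℝ) else 0))))
        = (⨅ x : Fin n → ℤ,
          dotProduct (fun i => (x i : ℝ) - (if i ∈ S then (1/2 : ℝ) else 0))
            (B.mulVec (fun i => (x i : ℝ) - (if i ∈ S then (1/2 : ℝ) else 0))))) →
      ∃ U : Matrix (Fin n) (Fin n) ℤ, IsUnit U.det ∧
        B = (U.map (Int.cast : ℤ → ℝ))ᵀ * A * U.map (Int.cast : ℤ → ℝ) := by
  intro hiso hfinal n A B hA hB h
  obtain ⟨M⟩ := (latOf hA).exists_minSys
  obtain ⟨N⟩ := (latOf hB).exists_minSys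
  have hf : ∀ v, M.f v = N.f v := by
    intro v
    obtain ⟨S, rfl⟩ := cls_surj v
    have h1 := h S
    rw [tcvp_eq hA M S, tcvp_eq hB N S] at h1
    linarith
  have hw : ∀ w : ℝ, Pool.Agent.H744.VN.IsoLt M N w :=
    hiso (Fin n → ℤ) (Fin n → ℤ) (Fin n → ZMod 2) (latOf hA) (latOf hB) M N hf
  obtain ⟨e, he⟩ := hfinal (Fin n → ℤ) (Fin n → ℤ) (Fin n → ZMod 2) (latOf hA) (latOf hB) M N hf hw
  set g : (Fin n → ℤ) ≃ₗ[ℤ] (Fin n → ℤ) := e.symm.toIntLinearEquiv with hg
  have hgq : ∀ z, (latOf hA).q (g z) = (latOf hB).q z := by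
    intro z
    have h1 := he (e.symm z)
    rw [e.apply_symm_apply] at h1
    exact h1.symm
  have hgadd : ∀ x y, g (x + y) = g x + g y := fun x y => map_add g x y
  have hgb : ∀ x y, (latOf hB).b x y = (latOf hA).b (g x) (g y) := by
    intro x y
    have h1 := hgq (x + y)
    rw [hgadd, Lat.q_add, Lat.q_add, hgq, hgq] at h1
    linarith
  refine ⟨LinearMap.toMatrix' (g : (Fin n → ℤ) →ₗ[ℤ] (Fin n → ℤ)), ?_, ?_⟩
  · rw [LinearMap.det_toMatrix']
    exact LinearEquiv.isUnit_det' g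
  · ext i j
    have h1 := hgb (Pi.single i 1) (Pi.single j 1)
    have hc : ∀ k : Fin n, cv (Pi.single k 1 : Fin n → ℤ) = Pi.single k 1 := by
      intro k
      funext l
      unfold cv
      by_cases hkl : l = k
      · subst hkl; simp
      · simp [hkl]
    have hB1 : (latOf hB).b (Pi.single i 1) (Pi.single j 1) = B i j := by
      show rb B (cv (Pi.single i 1)) (cv (Pi.single j 1)) = B i j
      rw [hc, hc]
      unfold rb
      rw [single_one_dotProduct, mulVec_single_one]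
      rfl
    have hU : ∀ k : Fin n, cv (g (Pi.single k 1)) =
        ((LinearMap.toMatrix' (g : (Fin n → ℤ) →ₗ[ℤ] (Fin n → ℤ))).map
          (Int.cast : ℤ → ℝ)).col k := by
      intro k
      funext l
      simp [cv, LinearMap.toMatrix'_apply]
    have hA1 : (latOf hA).b (g (Pi.single i 1)) (g (Pi.single j 1)) =
        (((LinearMap.toMatrix' (g : (Fin n → ℤ) →ₗ[ℤ] (Fin n → ℤ))).map
          (Int.cast : ℤ → ℝ))ᵀ * A * ((LinearMap.toMatrix' (g : (Fin n → ℤ) →ₗ[ℤ] (Fin n → ℤ))).map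
          (Int.cast : ℤ → ℝ))) i j := by
      show rb A (cv (g (Pi.single i 1))) (cv (g (Pi.single j 1))) = _
      rw [hU, hU]
      unfold rb
      rw [Matrix.mul_assoc, Matrix.mul_apply]
      rfl
    rw [← hB1, h1, hA1]

end Pool.Agent.H744.VN.FrozenP
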