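import Pool.Agent.H744.VN.Base

/-!
# Project VN2, task NEG2: two more negative neighbours
-/

set_option autoImplicit false

open Pool.Agent.H744.Vo Pool.Agent.H744.VN

namespace Pool.Agent.H744.VN.Neg2P

section sums

variable {L V : Type} [AddCommGroup L] [AddCommGroup V] (Λ : Lat L V)

theorem b_sum_left {ι : Type} (S : Finset ι) (x : ι → L) (z : L) :
    Λ.b (∑ i ∈ S, x i) z = ∑ i ∈ S, Λ.b (x i) z := by
  classical
  induction S using Finset.induction_on with
  | empty => simp [Λ.zero_left]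
  | insert a s ha ih => rw [Finset.sum_insert ha, Finset.sum_insert ha, Λ.add_left, ih]

theorem b_sum_right {ι : Type} (S : Finset ι) (x : ι → L) (z : L) :
    Λ.b z (∑ i ∈ S, x i) = ∑ i ∈ S, Λ.b z (x i) := by
  rw [Λ.symm, b_sum_left]
  exact Finset.sum_congr rfl fun i _ => Λ.symm _ _

end sums

section key

variable {L' V : Type} [AddCommGroup L'] [AddCommGroup V] [Module (ZMod 2) V]
  {Λ' : Lat L' V} {N : Λ'.MinSys}

/-- the splitting of `yi + yj` -/
theorem split_pos {yi yj H H' : L'} (hyi : IV N yi) (hs : H + H' = yi + yj)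
    (h0 : Λ'.b H H' = 0) (hne : Λ'.b yi yj ≠ 0) : H = 0 ∨ 0 < Λ'.b H yj := by
  by_cases hH : H = 0
  · exact Or.inl hH
  right
  have h1 : H ≠ yi := by
    intro h
    apply hne
    have h2 : H' = yj := by
      rw [h] at hs
      exact add_left_cancel hs
    rw [← h, ← h2]
    exact h0
  have h2 := fact2 hyi hH h1
  have h3 : Λ'.b H (H + H') = Λ'.b H yi + Λ'.b H yj := by rw [hs, Λ'.add_right]
  rw [Λ'.add_right, h0] at h3
  have h4 : Λ'.q H = Λ'.b H H := rfl
  linarith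

end key

theorem t_NEG2 : S_NEG2 := by
  intro L L' V _ _ _ _ Λ Λ' M N ι _ _ w x hB i j hij hneg hPC
  set rest : Finset ι := (Finset.univ.erase i).erase j with hrest
  have hmem : ∀ l, l ∈ rest ↔ l ≠ j ∧ l ≠ i := by
    intro l; simp [hrest]
  obtain ⟨y, hy1, hy2⟩ := bad_V hB hij hneg
  rw [← hrest] at hy1 hy2
  obtain ⟨yj, yi, hyj, hyi, pj, pi, hb⟩ := hPC i hij
  -- sums over all indices
  have hji : j ∈ Finset.univ.erase i := by simp [hij.symm]
  have hsumg : ∀ {A : Type} [AddCommGroup A] (g : ι → A), ∑ l, g l = g i + (g j + ∑ l ∈ rest, g l) := by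
    intro A _ g
    rw [← Finset.add_sum_erase Finset.univ g (Finset.mem_univ i),
      ← Finset.add_sum_erase (Finset.univ.erase i) g hji]
  have hsx : ∑ l ∈ rest, x l = -(x i + x j) := by
    have h := hB.sum
    rw [hsumg] at h
    have h2 : (x i + x j) + ∑ l ∈ rest, x l = 0 := by rw [← h]; abel
    exact (neg_eq_of_add_eq_zero_right h2).symm
  have hrow : Λ.b (x j) (x i) + (Λ.q (x j) + ∑ l ∈ rest, Λ.b (x j) (x l)) = 0 := by
    have h := bad_row hB j
    rw [hsumg] at h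
    exact h
  have qi : Λ'.q yi = Λ.q (x i) := iv_q_eq hB.hf (hB.iv i) hyi pi
  have qj : Λ'.q yj = Λ.q (x j) := iv_q_eq hB.hf (hB.iv j) hyj pj
  -- the vector r
  set r : L' := ∑ l ∈ rest, y l with hr
  have hqr : Λ'.q r = Λ'.q (yi + yj) := by
    have h1 : Λ'.q r = Λ.q (∑ l ∈ rest, x l) := by
      unfold Lat.q
      rw [hr, b_sum_left, b_sum_left]
      refine Finset.sum_congr rfl fun a ha => ?_
      rw [b_sum_right, b_sum_right]
      exact Finset.sum_congr rfl fun c hc => hy2 a ha c hc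
    rw [h1, hsx, Λ.q_neg, Λ.q_add, Λ'.q_add, qi, qj, Λ'.symm yi yj, hb, Λ.symm (x j) (x i)]
  have hpr : Λ'.pr r = Λ'.pr (yi + yj) := by
    have h1 : Λ'.pr r = Λ.pr (∑ l ∈ rest, x l) := by
      rw [hr, map_sum, map_sum]
      exact Finset.sum_congr rfl fun a ha => (hy1 a ha).2
    rw [h1, hsx, map_neg, neg_eq, map_add, map_add, pi, pj]
  have hp1 : Λ'.pr ((yi + yj) + r) = 0 := by rw [map_add, hpr, self_add]
  have hp2 : Λ'.pr ((yi + yj) - r) = 0 := by rw [map_sub, hpr, sub_self]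
  obtain ⟨H1, e1⟩ : ∃ H1 : L', H1 + H1 = (yi + yj) + r := ⟨_, Λ'.half_add hp1⟩
  obtain ⟨H2, e2⟩ : ∃ H2 : L', H2 + H2 = (yi + yj) - r := ⟨_, Λ'.half_add hp2⟩
  have e3 : H1 + H2 = yi + yj := by
    apply Λ'.double_inj
    have : (H1 + H2) + (H1 + H2) = (H1 + H1) + (H2 + H2) := by abel
    rw [this, e1, e2]; abel
  have e4 : H1 - H2 = r := by
    apply Λ'.double_inj
    have : (H1 - H2) + (H1 - H2) = (H1 + H1) - (H2 + H2) := by abel
    rw [this, e1, e2]; abel
  have h0 : Λ'.b H1 H2 = 0 := by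
    have h1 := Λ'.q_add H1 H2
    have h2 := Λ'.q_sub H1 H2
    rw [e3] at h1
    rw [e4, hqr] at h2
    linarith
  have hbne : Λ'.b yi yj ≠ 0 := by
    rw [Λ'.symm, hb, Λ.symm]
    exact hneg.ne
  -- no vector extends the copy
  have hext : ∀ z : L', IV N z → Λ'.pr z = Λ.pr (x j) →
      ¬ ∀ l ∈ rest, Λ'.b z (y l) = Λ.b (x j) (x l) := by
    intro z hz hpz hbz
    apply bad_erase hB i
    have hqz : Λ'.b z z = Λ.b (x j) (x j) := iv_q_eq hB.hf (hB.iv j) hz hpz
    have hcases : ∀ l ∈ Finset.univ.erase i, l = j ∨ (l ≠ j ∧ l ∈ rest) := by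
      intro l hl
      by_cases h : l = j
      · exact Or.inl h
      · exact Or.inr ⟨h, (hmem l).2 ⟨h, by simpa using hl⟩⟩
    refine ⟨Function.update y j z, ?_, ?_⟩
    · intro l hl
      rcases hcases l hl with rfl | ⟨h1, h2⟩
      · rw [Function.update_self]; exact ⟨hz, hpz⟩
      · rw [Function.update_of_ne h1]; exact hy1 l h2
    · intro l hl m hm
      rcases hcases l hl with rfl | ⟨h1, h2⟩
      · rcases hcases m hm with rfl | ⟨h3, h4⟩
        · rw [Function.update_self]; exact hqz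
        · rw [Function.update_self, Function.update_of_ne h3]; exact hbz m h4
      · rcases hcases m hm with rfl | ⟨h3, h4⟩
        · rw [Function.update_self, Function.update_of_ne h1, Λ'.symm, Λ.symm]
          exact hbz l h2
        · rw [Function.update_of_ne h1, Function.update_of_ne h3]; exact hy2 l h2 m h4
  -- signs
  have hsign : ∀ l ∈ rest, Λ'.b yj (y l) = Λ.b (x j) (x l) ∨ Λ'.b yj (y l) = -Λ.b (x j) (x l) := by
    intro l hl
    obtain ⟨a, c, ha, hc, pa, pc, hac⟩ := hPC l ((hmem l).1 hl).1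
    have h1 := fact1 ha hyj (pa.trans pj.symm)
    have h2 := fact1 hc (hy1 l hl).1 (pc.trans (hy1 l hl).2.symm)
    rcases h1 with rfl | rfl <;> rcases h2 with rfl | rfl
    · exact Or.inl hac
    · right; rw [Λ'.neg_right] at hac; linarith
    · right; rw [Λ'.neg_left] at hac; linarith
    · left; rw [Λ'.neg_left, Λ'.neg_right] at hac; linarith
  classical
  set P := rest.filter (fun l => Λ'.b yj (y l) = Λ.b (x j) (x l)) with hP
  set Q := rest.filter (fun l => ¬ Λ'.b yj (y l) = Λ.b (x j) (x l)) with hQ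
  have hPb : ∀ l ∈ P, Λ'.b yj (y l) = Λ.b (x j) (x l) := fun l hl => (Finset.mem_filter.1 hl).2
  have hQb : ∀ l ∈ Q, Λ'.b yj (y l) = -Λ.b (x j) (x l) := fun l hl =>
    (hsign l (Finset.mem_filter.1 hl).1).resolve_left (Finset.mem_filter.1 hl).2
  have hsplit : ∀ g : ι → ℝ, ∑ l ∈ rest, g l = ∑ l ∈ P, g l + ∑ l ∈ Q, g l := fun g =>
    (Finset.sum_filter_add_sum_filter_not rest _ g).symm
  have hbr : Λ'.b yj r = ∑ l ∈ P, Λ.b (x j) (x l) - ∑ l ∈ Q, Λ.b (x j) (x l) := by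
    rw [hr, b_sum_right, hsplit, Finset.sum_congr rfl hPb, Finset.sum_congr rfl hQb,
      Finset.sum_neg_distrib]
    ring
  have hbu : Λ'.b yj (yi + yj) = -(∑ l ∈ P, Λ.b (x j) (x l) + ∑ l ∈ Q, Λ.b (x j) (x l)) := by
    rw [← hsplit, Λ'.add_right, hb]
    have : Λ'.b yj yj = Λ.q (x j) := qj
    rw [this]
    linarith
  have hH1 : Λ'.b H1 yj = - ∑ l ∈ Q, Λ.b (x j) (x l) := by
    have h1 : Λ'.b yj (H1 + H1) = Λ'.b yj (yi + yj) + Λ'.b yj r := by rw [e1, Λ'.add_right]
    rw [Λ'.add_right, hbu, hbr] at h1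
    rw [Λ'.symm]
    linarith
  have hH2 : Λ'.b H2 yj = - ∑ l ∈ P, Λ.b (x j) (x l) := by
    have h1 : Λ'.b yj (H2 + H2) = Λ'.b yj (yi + yj) - Λ'.b yj r := by rw [e2, Λ'.sub_right]
    rw [Λ'.add_right, hbu, hbr] at h1
    rw [Λ'.symm]
    linarith
  -- claim 1
  have claim1 : ∃ l ∈ Q, Λ.b (x j) (x l) < 0 := by
    by_contra hcon
    push Not at hcon
    have hnn : 0 ≤ ∑ l ∈ Q, Λ.b (x j) (x l) := Finset.sum_nonneg hcon
    rcases split_pos hyi e3 h0 hbne with hz | hp
    · have hs0 : ∑ l ∈ Q, Λ.b (x j) (x l) = 0 := by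
        rw [hz, Λ'.zero_left] at hH1
        linarith
      have hall := (Finset.sum_eq_zero_iff_of_nonneg hcon).1 hs0
      apply hext yj hyj pj
      intro l hl
      by_cases h : Λ'.b yj (y l) = Λ.b (x j) (x l)
      · exact h
      · have hlQ : l ∈ Q := Finset.mem_filter.2 ⟨hl, h⟩
        rw [hQb l hlQ, hall l hlQ, neg_zero]
    · linarith
  have claim2 : ∃ l ∈ P, Λ.b (x j) (x l) < 0 := by
    by_contra hcon
    push Not at hcon
    have hnn : 0 ≤ ∑ l ∈ P, Λ.b (x j) (x l) := Finset.sum_nonneg hcon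
    have e3' : H2 + H1 = yi + yj := by rw [add_comm, e3]
    have h0' : Λ'.b H2 H1 = 0 := by rw [Λ'.symm, h0]
    rcases split_pos hyi e3' h0' hbne with hz | hp
    · have hs0 : ∑ l ∈ P, Λ.b (x j) (x l) = 0 := by
        rw [hz, Λ'.zero_left] at hH2
        linarith
      have hall := (Finset.sum_eq_zero_iff_of_nonneg hcon).1 hs0
      apply hext (-yj) (iv_neg hyj) (by rw [map_neg, neg_eq, pj])
      intro l hl
      rw [Λ'.neg_left]
      by_cases h : Λ'.b yj (y l) = Λ.b (x j) (x l)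
      · have hlP : l ∈ P := Finset.mem_filter.2 ⟨hl, h⟩
        rw [h, hall l hlP, neg_zero]
      · have hlQ : l ∈ Q := Finset.mem_filter.2 ⟨hl, h⟩
        rw [hQb l hlQ, neg_neg]
    · linarith
  obtain ⟨l, hl, hln⟩ := claim1
  obtain ⟨l', hl', hln'⟩ := claim2
  have hlr := (hmem l).1 (Finset.mem_filter.1 hl).1
  have hlr' := (hmem l').1 (Finset.mem_filter.1 hl').1
  refine ⟨l, l', ?_, hlr.2, hlr.1, hlr'.2, hlr'.1, hln, hln'⟩
  rintro rfl
  exact (Finset.mem_filter.1 hl).2 (Finset.mem_filter.1 hl').2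

end Pool.Agent.H744.VN.Neg2P

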