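import Pool.Agent.H744.VN.Base

/-!
# Project VN2: there is no minimal counterexample (assembly)
-/

set_option autoImplicit false

open Pool.Agent.H744.Vo Pool.Agent.H744.VN

namespace Pool.Agent.H744.VN.NobadP

section

variable {L L' V : Type} [AddCommGroup L] [AddCommGroup L'] [AddCommGroup V] [Module (ZMod 2) V]
  {Λ : Lat L V} {Λ' : Lat L' V} {M : Λ.MinSys} {N : Λ'.MinSys}

theorem hasCopy_of_TC (hf : ∀ v, M.f v = N.f v) {ι : Type} [DecidableEq ι] {x : ι → L}
    (hx : ∀ i, IV M (x i)) {a b c : ι} (hab : a ≠ b) (hac : a ≠ c) (hbc : b ≠ c)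
    (h : TC M N (x a) (x b) (x c)) : HasCopy M N x {a, b, c} := by
  obtain ⟨x', y', z', h1, h2, h3, h4, h5, h6, h7, h8, h9⟩ := h
  have d1 : Λ'.b x' x' = Λ.b (x a) (x a) := iv_q_eq hf (hx a) h1 h4
  have d2 : Λ'.b y' y' = Λ.b (x b) (x b) := iv_q_eq hf (hx b) h2 h5
  have d3 : Λ'.b z' z' = Λ.b (x c) (x c) := iv_q_eq hf (hx c) h3 h6
  have e1 : (if a = a then x' else if a = b then y' else z') = x' := if_pos rfl
  have e2 : (if b = a then x' else if b = b then y' else z') = y' := by
    rw [if_neg hab.symm, if_pos rfl]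
  have e3 : (if c = a then x' else if c = b then y' else z') = z' := by
    rw [if_neg hac.symm, if_neg hbc.symm]
  refine ⟨fun i => if i = a then x' else if i = b then y' else z', ?_, ?_⟩
  · intro i hi
    rw [Finset.mem_insert, Finset.mem_insert, Finset.mem_singleton] at hi
    dsimp only
    rcases hi with rfl | rfl | rfl
    · rw [e1]; exact ⟨h1, h4⟩
    · rw [e2]; exact ⟨h2, h5⟩
    · rw [e3]; exact ⟨h3, h6⟩
  · intro i hi j hj
    rw [Finset.mem_insert, Finset.mem_insert, Finset.mem_singleton] at hi hj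
    dsimp only
    rcases hi with rfl | rfl | rfl
    · rw [e1]
      rcases hj with rfl | rfl | rfl
      · rw [e1]; exact d1
      · rw [e2]; exact h7
      · rw [e3]; exact h8
    · rw [e2]
      rcases hj with rfl | rfl | rfl
      · rw [e1, Λ'.symm, Λ.symm]; exact h7
      · rw [e2]; exact d2
      · rw [e3]; exact h9
    · rw [e3]
      rcases hj with rfl | rfl | rfl
      · rw [e1, Λ'.symm, Λ.symm]; exact h8
      · rw [e2, Λ'.symm, Λ.symm]; exact h9
      · rw [e3]; exact d3

end

theorem t_NOBAD (hneg2 : S_NEG2) (hpair : S_PAIR) (hthree : S_THREE) (hfour : S_FOUR)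
    (hcomb : S_COMB) : S_NOBAD := by
  intro L L' V _ _ _ _ Λ Λ' M N ι _ _ w x hB
  have hpos : ∀ i, 0 < Λ.b (x i) (x i) := fun i => Λ.pos _ (iv_ne (hB.iv i))
  have hsum := hB.sum
  have hwt := hB.wt
  by_cases hk0 : Fintype.card ι = 0
  · have hE : IsEmpty ι := Fintype.card_eq_zero_iff.1 hk0
    exact hB.nocopy ⟨fun _ => 0, fun i _ => hE.elim i, fun i _ => hE.elim i⟩
  by_cases hk1 : Fintype.card ι = 1
  · obtain ⟨a, ha⟩ := Fintype.card_eq_one_iff.1 hk1
    have h1 : ∑ i, x i = x a := by
      refine Finset.sum_eq_single a (fun b _ hb => absurd (ha b) hb) (fun h => ?_)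
      exact absurd (Finset.mem_univ a) h
    rw [h1] at hsum
    exact iv_ne (hB.iv a) hsum
  by_cases hk2 : Fintype.card ι = 2
  · obtain ⟨a, b, hab, hu⟩ := Finset.card_eq_two.1 (by rw [Finset.card_univ, hk2] :
      (Finset.univ : Finset ι).card = 2)
    rw [hu, Finset.sum_pair hab] at hsum
    have hb : x b = -x a := (neg_eq_of_add_eq_zero_right hsum).symm
    have hy := iv_y hB.hf (hB.iv a)
    have hpy : Λ'.pr (N.y (Λ.pr (x a))) = Λ.pr (x a) := N.pr_y _
    have hq : Λ'.b (N.y (Λ.pr (x a))) (N.y (Λ.pr (x a))) = Λ.b (x a) (x a) :=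
      iv_q_eq hB.hf (hB.iv a) hy hpy
    have hcases : ∀ i : ι, i = a ∨ i = b := by
      intro i
      have := Finset.mem_univ i
      rw [hu, Finset.mem_insert, Finset.mem_singleton] at this
      exact this
    refine hB.nocopy ⟨fun i => if i = a then N.y (Λ.pr (x a)) else -N.y (Λ.pr (x a)), ?_, ?_⟩
    · intro i _
      dsimp only
      rcases hcases i with rfl | rfl
      · rw [if_pos rfl]
        exact ⟨hy, hpy⟩
      · rw [if_neg hab.symm]
        refine ⟨iv_neg hy, ?_⟩
        rw [map_neg, hpy, hb, map_neg]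
    · intro i _ j _
      dsimp only
      rcases hcases i with rfl | rfl
      · rcases hcases j with rfl | rfl
        · rw [if_pos rfl]; exact hq
        · rw [if_pos rfl, if_neg hab.symm, hb, Λ'.neg_right, Λ.neg_right, hq]
      · rcases hcases j with rfl | rfl
        · rw [if_pos rfl, if_neg hab.symm, hb, Λ'.neg_left, Λ.neg_left, hq]
        · rw [if_neg hab.symm, hb, Λ'.neg_right, Λ.neg_right, Λ'.neg_left, Λ.neg_left, hq]
  by_cases hk3 : Fintype.card ι = 3
  · obtain ⟨a, b, c, hab, hac, hbc, hu⟩ := Finset.card_eq_three.1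
      (by rw [Finset.card_univ, hk3] : (Finset.univ : Finset ι).card = 3)
    have ha' : a ∉ ({b, c} : Finset ι) := by
      rw [Finset.mem_insert, Finset.mem_singleton]
      rintro (h | h)
      · exact hab h
      · exact hac h
    rw [hu, Finset.sum_insert ha', Finset.sum_pair hbc] at hsum hwt
    have hT := hthree L L' V Λ Λ' M N w hB.hf hB.isoNM (x a) (x b) (x c) (hB.iv a) (hB.iv b)
      (hB.iv c) (by rw [add_assoc]; exact hsum) (by rw [add_assoc]; exact hwt)
    refine hB.nocopy ?_
    rw [hu]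
    exact hasCopy_of_TC hB.hf hB.iv hab hac hbc hT
  have hk4 : 4 ≤ Fintype.card ι := by omega
  have hP : ∀ i j : ι, i ≠ j → PC M N (x i) (x j) :=
    fun i j hij => hpair L L' V Λ Λ' M N ι w x hB hk4 i j hij
  have hnb : ∀ v, ∃ a b c : ι, a ≠ v ∧ b ≠ v ∧ c ≠ v ∧ a ≠ b ∧ a ≠ c ∧ b ≠ c ∧
      Λ.b (x v) (x a) < 0 ∧ Λ.b (x v) (x b) < 0 ∧ Λ.b (x v) (x c) < 0 := by
    intro v
    have h1 : ∃ i, Λ.b (x v) (x i) < 0 := by
      by_contra hcon
      push Not at hcon
      have h2 : Λ.b (x v) (x v) ≤ ∑ j, Λ.b (x v) (x j) :=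
        Finset.single_le_sum (f := fun j => Λ.b (x v) (x j)) (fun j _ => hcon j)
          (Finset.mem_univ v)
      rw [bad_row hB v] at h2
      exact absurd (hpos v) (not_lt.2 h2)
    obtain ⟨i, hi⟩ := h1
    have hiv : i ≠ v := by
      rintro rfl
      exact absurd hi (not_lt.2 (hpos i).le)
    obtain ⟨l, l', h3, h4, h5, h6, h7, h8, h9⟩ := hneg2 L L' V Λ Λ' M N ι w x hB i v hiv
      (by rw [Λ.symm]; exact hi) (fun l hl => hP v l hl.symm)
    exact ⟨i, l, l', hiv, h5, h7, h4.symm, h6.symm, h3, hi, h8, h9⟩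
  by_cases hk4' : Fintype.card ι = 4
  · have huniv : ∀ v a b c : ι, a ≠ v → b ≠ v → c ≠ v → a ≠ b → a ≠ c → b ≠ c →
        ({v, a, b, c} : Finset ι) = Finset.univ := by
      intro v a b c hav hbv hcv hab hac hbc
      refine Finset.eq_univ_of_card _ ?_
      rw [hk4']
      rw [Finset.card_eq_succ]
      refine ⟨v, {a, b, c}, ?_, rfl, ?_⟩
      · rw [Finset.mem_insert, Finset.mem_insert, Finset.mem_singleton]
        rintro (h | h | h)
        · exact hav h.symm
        · exact hbv h.symm
        · exact hcv h.symm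
      · exact Finset.card_eq_three.2 ⟨a, b, c, hab, hac, hbc, rfl⟩
    have hneg : ∀ v u : ι, v ≠ u → Λ.b (x v) (x u) < 0 := by
      intro v u hvu
      obtain ⟨a, b, c, hav, hbv, hcv, hab, hac, hbc, n1, n2, n3⟩ := hnb v
      have h1 := Finset.mem_univ u
      rw [← huniv v a b c hav hbv hcv hab hac hbc, Finset.mem_insert, Finset.mem_insert,
        Finset.mem_insert, Finset.mem_singleton] at h1
      rcases h1 with h | h | h | h
      · exact absurd h.symm hvu
      · rw [h]; exact n1
      · rw [h]; exact n2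
      · rw [h]; exact n3
    obtain ⟨v⟩ : Nonempty ι := Fintype.card_pos_iff.1 (by omega)
    obtain ⟨a, b, c, hav, hbv, hcv, hab, hac, hbc, n1, n2, n3⟩ := hnb v
    have hu := huniv v a b c hav hbv hcv hab hac hbc
    have hv' : v ∉ ({a, b, c} : Finset ι) := by
      rw [Finset.mem_insert, Finset.mem_insert, Finset.mem_singleton]
      rintro (h | h | h)
      · exact hav h.symm
      · exact hbv h.symm
      · exact hcv h.symm
    have ha' : a ∉ ({b, c} : Finset ι) := by
      rw [Finset.mem_insert, Finset.mem_singleton]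
      rintro (h | h)
      · exact hab h
      · exact hac h
    rw [← hu, Finset.sum_insert hv', Finset.sum_insert ha', Finset.sum_pair hbc] at hsum hwt
    have hmem : ∀ i : ι, i = v ∨ i = a ∨ i = b ∨ i = c := by
      intro i
      have h1 := Finset.mem_univ i
      rw [← hu, Finset.mem_insert, Finset.mem_insert, Finset.mem_insert,
        Finset.mem_singleton] at h1
      exact h1
    have hF := hfour L L' V Λ Λ' M N w hB.hf hB.isoMN hB.isoNM (x v) (x a) (x b) (x c)
      (hB.iv v) (hB.iv a) (hB.iv b) (hB.iv c) (by rw [add_assoc, add_assoc]; exact hsum)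
      (by rw [add_assoc, add_assoc]; exact hwt) n1 n2 n3 (hneg a b hab) (hneg a c hac)
      (hneg b c hbc) (hP v a hav.symm) (hP v b hbv.symm) (hP v c hcv.symm) (hP a b hab)
      (hP a c hac) (hP b c hbc)
    rcases hF with h | h | h | h
    · refine bad_erase hB c (hasCopy_mono
        (hasCopy_of_TC hB.hf hB.iv hav.symm hbv.symm hab h) fun i hi => ?_)
      rw [Finset.mem_erase] at hi
      rw [Finset.mem_insert, Finset.mem_insert, Finset.mem_singleton]
      rcases hmem i with h' | h' | h' | h'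
      · exact Or.inl h'
      · exact Or.inr (Or.inl h')
      · exact Or.inr (Or.inr h')
      · exact absurd h' hi.1
    · refine bad_erase hB b (hasCopy_mono
        (hasCopy_of_TC hB.hf hB.iv hav.symm hcv.symm hac h) fun i hi => ?_)
      rw [Finset.mem_erase] at hi
      rw [Finset.mem_insert, Finset.mem_insert, Finset.mem_singleton]
      rcases hmem i with h' | h' | h' | h'
      · exact Or.inl h'
      · exact Or.inr (Or.inl h')
      · exact absurd h' hi.1
      · exact Or.inr (Or.inr h')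
    · refine bad_erase hB a (hasCopy_mono
        (hasCopy_of_TC hB.hf hB.iv hbv.symm hcv.symm hbc h) fun i hi => ?_)
      rw [Finset.mem_erase] at hi
      rw [Finset.mem_insert, Finset.mem_insert, Finset.mem_singleton]
      rcases hmem i with h' | h' | h' | h'
      · exact Or.inl h'
      · exact absurd h' hi.1
      · exact Or.inr (Or.inl h')
      · exact Or.inr (Or.inr h')
    · refine bad_erase hB v (hasCopy_mono
        (hasCopy_of_TC hB.hf hB.iv hab hac hbc h) fun i hi => ?_)
      rw [Finset.mem_erase] at hi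
      rw [Finset.mem_insert, Finset.mem_insert, Finset.mem_singleton]
      rcases hmem i with h' | h' | h' | h'
      · exact absurd h' hi.1
      · exact Or.inl h'
      · exact Or.inr (Or.inl h')
      · exact Or.inr (Or.inr h')
  have hk5 : 5 ≤ Fintype.card ι := by omega
  have hdiag : ∀ i, Λ'.b (N.y (Λ.pr (x i))) (N.y (Λ.pr (x i))) = Λ.b (x i) (x i) := fun i =>
    iv_q_eq hB.hf (hB.iv i) (iv_y hB.hf (hB.iv i)) (N.pr_y _)
  obtain ⟨v, hv⟩ := hcomb ι (fun i j => Λ.b (x i) (x j))
    (fun i j => Λ'.b (N.y (Λ.pr (x i))) (N.y (Λ.pr (x j))))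
    (fun i j => Λ.symm _ _) (fun i j => Λ'.symm _ _) hdiag
    (fun i j => by
      by_cases hij : i = j
      · subst hij
        exact congrArg abs (hdiag i)
      · exact (pc_iff hB.hf (hB.iv i) (hB.iv j)).1 (hP i j hij))
    (fun p q hpq hn => (hasCopy_iff hB.hf hB.iv _).1 (bad_V hB hpq hn)) hnb hk5
  exact bad_erase hB v ((hasCopy_iff hB.hf hB.iv _).2 hv)

end Pool.Agent.H744.VN.NobadP
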