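import Pool.Agent.H744.VN.Base

/-!
# VN2-PAIR: every pair of a minimal counterexample with at least four vectors has a copy
-/

set_option autoImplicit false

open Pool.Agent.H744.Vo Pool.Agent.H744.VN

namespace Pool.Agent.H744.VN.PairP

section

variable {L L' V : Type} [AddCommGroup L] [AddCommGroup L'] [AddCommGroup V] [Module (ZMod 2) V]
  {Λ : Lat L V} {Λ' : Lat L' V} {M : Λ.MinSys} {N : Λ'.MinSys}

/-- (B0) orthogonal pairs of small weight have a copy -/
theorem b0 {w : ℝ} (hf : ∀ v, M.f v = N.f v) (hJ : IsoLt N M w) {x y : L} (hx : IV M x)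
    (hy : IV M y) (h0 : Λ.b x y = 0) (hw : 2 * (Λ.q x + Λ.q y) ≤ w) : PC M N x y := by
  rw [pc_iff hf hx hy, h0, abs_zero, abs_eq_zero]
  by_contra hne
  have hX := iv_y hf hx
  have hY := iv_y hf hy
  have qX : Λ'.q (N.y (Λ.pr x)) = Λ.q x := iv_q_eq hf hx hX (N.pr_y _)
  have qY : Λ'.q (N.y (Λ.pr y)) = Λ.q y := iv_q_eq hf hy hY (N.pr_y _)
  have hpos : 0 < |Λ'.b (N.y (Λ.pr x)) (N.y (Λ.pr y))| := abs_pos.mpr hne
  obtain ⟨z, z', hz, hz', hp, hp', hb⟩ := k0_pair hJ hX hY (by rw [qX, qY]; linarith)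
  rw [N.pr_y] at hp hp'
  apply hne
  rw [← hb]
  rcases fact1 hx hz hp.symm with h1 | h1 <;> rcases fact1 hy hz' hp'.symm with h2 | h2
  · rw [← h1, ← h2, h0]
  · have : z' = -y := by rw [h2, neg_neg]
    rw [← h1, this, Λ.neg_right, h0, neg_zero]
  · have : z = -x := by rw [h1, neg_neg]
    rw [← h2, this, Λ.neg_left, h0, neg_zero]
  · have e1 : z = -x := by rw [h1, neg_neg]
    have e2 : z' = -y := by rw [h2, neg_neg]
    rw [e1, e2, Λ.neg_left, Λ.neg_right, h0, neg_zero, neg_zero]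

variable {ι : Type} [Fintype ι] [DecidableEq ι] {w : ℝ} {x : ι → L}

theorem b_sum (a : L) (S : Finset ι) (f : ι → L) : Λ.b a (∑ l ∈ S, f l) = ∑ l ∈ S, Λ.b a (f l) := by
  classical
  induction S using Finset.induction_on with
  | empty => simp [Λ.zero_right]
  | insert s S hs ih => rw [Finset.sum_insert hs, Finset.sum_insert hs, Λ.add_right, ih]

/-- (V') -/
theorem vprime (hB : Bad M N w x) {i j : ι} (hn : ¬ PC M N (x i) (x j)) {p q : ι} (hpq : p ≠ q)
    (hpi : p ≠ i) (hpj : p ≠ j) (hqi : q ≠ i) (hqj : q ≠ j) : 0 ≤ Λ.b (x p) (x q) := by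
  by_contra h
  push Not at h
  have := bad_V hB hpq h
  exact hn (pc_of_hasCopy this (i := i) (j := j)
    (by simp [hpi.symm, hqi.symm]) (by simp [hpj.symm, hqj.symm]))

/-- (F) -/
theorem efF (hB : Bad M N w x) {p q : ι} (h : x p ≠ -x q) :
    -Λ.q (x p) < Λ.b (x p) (x q) ∧ -Λ.q (x q) < Λ.b (x p) (x q) := by
  constructor
  · have h1 : -x p ≠ x q := fun e => h (by rw [← e, neg_neg])
    have := fact2 (z := -x p) (hB.iv q) (neg_ne_zero.mpr (iv_ne (hB.iv p))) h1
    rw [Λ.neg_left, Λ.q_neg] at this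
    linarith
  · have h1 : -x q ≠ x p := fun e => h e.symm
    have := fact2 (z := -x q) (hB.iv p) (neg_ne_zero.mpr (iv_ne (hB.iv q))) h1
    rw [Λ.neg_left, Λ.q_neg, Λ.symm] at this
    linarith

omit [AddCommGroup V] [Module (ZMod 2) V] in
theorem sum3 {i j m : ι} (hij : i ≠ j) (him : i ≠ m) (hjm : j ≠ m) (f : ι → ℝ) :
    ∑ l, f l = f i + f j + f m + ∑ l ∈ ((Finset.univ.erase i).erase j).erase m, f l := by
  rw [← Finset.add_sum_erase Finset.univ f (Finset.mem_univ i),
    ← Finset.add_sum_erase (Finset.univ.erase i) f (a := j) (by simp [hij.symm]),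
    ← Finset.add_sum_erase ((Finset.univ.erase i).erase j) f (a := m)
      (by simp [him.symm, hjm.symm])]
  ring

theorem sum3L {i j m : ι} (hij : i ≠ j) (him : i ≠ m) (hjm : j ≠ m) (f : ι → L) :
    ∑ l, f l = f i + f j + f m + ∑ l ∈ ((Finset.univ.erase i).erase j).erase m, f l := by
  rw [← Finset.add_sum_erase Finset.univ f (Finset.mem_univ i),
    ← Finset.add_sum_erase (Finset.univ.erase i) f (a := j) (by simp [hij.symm]),
    ← Finset.add_sum_erase ((Finset.univ.erase i).erase j) f (a := m)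
      (by simp [him.symm, hjm.symm])]
  abel

/-- Case I -/
theorem caseI (hB : Bad M N w x) (hk : 4 ≤ Fintype.card ι) {i j m : ι} (hij : i ≠ j)
    (hmi : m ≠ i) (hmj : m ≠ j) (hn : ¬ PC M N (x i) (x j)) (hm : x m = -x i) : False := by
  have hn2 : ¬ PC M N (x m) (x j) := by
    intro h
    apply hn
    have := pc_neg_left h
    rwa [hm, neg_neg] at this
  have hz : ∀ l, l ≠ i → l ≠ j → l ≠ m → Λ.b (x i) (x l) = 0 := by
    intro l h1 h2 h3
    have a1 : 0 ≤ Λ.b (x i) (x l) := vprime hB hn2 h1.symm hmi.symm hij h3 h2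
    have a2 : 0 ≤ Λ.b (x m) (x l) := vprime hB hn h3.symm hmi hmj h1 h2
    rw [hm, Λ.neg_left] at a2
    linarith
  set R := ((Finset.univ.erase i).erase m).erase j with hR
  have memR : ∀ l, l ∈ R ↔ l ≠ j ∧ l ≠ m ∧ l ≠ i := by
    intro l; simp [hR]
  have hbij : Λ.b (x i) (x j) = 0 := by
    have h1 := bad_row hB i
    rw [sum3 hmi.symm hij hmj (fun l => Λ.b (x i) (x l))] at h1
    have h2 : ∑ l ∈ R, Λ.b (x i) (x l) = 0 := by
      apply Finset.sum_eq_zero
      intro l hl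
      rw [memR] at hl
      exact hz l hl.2.2 hl.1 hl.2.1
    rw [h2, hm, Λ.neg_right] at h1
    linarith
  have hsum : x j + ∑ l ∈ R, x l = 0 := by
    have h1 := hB.sum
    rw [sum3L hmi.symm hij hmj x, hm] at h1
    rw [← h1]; simp [hR]
  have hpair : ∀ l ∈ R, ∀ l' ∈ R, l ≠ l' → 0 ≤ Λ.b (x l) (x l') := by
    intro l hl l' hl' hne
    rw [memR] at hl hl'
    exact vprime hB hn hne hl.2.2 hl.1 hl'.2.2 hl'.1
  have hxj : ∀ l ∈ R, -x l = x j := by
    intro l hl
    by_contra hne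
    have h1 := fact2 (z := -x l) (hB.iv j) (neg_ne_zero.mpr (iv_ne (hB.iv l))) hne
    have h2 : x j = -∑ l ∈ R, x l := eq_neg_of_add_eq_zero_left hsum
    rw [Λ.q_neg, h2, Λ.neg_left, Λ.neg_right, neg_neg, b_sum,
      ← Finset.add_sum_erase R _ hl] at h1
    have h3 : 0 ≤ ∑ l' ∈ R.erase l, Λ.b (x l) (x l') := by
      apply Finset.sum_nonneg
      intro l' hl'
      rw [Finset.mem_erase] at hl'
      exact hpair l hl l' hl'.2 hl'.1.symm
    have h4 : Λ.b (x l) (x l) = Λ.q (x l) := rfl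
    linarith
  have hcard : 1 ≤ R.card := by
    have h1 : R.card = Fintype.card ι - 3 := by
      rw [hR, Finset.card_erase_of_mem (by simp [hij.symm, hmj.symm]),
        Finset.card_erase_of_mem (by simp [hmi]), Finset.card_erase_of_mem (Finset.mem_univ i),
        Finset.card_univ]
      omega
    omega
  obtain ⟨l, hl⟩ := Finset.card_pos.mp hcard
  have hsum2 : ∑ l' ∈ R.erase l, x l' = 0 := by
    rw [← Finset.add_sum_erase R x hl, ← hxj l hl] at hsum
    simpa using hsum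
  have hempty : R.erase l = ∅ := by
    by_contra hne
    obtain ⟨l2, hl2⟩ := Finset.nonempty_iff_ne_empty.mpr hne
    have h1 : Λ.b (x l2) (∑ l' ∈ R.erase l, x l') = 0 := by rw [hsum2, Λ.zero_right]
    rw [b_sum, ← Finset.add_sum_erase _ _ hl2] at h1
    have h3 : 0 ≤ ∑ l' ∈ (R.erase l).erase l2, Λ.b (x l2) (x l') := by
      apply Finset.sum_nonneg
      intro l' hl'
      rw [Finset.mem_erase, Finset.mem_erase] at hl'
      exact hpair l2 (Finset.mem_of_mem_erase hl2) l' hl'.2.2 hl'.1.symm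
    have h4 : 0 < Λ.b (x l2) (x l2) := Λ.pos _ (iv_ne (hB.iv l2))
    linarith
  have hw : w = 2 * (Λ.q (x i) + Λ.q (x j)) := by
    have h1 := hB.wt
    rw [sum3 hmi.symm hij hmj (fun l => Λ.q (x l))] at h1
    have h2 : ∑ l' ∈ R, Λ.q (x l') = Λ.q (x j) := by
      rw [← Finset.add_sum_erase R _ hl, hempty, Finset.sum_empty, add_zero, ← hxj l hl, Λ.q_neg]
    rw [h2, hm, Λ.q_neg] at h1
    linarith
  exact hn (b0 hB.hf hB.isoNM (hB.iv i) (hB.iv j) hbij hw.ge)

end

theorem t_PAIR : S_NEG2 → S_PAIR := by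
  intro hNEG L L' V _ _ _ _ Λ Λ' M N ι _ _ w x hB hk i j hij
  by_contra hn
  -- Case I
  have hI : ∀ m, m ≠ i → m ≠ j → x m ≠ -x i ∧ x m ≠ -x j := by
    intro m h1 h2
    refine ⟨fun e => caseI hB hk hij h1 h2 hn e, fun e => ?_⟩
    exact caseI hB hk hij.symm h2 h1 (fun h => hn (pc_symm h)) e
  -- all products with i, j are negative
  have hrow : ∀ m, m ≠ i → m ≠ j → Λ.b (x m) (x i) + Λ.b (x m) (x j) ≤ -Λ.q (x m) := by
    intro m h1 h2
    have h := bad_row hB m
    rw [sum3 h1 h2 hij (fun l => Λ.b (x m) (x l))] at h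
    have h3 : 0 ≤ ∑ l ∈ ((Finset.univ.erase m).erase i).erase j, Λ.b (x m) (x l) := by
      apply Finset.sum_nonneg
      intro l hl
      simp only [Finset.mem_erase, Finset.mem_univ, and_true] at hl
      exact vprime hB hn (Ne.symm hl.2.2) h1 h2 hl.2.1 hl.1
    have h4 : Λ.b (x m) (x m) = Λ.q (x m) := rfl
    linarith
  have hneg : ∀ m, m ≠ i → m ≠ j → Λ.b (x m) (x i) < 0 ∧ Λ.b (x m) (x j) < 0 := by
    intro m h1 h2
    have a1 := (efF hB (hI m h1 h2).1).1
    have a2 := (efF hB (hI m h1 h2).2).1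
    have a3 := hrow m h1 h2
    constructor <;> linarith
  -- good pairs
  have hgi : ∀ m, m ≠ i → m ≠ j → ∀ m', m' ≠ i → m' ≠ j → m' ≠ m → PC M N (x m) (x i) := by
    intro m h1 h2 m' h3 h4 h5
    have := bad_V hB h4 (hneg m' h3 h4).2
    exact pc_of_hasCopy this (by simp [h5.symm, h2]) (by simp [h3.symm, hij])
  have hgj : ∀ m, m ≠ i → m ≠ j → ∀ m', m' ≠ i → m' ≠ j → m' ≠ m → PC M N (x m) (x j) := by
    intro m h1 h2 m' h3 h4 h5
    have := bad_V hB h3 (hneg m' h3 h4).1
    exact pc_of_hasCopy this (by simp [h5.symm, h1]) (by simp [h4.symm, hij.symm])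
  -- two elements of the rest
  have hcard : 2 ≤ ((Finset.univ.erase i).erase j).card := by
    rw [Finset.card_erase_of_mem (by simp [hij.symm]), Finset.card_erase_of_mem (Finset.mem_univ i),
      Finset.card_univ]
    omega
  obtain ⟨m, hm⟩ := Finset.card_pos.mp (by omega : 0 < ((Finset.univ.erase i).erase j).card)
  have hm' := hm
  simp only [Finset.mem_erase, Finset.mem_univ, and_true] at hm'
  obtain ⟨hmj, hmi⟩ := hm'
  obtain ⟨m₁, hm₁, hm₁m⟩ := Finset.exists_mem_ne (by omega : 1 < ((Finset.univ.erase i).erase j).card) m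
  simp only [Finset.mem_erase, Finset.mem_univ, and_true] at hm₁
  obtain ⟨hm₁j, hm₁i⟩ := hm₁
  by_cases hall : ∀ m', m' ≠ i → m' ≠ j → m' ≠ m → PC M N (x m) (x m')
  · obtain ⟨l, l', hll, hli, hlm, hl'i, hl'm, hb1, hb2⟩ := hNEG L L' V Λ Λ' M N ι w x hB i m hmi.symm
      (by rw [Λ.symm]; exact (hneg m hmi hmj).1) (by
        intro l hl
        by_cases h1 : l = i
        · subst h1; exact hgi m hmi hmj m₁ hm₁i hm₁j hm₁m
        · by_cases h2 : l = j
          · subst h2; exact hgj m hmi hmj m₁ hm₁i hm₁j hm₁m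
          · exact hall l h1 h2 hl)
    have e1 : l = j := by
      by_contra h
      have := vprime hB hn hlm.symm hmi hmj hli h
      linarith
    have e2 : l' = j := by
      by_contra h
      have := vprime hB hn hl'm.symm hmi hmj hl'i h
      linarith
    exact hll (e1.trans e2.symm)
  · push Not at hall
    obtain ⟨m', h1, h2, h3, hn'⟩ := hall
    have hthird : ∀ l, l ≠ i → l ≠ j → l ≠ m → l ≠ m' → False := by
      intro l a1 a2 a3 a4
      have := bad_V hB a1 (hneg l a1 a2).1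
      exact hn' (pc_of_hasCopy this (by simp [a3.symm, hmi]) (by simp [a4.symm, h1]))
    have hb1 : 0 ≤ Λ.b (x i) (x j) := vprime hB hn' hij hmi.symm h1.symm hmj.symm h2.symm
    have hb2 : 0 ≤ Λ.b (x m) (x m') := vprime hB hn h3.symm hmi hmj h1 h2
    have hw : w = Λ.q (x i) + Λ.q (x j) + Λ.q (x m) + Λ.q (x m') := by
      have h := hB.wt
      rw [sum3 hij hmi.symm hmj.symm (fun l => Λ.q (x l))] at h
      have h4 : ((Finset.univ.erase i).erase j).erase m = {m'} := by
        ext l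
        simp only [Finset.mem_erase, Finset.mem_univ, and_true, Finset.mem_singleton]
        constructor
        · rintro ⟨a1, a2, a3⟩
          by_contra a4
          exact hthird l a3 a2 a1 a4
        · rintro rfl
          exact ⟨h3, h2, h1⟩
      rw [h4, Finset.sum_singleton] at h
      exact h.symm
    have k1 : w ≤ 2 * Λ.q (x i) + 2 * Λ.q (x j) - 2 * |Λ.b (x i) (x j)| := by
      by_contra h
      push Not at h
      exact hn (k0_pair hB.isoMN (hB.iv i) (hB.iv j) h)
    have k2 : w ≤ 2 * Λ.q (x m) + 2 * Λ.q (x m') - 2 * |Λ.b (x m) (x m')| := by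
      by_contra h
      push Not at h
      exact hn' (k0_pair hB.isoMN (hB.iv m) (hB.iv m') h)
    rw [abs_of_nonneg hb1] at k1
    rw [abs_of_nonneg hb2] at k2
    have hb0 : Λ.b (x i) (x j) = 0 := by linarith
    have hb0' : Λ.b (x m) (x m') = 0 := by linarith
    exact hn (b0 hB.hf hB.isoNM (hB.iv i) (hB.iv j) hb0 (by linarith))

end Pool.Agent.H744.VN.PairP
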