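import Pool.Agent.H744.VN.Base

/-!
# Reduction of a counterexample to a minimal one
-/

set_option autoImplicit false

open Pool.Agent.H744.Vo

namespace Pool.Agent.H744.VN.ReduceP

open Pool.Agent.H744.VN

section

variable {L L' V : Type} [AddCommGroup L] [AddCommGroup L'] [AddCommGroup V] [Module (ZMod 2) V]

/-- all families of weight `w` have a copy -/
def IsoEq {Λ : Lat L V} {Λ' : Lat L' V} (M : Λ.MinSys) (N : Λ'.MinSys) (w : ℝ) : Prop :=
  ∀ (ι : Type) [Fintype ι] (x : ι → L), (∀ i, IV M (x i)) → ∑ i, x i = 0 →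
    ∑ i, Λ.q (x i) = w → HasCopy M N x Finset.univ

/-- the weight of a family is in the monoid generated by the vonorms -/
theorem wt_mem {Λ : Lat L V} (M : Λ.MinSys) {ι : Type} [Fintype ι] (x : ι → L)
    (hx : ∀ i, IV M (x i)) :
    ∑ i, Λ.q (x i) ∈ AddSubmonoid.closure (Set.range M.f) := by
  refine AddSubmonoid.sum_mem _ fun i _ => ?_
  rw [iv_q (hx i)]
  exact AddSubmonoid.subset_closure ⟨_, rfl⟩

theorem isoLt_of {Λ : Lat L V} {Λ' : Lat L' V} (M : Λ.MinSys) (N : Λ'.MinSys) (w : ℝ)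
    (h : ∀ w', w' ∈ AddSubmonoid.closure (Set.range M.f) → w' < w → IsoEq M N w') :
    IsoLt M N w := by
  intro ι _ x hx hs hw
  exact h _ (wt_mem M x hx) hw ι x hx hs rfl

theorem isoEq_of (hno : S_NOBAD) {Λ : Lat L V} {Λ' : Lat L' V} (M : Λ.MinSys) (N : Λ'.MinSys)
    (hf : ∀ v, M.f v = N.f v) (w : ℝ) (h1 : IsoLt M N w) (h2 : IsoLt N M w) : IsoEq M N w := by
  classical
  intro ι _ x hx hs hw
  by_contra hc
  exact hno L L' V Λ Λ' M N ι w x ⟨hf, h1, h2, hx, hs, hw, hc⟩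

end

theorem t_REDUCE : S_REDUCE := by
  intro hno L L' V _ _ _ _ _ Λ Λ' M N hf w
  have hfin : (Set.range M.f).Finite := Set.finite_range _
  have hpwo : (AddSubmonoid.closure (Set.range M.f) : Set ℝ).IsPWO := by
    refine Set.IsPWO.addSubmonoid_closure ?_ hfin.isPWO
    rintro _ ⟨v, rfl⟩
    exact Λ.q_nonneg _
  have hwf := hpwo.isWF
  have hfg : M.f = N.f := funext hf
  have key : ∀ w', w' ∈ AddSubmonoid.closure (Set.range M.f) → IsoEq M N w' ∧ IsoEq N M w' := by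
    intro w' hw'
    refine Set.WellFoundedOn.induction hwf hw' (P := fun w' => IsoEq M N w' ∧ IsoEq N M w') ?_
    intro w₁ hw₁ ih
    have h1 : IsoLt M N w₁ := isoLt_of M N w₁ fun w₂ hw₂ hlt => (ih w₂ hw₂ hlt).1
    have h2 : IsoLt N M w₁ := isoLt_of N M w₁ fun w₂ hw₂ hlt =>
      (ih w₂ (by rw [hfg]; exact hw₂) hlt).2
    exact ⟨isoEq_of hno M N hf w₁ h1 h2, isoEq_of hno N M (fun v => (hf v).symm) w₁ h2 h1⟩
  exact isoLt_of M N w fun w' hw' _ => (key w' hw').1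

end Pool.Agent.H744.VN.ReduceP
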