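import Pool.Agent.H744.VN.Base

/-! # VN2: the case of three vectors -/

set_option autoImplicit false
set_option linter.unusedSectionVars false

open Pool.Agent.H744.Vo

namespace Pool.Agent.H744.VN.ThreeP

open Pool.Agent.H744.VN

variable {L L' V : Type} [AddCommGroup L] [AddCommGroup L'] [AddCommGroup V] [Module (ZMod 2) V]
  {Λ : Lat L V} {Λ' : Lat L' V} {M : Λ.MinSys} {N : Λ'.MinSys}

theorem b_of_zero (Λ : Lat L V) {a b c : L} (h : a + b + c = 0) :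
    Λ.b a b = (Λ.q c - Λ.q a - Λ.q b) / 2 := by
  have h1 := Λ.q_add a b
  have h2 : a + b = -c := eq_neg_of_add_eq_zero_left h
  rw [h2, Λ.q_neg] at h1
  linarith

theorem tc_of_zero {x₁ x₂ x₃ : L} {z₁ z₂ z₃ : L'} (h₁ : IV N z₁) (h₂ : IV N z₂) (h₃ : IV N z₃)
    (p₁ : Λ'.pr z₁ = Λ.pr x₁) (p₂ : Λ'.pr z₂ = Λ.pr x₂) (p₃ : Λ'.pr z₃ = Λ.pr x₃)
    (q₁ : Λ'.q z₁ = Λ.q x₁) (q₂ : Λ'.q z₂ = Λ.q x₂) (q₃ : Λ'.q z₃ = Λ.q x₃)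
    (hx : x₁ + x₂ + x₃ = 0) (hz : z₁ + z₂ + z₃ = 0) : TC M N x₁ x₂ x₃ := by
  refine ⟨z₁, z₂, z₃, h₁, h₂, h₃, p₁, p₂, p₃, ?_, ?_, ?_⟩
  · rw [b_of_zero Λ' hz, b_of_zero Λ hx, q₁, q₂, q₃]
  · have hx' : x₁ + x₃ + x₂ = 0 := by rw [← hx]; abel
    have hz' : z₁ + z₃ + z₂ = 0 := by rw [← hz]; abel
    rw [b_of_zero Λ' hz', b_of_zero Λ hx', q₁, q₂, q₃]
  · have hx' : x₂ + x₃ + x₁ = 0 := by rw [← hx]; abel
    have hz' : z₂ + z₃ + z₁ = 0 := by rw [← hz]; abel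
    rw [b_of_zero Λ' hz', b_of_zero Λ hx', q₁, q₂, q₃]

theorem pr_neg' (Λ : Lat L V) (x : L) : Λ.pr (-x) = Λ.pr x := by
  rw [map_neg, ZModModule.neg_eq_self]

/-- the sum of the norms of the four halves -/
theorem four_halves (Λ : Lat L V) {a b c h : L} (hh : h + h = a + b + c) :
    Λ.q h + Λ.q (h - a) + Λ.q (h - b) + Λ.q (h - c) = Λ.q a + Λ.q b + Λ.q c := by
  rw [Λ.q_sub, Λ.q_sub, Λ.q_sub]
  have h1 : Λ.b h (h + h) = Λ.b h (a + b + c) := by rw [hh]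
  rw [Λ.add_right, Λ.add_right, Λ.add_right] at h1
  have : Λ.b h h = Λ.q h := rfl
  rw [this] at h1
  linarith

/-- strict triangle-type inequality -/
theorem lt_split {y H H' : L} (hy : IV M y) (hs : H + H' = y) (h0 : H ≠ 0) (h0' : H' ≠ 0) :
    Λ.q y < Λ.q H + Λ.q H' := by
  have hne : H ≠ y := by
    intro h
    apply h0'
    rw [h] at hs
    exact add_eq_left.1 hs
  have h1 := fact2 hy h0 hne
  have h2 : Λ.q y = Λ.q H + Λ.q H' + 2 * Λ.b H H' := by rw [← hs, Λ.q_add]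
  have h3 : Λ.b H y = Λ.q H + Λ.b H H' := by
    rw [← hs, Λ.add_right]
    rfl
  linarith

theorem t_THREE : S_THREE := by
  intro L L' V _ _ _ _ Λ Λ' M N w hf hJ x₁ x₂ x₃ hx₁ hx₂ hx₃ hx hw
  obtain ⟨y₁, hy₁, p₁, q₁⟩ : ∃ y : L', IV N y ∧ Λ'.pr y = Λ.pr x₁ ∧ Λ'.q y = Λ.q x₁ :=
    ⟨_, iv_y hf hx₁, N.pr_y _, iv_q_eq hf hx₁ (iv_y hf hx₁) (N.pr_y _)⟩
  obtain ⟨y₂, hy₂, p₂, q₂⟩ : ∃ y : L', IV N y ∧ Λ'.pr y = Λ.pr x₂ ∧ Λ'.q y = Λ.q x₂ :=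
    ⟨_, iv_y hf hx₂, N.pr_y _, iv_q_eq hf hx₂ (iv_y hf hx₂) (N.pr_y _)⟩
  obtain ⟨y₃, hy₃, p₃, q₃⟩ : ∃ y : L', IV N y ∧ Λ'.pr y = Λ.pr x₃ ∧ Λ'.q y = Λ.q x₃ :=
    ⟨_, iv_y hf hx₃, N.pr_y _, iv_q_eq hf hx₃ (iv_y hf hx₃) (N.pr_y _)⟩
  have hpr : Λ'.pr (y₁ + y₂ + y₃) = 0 := by
    rw [map_add, map_add, p₁, p₂, p₃, ← map_add, ← map_add, hx, map_zero]
  obtain ⟨H₀, hH⟩ : ∃ H : L', H + H = y₁ + y₂ + y₃ := ⟨_, Λ'.half_add hpr⟩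
  by_cases h0 : H₀ = 0
  · rw [h0, add_zero] at hH
    exact tc_of_zero hy₁ hy₂ hy₃ p₁ p₂ p₃ q₁ q₂ q₃ hx hH.symm
  by_cases h1 : H₀ - y₁ = 0
  · have e : H₀ = y₁ := sub_eq_zero.1 h1
    rw [e] at hH
    refine tc_of_zero (iv_neg hy₁) hy₂ hy₃ ((pr_neg' Λ' _).trans p₁) p₂ p₃
      ((Λ'.q_neg _).trans q₁) q₂ q₃ hx ?_
    have e2 : -y₁ + y₂ + y₃ = (y₁ + y₂ + y₃) - (y₁ + y₁) := by abel
    rw [e2, ← hH, sub_self]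
  by_cases h2 : H₀ - y₂ = 0
  · have e : H₀ = y₂ := sub_eq_zero.1 h2
    rw [e] at hH
    refine tc_of_zero hy₁ (iv_neg hy₂) hy₃ p₁ ((pr_neg' Λ' _).trans p₂) p₃
      q₁ ((Λ'.q_neg _).trans q₂) q₃ hx ?_
    have e2 : y₁ + -y₂ + y₃ = (y₁ + y₂ + y₃) - (y₂ + y₂) := by abel
    rw [e2, ← hH, sub_self]
  by_cases h3 : H₀ - y₃ = 0
  · have e : H₀ = y₃ := sub_eq_zero.1 h3
    rw [e] at hH
    refine tc_of_zero hy₁ hy₂ (iv_neg hy₃) p₁ p₂ ((pr_neg' Λ' _).trans p₃)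
      q₁ q₂ ((Λ'.q_neg _).trans q₃) hx ?_
    have e2 : y₁ + y₂ + -y₃ = (y₁ + y₂ + y₃) - (y₃ + y₃) := by abel
    rw [e2, ← hH, sub_self]
  exfalso
  have hsum := four_halves Λ' hH
  rw [q₁, q₂, q₃] at hsum
  have s23 : (H₀ - y₂) + (H₀ - y₃) = y₁ := by
    have e : (H₀ - y₂) + (H₀ - y₃) = (H₀ + H₀) - y₂ - y₃ := by abel
    rw [e, hH]
    abel
  have s01 : H₀ + -(H₀ - y₁) = y₁ := by abel
  have l1 := lt_split hy₁ s23 h2 h3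
  have l2 := lt_split hy₁ s01 h0 (neg_ne_zero.2 h1)
  rw [Λ'.q_neg] at l2
  obtain ⟨G₂, G₃, g23, pg2, -, qg2, qg3⟩ := split hf hJ hy₁ s23 (by rw [q₁] at l1 l2 ⊢; linarith)
    hx₁ p₁.symm
  obtain ⟨G₀, G₁, g01, pg0, -, qg0, qg1⟩ := split hf hJ hy₁ s01
    (by rw [Λ'.q_neg]; rw [q₁] at l1 l2 ⊢; linarith) hx₁ p₁.symm
  rw [Λ'.q_neg] at qg1
  -- the two vectors
  have pK2 : Λ.pr (G₀ + G₂ - x₁) = Λ.pr x₃ := by
    rw [map_sub, map_add, pg0, pg2, ← p₁, ← map_add, ← map_sub, ← p₃]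
    congr 1
    have e : H₀ + (H₀ - y₂) - y₁ = (H₀ + H₀) - y₂ - y₁ := by abel
    rw [e, hH]
    abel
  have pK3 : Λ.pr (G₀ - G₂) = Λ.pr x₂ := by
    rw [map_sub, pg0, pg2, ← map_sub, ← p₂]
    congr 1
    abel
  have hq : Λ.q (G₀ + G₂ - x₁) + Λ.q (G₀ - G₂) = Λ.q x₂ + Λ.q x₃ := by
    have e1 : Λ.q (G₀ + G₂ - x₁) = Λ.q G₀ + Λ.q G₂ + 2 * Λ.b G₀ G₂ + Λ.q x₁ -
        2 * (Λ.b G₀ x₁ + Λ.b G₂ x₁) := by
      rw [Λ.q_sub, Λ.q_add, Λ.add_left]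
    have e2 : Λ.q G₁ = Λ.q x₁ + Λ.q G₀ - 2 * Λ.b G₀ x₁ := by
      have e3 : G₁ = x₁ - G₀ := by rw [← g01]; abel
      rw [e3, Λ.q_sub, Λ.symm x₁ G₀]
    have e4 : Λ.q G₃ = Λ.q x₁ + Λ.q G₂ - 2 * Λ.b G₂ x₁ := by
      have e3 : G₃ = x₁ - G₂ := by rw [← g23]; abel
      rw [e3, Λ.q_sub, Λ.symm x₁ G₂]
    rw [e1, Λ.q_sub]
    linarith
  have f2 : Λ.q x₂ ≤ Λ.q (G₀ - G₂) := by
    rw [iv_q hx₂, ← pK3]
    exact M.f_le _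
  have f3 : Λ.q x₃ ≤ Λ.q (G₀ + G₂ - x₁) := by
    rw [iv_q hx₃, ← pK2]
    exact M.f_le _
  have iK2 : IV M (G₀ + G₂ - x₁) := by
    refine ⟨by rw [pK2]; exact hx₃.1, ?_⟩
    show Λ.q (G₀ + G₂ - x₁) ≤ M.f (Λ.pr (G₀ + G₂ - x₁))
    rw [pK2, ← iv_q hx₃]
    linarith
  have iK3 : IV M (G₀ - G₂) := by
    refine ⟨by rw [pK3]; exact hx₂.1, ?_⟩
    show Λ.q (G₀ - G₂) ≤ M.f (Λ.pr (G₀ - G₂))
    rw [pK3, ← iv_q hx₂]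
    linarith
  have hG0 : G₀ + G₀ = x₁ + (G₀ + G₂ - x₁) + (G₀ - G₂) := by abel
  have hzero : ∀ (G : L) (H : L'), Λ.q G = Λ'.q H → G = 0 → H = 0 := by
    intro G H hGH hG
    apply Λ'.eq_zero_of_q
    rw [← hGH, hG, Λ.q_zero]
  have hx3 : x₃ = -(x₁ + x₂) := eq_neg_of_add_eq_zero_right hx
  rcases fact1 iK2 hx₃ pK2 with hK2 | hK2
  · rcases fact1 iK3 hx₂ pK3 with hK3 | hK3
    · -- `G₀ = 0`
      rw [hK2, hK3] at hG0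
      have e : G₀ + G₀ = 0 := by
        rw [hG0, hx3]
        abel
      exact h0 (hzero _ _ qg0 (Λ.double_eq_zero e))
    · -- `G₂ = 0`
      rw [hK2, hK3] at hG0
      have e : G₀ + G₀ = -x₂ + -x₂ := by
        rw [hG0, hx3]
        abel
      have e2 : G₀ = -x₂ := Λ.double_inj e
      have e3 : G₂ = 0 := by
        have e4 : G₂ = G₀ - (G₀ - G₂) := by abel
        rw [e4, hK3, e2, sub_self]
      exact h2 (hzero _ _ qg2 e3)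
  · rcases fact1 iK3 hx₂ pK3 with hK3 | hK3
    · -- `G₃ = 0`
      rw [hK2, hK3] at hG0
      have e : G₀ + G₀ = (x₁ + x₂) + (x₁ + x₂) := by
        rw [hG0, hx3]
        abel
      have e2 : G₀ = x₁ + x₂ := Λ.double_inj e
      have e3 : G₃ = 0 := by
        have e4 : G₂ = G₀ - (G₀ - G₂) := by abel
        have e5 : G₂ = x₁ := by
          rw [e4, hK3, e2]
          abel
        rw [e5] at g23
        exact add_eq_left.1 g23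
      exact h3 (hzero _ _ qg3 e3)
    · -- `G₁ = 0`
      rw [hK2, hK3] at hG0
      have e : G₀ + G₀ = x₁ + x₁ := by
        rw [hG0, hx3]
        abel
      have e2 : G₀ = x₁ := Λ.double_inj e
      have e3 : G₁ = 0 := by
        rw [e2] at g01
        exact add_eq_left.1 g01
      exact h1 (hzero _ _ qg1 e3)

end Pool.Agent.H744.VN.ThreeP
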